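import Pool.Agent.Run7.h330.SXu2
import Pool.Agent.TH167.CL.Neg

set_option autoImplicit false

/-!
# Curves on conic bundles: the canonical degree and the degree over the base
-/

namespace Pool.Agent.Run7.h330.CBun

open MvPolynomial Pool.Agent.W609 Pool.Agent.W609.CR Pool.Agent.TH167 Pool.Agent.TH167.SH
open Pool.Agent.TH442.NF (cls refl Step refl_cls line_of ip_line)
open Pool.Agent.R355.NegOrb

/-- The reflections in the roots `E a - E b`. -/
theorem gap_swap {s : ℕ} {P : Fin s → Fin 2 → ℂ}
    (hP : AlgebraicIndependent ℚ (fun ij : Fin s × Fin 2 => P ij.1 ij.2)) {e : ℕ}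
    {u : Fin s → ℕ} (h : Irr P e u) {a b : Fin s} (hab : u a ≠ u b) :
    0 ≤ ip e u e u + ((u a : ℤ) - u b) ^ 2 := by
  obtain ⟨G, h1, h2, h3⟩ := h.ex
  obtain ⟨G', b1, b2, b3⟩ := Pool.Agent.R355.NegOrb.exists_conj hP hP h1 h2 h3 (Equiv.swap a b)
  have hne : a ≠ b := fun h0 => hab (by rw [h0])
  have h4 : ((e, u) : ℕ × (Fin s → ℕ)) ≠ (e, fun j => u (Equiv.swap a b j)) := by
    intro h5
    have h6 := congrFun (congrArg Prod.snd h5) a
    simp only [Equiv.swap_apply_left] at h6
    exact hab h6
  have h5 := Pool.Agent.R355.NegCount.ip_nonneg (inj_of_alg hP) b1 b2 b3 h1 h2 h3 h4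
  have h6 : ∑ j, (u j : ℤ) * ((u j : ℤ) - u (Equiv.swap a b j)) = ((u a : ℤ) - u b) ^ 2 := by
    rw [Fintype.sum_eq_add a b hne (fun j hj => by
      rw [Equiv.swap_apply_of_ne_of_ne hj.1 hj.2, sub_self, mul_zero])]
    rw [Equiv.swap_apply_left, Equiv.swap_apply_right]
    ring
  have h7 : ∑ j, (u j : ℤ) * ((u j : ℤ) - u (Equiv.swap a b j)) =
      ∑ j, (u j : ℤ) * u j - ∑ j, (u j : ℤ) * u (Equiv.swap a b j) := by
    rw [← Finset.sum_sub_distrib]
    exact Finset.sum_congr rfl fun j _ => by ring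
  unfold ip at h5 ⊢
  linarith

/-- The reflections in the roots `H - E (i 0) - E (i 1) - E (i 2)`. -/
theorem gap_refl {s : ℕ} {P : Fin s → Fin 2 → ℂ}
    (hP : AlgebraicIndependent ℚ (fun ij : Fin s × Fin 2 => P ij.1 ij.2)) {e : ℕ}
    {u : Fin s → ℕ} (h : Irr P e u) {i : Fin 3 → Fin s} (hi : Function.Injective i)
    (hd : dl i e u ≠ 0) : 0 ≤ ip e u e u + dl i e u ^ 2 := by
  have p := h.ps hP hi
  obtain ⟨G, h1, h2, h3⟩ := h.ex
  obtain ⟨G', b1, b2, b3⟩ := (h.step hP hi).ex
  have h4 : ((e, u) : ℕ × (Fin s → ℕ)) ≠ (cd i e u, wcr e i u) := by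
    intro h5
    have h6 : e = cd i e u := congrArg Prod.fst h5
    have h7 := cd_cast p
    rw [← h6] at h7
    exact hd (by linarith)
  have h5 := Pool.Agent.R355.NegCount.ip_nonneg (inj_of_alg hP) b1 b2 b3 h1 h2 h3 h4
  have h6 := bil_self_refl hi (cls e u)
  rw [refl_cls hi p] at h6
  have h7 : ip e u (cd i e u) (wcr e i u) = ip e u e u + dl i e u ^ 2 := h6
  rw [h7] at h5
  exact h5

/-- **Curves on conic bundles.** -/
theorem slice {r : ℕ} {P : Fin (r + 4) → Fin 2 → ℂ}
    (hP : AlgebraicIndependent ℚ (fun ij : Fin (r + 4) × Fin 2 => P ij.1 ij.2)) (hr : 1 ≤ r)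
    {G : MvPolynomial (Fin 3) ℂ} {e : ℕ} {u : Fin (r + 4) → ℕ} (hG : Irreducible G)
    (hGe : G.IsHomogeneous e) (hGo : ∀ j, Ord (aff (P j)) (u j) G) (c : Fin (r + 4)) (h5r : 5 ≤ r) :
    0 ≤ 4 * kk e u + ((r : ℤ) - 5) * ((e : ℤ) - u c) := by
  classical
  obtain ⟨f, hf⟩ : ∃ f : ℤ, f = (e : ℤ) - u c := ⟨_, rfl⟩
  rw [← hf]
  have hwd : ∀ j, u j ≤ e := fun j => van_le hG.ne_zero hGe (hGo j).1
  have hf0 : 0 ≤ f := by
    have := hwd c
    rw [hf]
    have h : (u c : ℤ) ≤ e := by exact_mod_cast this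
    linarith
  have hr5 : (0 : ℤ) ≤ (r : ℤ) - 5 := by
    have : (5 : ℤ) ≤ r := by exact_mod_cast h5r
    linarith
  rcases hf0.eq_or_lt with hfz | hfp
  · -- `F C = 0`
    rw [← hfz, mul_zero, add_zero]
    have huc : u c = e := by
      have h : (u c : ℤ) = e := by linarith
      exact_mod_cast h
    by_cases hex : ∃ i, i ≠ c ∧ 1 ≤ u i
    · obtain ⟨i, hic, hi1⟩ := hex
      obtain ⟨h1, h2⟩ := line_of hP hG hGe hGo hic (by omega)
      have h3 : kk e u = 1 := by
        have hE := exc_line hP hic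
        have h4 := can_iff.1 hE.can
        rw [h1, h2]
        exact h4
      rw [h3]
      norm_num
    · push Not at hex
      have h1 : ∑ j, (u j : ℤ) = e := by
        rw [Finset.sum_eq_single c]
        · rw [huc]
        · intro j _ hj
          have := hex j hj
          have h0 : u j = 0 := by omega
          rw [h0]
          rfl
        · intro h
          exact absurd (Finset.mem_univ c) h
      unfold kk
      rw [h1]
      have : (0 : ℤ) ≤ e := Int.natCast_nonneg e
      linarith
  -- `F C > 0`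
  obtain ⟨z, hz⟩ : ∃ z : Fin (r + 4) → ℤ, ∀ i, z i = 2 * u i - f := ⟨fun i => 2 * u i - f, fun _ => rfl⟩
  have hid : f * (4 * kk e u + ((r : ℤ) - 5) * f) =
      4 * ip e u e u + ∑ i ∈ Finset.univ.erase c, z i ^ 2 := by
    have h1 : ∑ i ∈ Finset.univ.erase c, z i ^ 2 = ∑ i, z i ^ 2 - z c ^ 2 := by
      rw [← Finset.add_sum_erase Finset.univ (fun i => z i ^ 2) (Finset.mem_univ c)]
      ring
    have h2 : ∑ i, z i ^ 2 = 4 * ∑ i, (u i : ℤ) * u i - 4 * f * ∑ i, (u i : ℤ) + (r + 4) * f ^ 2 := by
      have h3 : ∀ i, z i ^ 2 = 4 * ((u i : ℤ) * u i) - 4 * f * (u i : ℤ) + f ^ 2 := fun i => by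
        rw [hz]
        ring
      rw [Finset.sum_congr rfl fun i _ => h3 i, Finset.sum_add_distrib, Finset.sum_sub_distrib,
        ← Finset.mul_sum, ← Finset.mul_sum, Finset.sum_const, Finset.card_univ, Fintype.card_fin,
        nsmul_eq_mul]
      push_cast
      ring
    rw [h1, h2, hz]
    unfold kk ip
    have h4 : (u c : ℤ) = e - f := by linarith
    rw [h4]
    ring
  have hfin : 0 ≤ 4 * ip e u e u + ∑ i ∈ Finset.univ.erase c, z i ^ 2 →
      0 ≤ 4 * kk e u + ((r : ℤ) - 5) * f := by
    intro h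
    rw [← hid] at h
    exact nonneg_of_mul_nonneg_right h hfp
  have hsq : 0 ≤ ∑ i ∈ Finset.univ.erase c, z i ^ 2 := Finset.sum_nonneg fun i _ => sq_nonneg _
  rcases le_or_gt 0 (ip e u e u) with hip | hneg
  · exact hfin (by linarith)
  by_cases hne : ip e u e u = -1 ∧ kk e u = 1
  · rw [hne.2]
    have := mul_nonneg hr5 hf0
    linarith
  have hI : Irr P e u := ⟨⟨G, hG, hGe, hGo⟩, hne⟩
  obtain ⟨k, hk⟩ : ∃ k : ℤ, k = - ip e u e u := ⟨_, rfl⟩
  have hk0 : 0 < k := by rw [hk]; linarith
  have hipk : ip e u e u = -k := by rw [hk]; ring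
  have hcardT : (Finset.univ.erase c : Finset (Fin (r + 4))).card = r + 3 := by
    rw [Finset.card_erase_of_mem (Finset.mem_univ c), Finset.card_univ, Fintype.card_fin]
    omega
  apply hfin
  rw [hipk]
  by_cases hall : ∀ i ∈ Finset.univ.erase c, z i = 0
  · -- all multiplicities but one are equal
    exfalso
    have hzero : ∑ i ∈ Finset.univ.erase c, z i ^ 2 = 0 := Finset.sum_eq_zero fun i hi => by
      rw [hall i hi]
      ring
    obtain ⟨i, hi, i', hi', hii⟩ : ∃ i ∈ Finset.univ.erase c, ∃ i' ∈ Finset.univ.erase c, i ≠ i' := by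
      have := Finset.one_lt_card.1 (show 1 < (Finset.univ.erase c : Finset (Fin (r + 4))).card by
        rw [hcardT]
        omega)
      exact this
    have e1 : 2 * (u i : ℤ) = f := by
      have h := hall i hi
      rw [hz] at h
      linarith
    have e2 : 2 * (u i' : ℤ) = f := by
      have h := hall i' hi'
      rw [hz] at h
      linarith
    have hui : 1 ≤ u i := by
      have h : (0 : ℤ) < u i := by linarith
      exact_mod_cast h
    have huu : u i' = u i := by
      have h : (u i' : ℤ) = u i := by linarith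
      exact_mod_cast h
    -- `u i` divides the self-intersection
    have hdiv : -k = (u i : ℤ) * (2 * kk e u + ((r : ℤ) - 5) * u i) := by
      rw [hzero, hipk, ← e1] at hid
      have h : 4 * (-k) = 4 * ((u i : ℤ) * (2 * kk e u + ((r : ℤ) - 5) * u i)) := by
        linarith
      linarith
    have hku : (u i : ℤ) ≤ k := by
      have h1 : (u i : ℤ) ∣ k := by
        have : (u i : ℤ) ∣ -k := ⟨_, hdiv⟩
        exact (dvd_neg).1 this
      exact Int.le_of_dvd hk0 h1
    have hsum : (∑ j, (u j : ℤ) ^ 2) = (e : ℤ) ^ 2 + k := by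
      have h1 := hipk
      unfold ip at h1
      have h2 : ∑ j, (u j : ℤ) ^ 2 = ∑ j, (u j : ℤ) * u j :=
        Finset.sum_congr rfl fun j _ => sq _
      rw [h2]
      linarith [sq (e : ℤ)]
    rcases Nat.lt_or_ge (u i) 2 with hlt | hge
    · have hu1 : u i = 1 := by omega
      obtain ⟨j, hj, hj1⟩ : ∃ j, 4 ≤ u j ∧ u j = 1 := by
        rcases Pool.Agent.TH167.CL.neg_cl hP hG hGe hGo hneg hne with h | ⟨-, j0, -, h⟩
        · exact ⟨i, h i (by omega), hu1⟩
        · by_cases hij : i = j0
          · exact ⟨i', h i' (fun h0 => hii (hij.trans h0.symm)) (by omega), by omega⟩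
          · exact ⟨i, h i hij (by omega), hu1⟩
      omega
    · have h1 := SXu.sxu hP hG hGe hGo hge
      have h2 : (∑ j, (u j : ℤ) ^ 2) + 1 ≤ (e : ℤ) ^ 2 + u i := by exact_mod_cast h1
      linarith
  · push Not at hall
    obtain ⟨i, hi, hzi⟩ := hall
    have hic : i ≠ c := Finset.ne_of_mem_erase hi
    have gs : ∀ a b, u a ≠ u b → k ≤ ((u a : ℤ) - u b) ^ 2 := fun a b hab => by
      have := gap_swap hP hI hab
      rw [hipk] at this
      linarith
    have gr : ∀ a b, a ≠ c → b ≠ c → a ≠ b → f - u a - u b ≠ 0 → k ≤ (f - u a - u b) ^ 2 := by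
      intro a b hac hbc hab hd
      have hinj : Function.Injective ![c, a, b] := inj_cons hac.symm hbc.symm hab
      have h0 : dl ![c, a, b] e u = f - u a - u b := by
        unfold dl
        rw [hf]
        rfl
      have := gap_refl hP hI hinj (by rw [h0]; exact hd)
      rw [hipk, h0] at this
      linarith
    by_cases hB : ∃ j ∈ Finset.univ.erase c, z j = 0
    · obtain ⟨j, hj, hzj⟩ := hB
      have h1 : z i = 2 * ((u i : ℤ) - u j) := by
        have h2 := hz i
        have h3 := hz j
        rw [hzj] at h3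
        linarith
      have h2 : u i ≠ u j := by
        intro h0
        rw [h0, sub_self, mul_zero] at h1
        exact hzi h1
      have h3 := gs i j h2
      have h4 : z i ^ 2 ≤ ∑ i ∈ Finset.univ.erase c, z i ^ 2 :=
        Finset.single_le_sum (f := fun i => z i ^ 2) (fun i _ => sq_nonneg _) hi
      have h5 : z i ^ 2 = 4 * ((u i : ℤ) - u j) ^ 2 := by rw [h1]; ring
      linarith
    · push Not at hB
      have hpair : ∀ a ∈ Finset.univ.erase c, ∀ b ∈ Finset.univ.erase c, a ≠ b →
          2 * k ≤ z a ^ 2 + z b ^ 2 := by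
        intro a ha b hb hab
        have hac := Finset.ne_of_mem_erase ha
        have hbc := Finset.ne_of_mem_erase hb
        have hza := hB a ha
        have e1 := hz a
        have e2 := hz b
        by_cases hu : u a = u b
        · have h1 : f - u a - u b = - z a := by
            rw [e1, hu]
            ring
          have h2 := gr a b hac hbc hab (by rw [h1]; exact neg_ne_zero.2 hza)
          rw [h1, neg_sq] at h2
          have h3 : z b = z a := by rw [e1, e2, hu]
          rw [h3]
          linarith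
        · have h2 := gs a b hu
          by_cases hd : f - u a - u b = 0
          · have h3 : (u a : ℤ) - u b = z a := by
              rw [e1]
              linarith
            have h4 : z b = - z a := by
              rw [e1, e2]
              linarith
            rw [h3] at h2
            rw [h4, neg_sq]
            linarith
          · have h3 := gr a b hac hbc hab hd
            have h4 : z a ^ 2 + z b ^ 2 = 2 * (((u a : ℤ) - u b) ^ 2 + (f - u a - u b) ^ 2) := by
              rw [e1, e2]
              ring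
            rw [h4]
            linarith
      by_cases hbig : ∀ a ∈ Finset.univ.erase c, k ≤ z a ^ 2
      · have h1 := Finset.sum_le_sum hbig
        rw [Finset.sum_const, hcardT, nsmul_eq_mul] at h1
        push_cast at h1
        have h2 : (0 : ℤ) ≤ (r : ℤ) * k := mul_nonneg (Int.natCast_nonneg r) hk0.le
        have h3 : (1 : ℤ) ≤ r := by exact_mod_cast hr
        nlinarith
      · push Not at hbig
        obtain ⟨a, ha, hak⟩ := hbig
        have h1 : ∑ i ∈ Finset.univ.erase c, z i ^ 2 =
            z a ^ 2 + ∑ i ∈ (Finset.univ.erase c).erase a, z i ^ 2 :=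
          (Finset.add_sum_erase _ (fun i => z i ^ 2) ha).symm
        have h2 : ∀ i ∈ (Finset.univ.erase c).erase a, 2 * k - z a ^ 2 ≤ z i ^ 2 := fun i hi => by
          have h3 := hpair a ha i (Finset.mem_of_mem_erase hi) (Finset.ne_of_mem_erase hi).symm
          linarith
        have h3 := Finset.sum_le_sum h2
        rw [Finset.sum_const, Finset.card_erase_of_mem ha, hcardT, nsmul_eq_mul] at h3
        have h4 : ((r + 3 - 1 : ℕ) : ℤ) = (r : ℤ) + 2 := by
          rw [show r + 3 - 1 = r + 2 by omega]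
          push_cast
          ring
        rw [h4] at h3
        rw [h1]
        have h5 : (0 : ℤ) ≤ (r : ℤ) := Int.natCast_nonneg r
        have h6 : (0 : ℤ) ≤ ((r : ℤ) + 1) * (k - z a ^ 2) := mul_nonneg (by linarith) (by linarith)
        have h7 : (1 : ℤ) ≤ r := by exact_mod_cast hr
        nlinarith

end Pool.Agent.Run7.h330.CBun
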