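import Pool.Agent.Run7.h330.Planar

/-!
Counting parallel chords of two planar sets in general position.
-/

set_option autoImplicit false
open Classical

namespace Run7.h330

variable {ι : Type*}

/-- ordered pairs of `A` parallel to `d` -/
noncomputable def nn (A : Finset ι) (α : ι → ℝ × ℝ) (d : ℝ × ℝ) : Finset (ι × ι) :=
  (A ×ˢ A).filter (fun p => Par α d p.1 p.2)

/-- quadruples: a chord of `A` and a chord of `B`, parallel, all ordered -/
noncomputable def Qd (A B : Finset ι) (α β : ι → ℝ × ℝ) : Finset ((ι × ι) × (ι × ι)) :=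
  (A.offDiag ×ˢ B.offDiag).filter
    (fun x => cr (α x.1.1 - α x.1.2) (β x.2.1 - β x.2.2) = 0)

theorem card_Qd (A B : Finset ι) (α β : ι → ℝ × ℝ) :
    (Qd A B α β).card = ∑ y ∈ B.offDiag, (nn A α (β y.1 - β y.2)).card := by
  rw [Finset.card_eq_sum_card_fiberwise (f := Prod.snd) (t := B.offDiag)]
  · refine Finset.sum_congr rfl ?_
    intro y hy
    refine Finset.card_bij' (fun x _ => x.1) (fun x _ => (x, y)) ?_ ?_ ?_ ?_
    · intro x hx
      simp only [Qd, nn, Finset.mem_filter, Finset.mem_product, Finset.mem_offDiag, Par] at hx ⊢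
      obtain ⟨⟨⟨h1, _⟩, h3⟩, rfl⟩ := hx
      exact ⟨⟨h1.1, h1.2.1⟩, h1.2.2, h3⟩
    · intro x hx
      simp only [Qd, nn, Finset.mem_filter, Finset.mem_product, Finset.mem_offDiag, Par] at hx hy ⊢
      exact ⟨⟨⟨⟨hx.1.1, hx.1.2, hx.2.1⟩, hy⟩, hx.2.2⟩, trivial⟩
    · intro x hx
      simp only [Finset.mem_filter] at hx
      exact Prod.ext rfl hx.2.symm
    · intro x _
      rfl
  · intro x hx
    simp only [Qd, Finset.coe_filter, Finset.mem_product, Set.mem_ofPred_eq] at hx
    exact hx.1.2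

theorem diff_ne_zero {B : Finset ι} {β : ι → ℝ × ℝ} (hB : GP B β) {y : ι × ι}
    (hy : y ∈ B.offDiag) : β y.1 - β y.2 ≠ 0 := by
  simp only [Finset.mem_offDiag] at hy
  exact sub_ne_zero.mpr (hB.1 _ hy.1 _ hy.2.1 hy.2.2)

theorem nn_le_even {A : Finset ι} {α : ι → ℝ × ℝ} (hA : GP A α) {d : ℝ × ℝ} (hd : d ≠ 0) :
    (nn A α d).card ≤ 2 * (A.card / 2) :=
  pairs_le_even A (Par α d) (fun _ _ => Par_symm) (fun _ h => h.1 rfl)
    (fun _ hx _ hy _ hz h1 h2 => Par_unique hA hd hx hy hz h1 h2)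

theorem nn_even {A : Finset ι} {α : ι → ℝ × ℝ} {d : ℝ × ℝ} :
    Even (nn A α d).card :=
  even_pairs A (Par α d) (fun _ _ => Par_symm) (fun _ h => h.1 rfl)

theorem card_Qd_le {A B : Finset ι} {α β : ι → ℝ × ℝ} (hA : GP A α) (hB : GP B β) :
    (Qd A B α β).card ≤ (2 * (A.card / 2)) * B.offDiag.card := by
  rw [card_Qd, mul_comm]
  refine le_trans (Finset.sum_le_card_nsmul _ _ (2 * (A.card / 2)) ?_) ?_
  · intro y hy
    exact nn_le_even hA (diff_ne_zero hB hy)
  · simp

/-- the perfect chords of `B` -/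
noncomputable def Perf (A B : Finset ι) (α β : ι → ℝ × ℝ) : Finset (ι × ι) :=
  B.offDiag.filter (fun y => A.card ≤ (nn A α (β y.1 - β y.2)).card)

theorem card_Perf_le {A B : Finset ι} {α β : ι → ℝ × ℝ} (hA : GP A α) (hB : GP B β)
    (hc : 3 ≤ A.card) : 2 * (Perf A B α β).card ≤ A.card * (2 * (B.card / 2)) := by
  -- incidences between start vertices and perfect chords
  let R : ι → ι × ι → Prop := fun u y => ∃ v, HE A α u v ∧ Par α (β y.1 - β y.2) u v
  have h1 : 2 * (Perf A B α β).card ≤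
      ∑ y ∈ Perf A B α β, (A.filter (fun u => R u y)).card := by
    rw [mul_comm, ← smul_eq_mul]
    refine Finset.card_nsmul_le_sum _ _ _ ?_
    intro y hy
    simp only [Perf, Finset.mem_filter] at hy
    have hd := diff_ne_zero hB hy.1
    have hp : ∀ u ∈ A, ∃ v ∈ A, Par α (β y.1 - β y.2) u v :=
      partner_of_card A (Par α (β y.1 - β y.2))
        (fun _ hx _ hy _ hz h1 h2 => Par_unique hA hd hx hy hz h1 h2) hy.2
    obtain ⟨u₁, hu₁, u₂, hu₂, hne, h1, h2⟩ := two_edges hA hd hc hp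
    have : ({u₁, u₂} : Finset ι) ⊆ A.filter (fun u => R u y) := by
      intro u hu
      simp only [Finset.mem_insert, Finset.mem_singleton] at hu
      rcases hu with rfl | rfl
      · exact Finset.mem_filter.mpr ⟨hu₁, h1⟩
      · exact Finset.mem_filter.mpr ⟨hu₂, h2⟩
    have h3 := Finset.card_le_card this
    rwa [Finset.card_pair hne] at h3
  have h2 : ∑ y ∈ Perf A B α β, (A.filter (fun u => R u y)).card =
      ∑ u ∈ A, ((Perf A B α β).filter (fun y => R u y)).card := by
    simp only [Finset.card_filter]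
    exact Finset.sum_comm
  rw [h2] at h1
  refine le_trans h1 ?_
  rw [← smul_eq_mul]
  refine Finset.sum_le_card_nsmul _ _ _ ?_
  intro u hu
  by_cases hv : ∃ v, HE A α u v
  · obtain ⟨v, hv⟩ := hv
    have hsub : (Perf A B α β).filter (fun y => R u y) ⊆
        nn B β (α u - α v) := by
      intro y hy
      simp only [Finset.mem_filter, Perf, Finset.mem_offDiag, nn, Finset.mem_product] at hy ⊢
      obtain ⟨⟨⟨hy1, hy2, hy3⟩, _⟩, v', hv', hpar⟩ := hy
      have : v = v' := HE_unique hv hv'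
      subst this
      refine ⟨⟨hy1, hy2⟩, hy3, ?_⟩
      rw [cr_comm, hpar.2, neg_zero]
    refine le_trans (Finset.card_le_card hsub) (nn_le_even hB ?_)
    exact sub_ne_zero.mpr (hA.1 u hu v hv.2.1 hv.1)
  · have : (Perf A B α β).filter (fun y => R u y) = ∅ := by
      refine Finset.filter_eq_empty_iff.mpr ?_
      rintro y _ ⟨v, hv', _⟩
      exact hv ⟨v, hv'⟩
    rw [this]
    simp

theorem card_Qd_le_refined {A B : Finset ι} {α β : ι → ℝ × ℝ} (hA : GP A α) (hB : GP B β)
    (hc : 3 ≤ A.card) (hev : Even A.card) :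
    (Qd A B α β).card ≤ (A.card - 2) * B.offDiag.card + A.card * (2 * (B.card / 2)) := by
  have h0 : (Qd A B α β).card ≤ (A.card - 2) * B.offDiag.card + 2 * (Perf A B α β).card := by
    rw [card_Qd]
    have : ∀ y ∈ B.offDiag, (nn A α (β y.1 - β y.2)).card ≤
        (A.card - 2) + 2 * (if A.card ≤ (nn A α (β y.1 - β y.2)).card then 1 else 0) := by
      intro y hy
      have h1 := nn_le_even hA (diff_ne_zero hB hy)
      have h2 := nn_even (A := A) (α := α) (d := β y.1 - β y.2)
      split_ifs with h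
      · omega
      · obtain ⟨m, hm⟩ := h2
        obtain ⟨l, hl⟩ := hev
        omega
    refine le_trans (Finset.sum_le_sum this) ?_
    rw [Finset.sum_add_distrib, ← Finset.mul_sum]
    simp only [Finset.sum_const, smul_eq_mul]
    rw [Perf, Finset.card_filter, mul_comm]
  have h1 := card_Perf_le (A := A) (B := B) hA hB hc
  omega

end Run7.h330
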