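import Pool.Agent.Run7.h330.E8Mom

set_option autoImplicit false

namespace Pool.Agent.Run7.h330.E8S

open Pool.Agent.Q10.E8

theorem diff_pow (e j : ℕ) (hj : j ≤ e) :
    ∑ i ∈ Finset.range (e + 1), ((-1 : ℚ) ^ (e - i) * (e.choose i : ℚ)) * (i : ℚ) ^ j
      = if j = e then (e.factorial : ℚ) else 0 := by
  have h := fwdDiff_iter_eq_sum_shift (M := ℚ) (G := ℚ) (1 : ℚ) (fun r : ℚ => r ^ j) e 0
  have h2 : ∑ i ∈ Finset.range (e + 1), ((-1 : ℚ) ^ (e - i) * (e.choose i : ℚ)) * (i : ℚ) ^ j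
      = (fwdDiff (1 : ℚ))^[e] (fun r : ℚ => r ^ j) 0 := by
    rw [h]
    refine Finset.sum_congr rfl fun i _ => ?_
    rw [zsmul_eq_mul]
    push_cast
    simp
  rw [h2]
  split_ifs with hje
  · subst hje
    rw [fwdDiff_iter_eq_factorial]
    simp
  · rw [fwdDiff_iter_pow_eq_zero_of_lt (by omega)]
    simp

theorem diff_poly (e : ℕ) (a : ℕ → ℚ) :
    ∑ i ∈ Finset.range (e + 1), ((-1 : ℚ) ^ (e - i) * (e.choose i : ℚ)) *
      (∑ j ∈ Finset.range (e + 1), a j * (i : ℚ) ^ j) = a e * (e.factorial : ℚ) := by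
  simp only [Finset.mul_sum]
  rw [Finset.sum_comm]
  have : ∀ j ∈ Finset.range (e + 1), ∑ i ∈ Finset.range (e + 1),
      ((-1 : ℚ) ^ (e - i) * (e.choose i : ℚ)) * (a j * (i : ℚ) ^ j)
      = a j * (if j = e then (e.factorial : ℚ) else 0) := by
    intro j hj
    rw [Finset.mem_range] at hj
    rw [← diff_pow e j (by omega), Finset.mul_sum]
    exact Finset.sum_congr rfl fun i _ => by ring
  rw [Finset.sum_congr rfl this]
  simp

/-- A sum over `range (2e+1)` whose odd terms vanish. -/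
theorem sum_even (e : ℕ) (f : ℕ → ℚ) (hf : ∀ k, Odd k → k ≤ 2 * e → f k = 0) :
    ∑ k ∈ Finset.range (2 * e + 1), f k = ∑ j ∈ Finset.range (e + 1), f (2 * j) := by
  induction e with
  | zero => simp
  | succ e ih =>
    rw [show 2 * (e + 1) + 1 = (2 * e + 1) + 1 + 1 by ring, Finset.sum_range_succ,
      Finset.sum_range_succ, ih (fun k hk hk2 => hf k hk (by omega)),
      Finset.sum_range_succ _ (e + 1), hf (2 * e + 1) ⟨e, rfl⟩ (by omega)]
    rw [show 2 * e + 1 + 1 = 2 * (e + 1) by ring]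
    ring

theorem eval_desc (n : ℕ) (u : ℤ) :
    (descPochhammer ℤ n).eval u = (n.factorial : ℤ) * Ring.choose u n := by
  have h := Ring.descPochhammer_eq_factorial_smul_choose (R := ℤ) u n
  rw [nsmul_eq_mul] at h
  rw [← h, Polynomial.eval_eq_smeval]

theorem factorial_dvd {t m e : ℕ} (he : 2 * e ≤ t) {Y : Finset (Fin 8 → ℤ)}
    {w : (Fin 8 → ℤ) → ℤ} (h : Cubature t m Y (fun v => (w v : ℝ))) (hY : ∀ v ∈ Y, IsE8 v) :
    ((e + 3).factorial : ℤ) ∣ 6 * (m : ℤ) ^ e * ∑ v ∈ Y, w v := by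
  choose r hr hrs using exists_vec
  set p : Polynomial ℤ := descPochhammer ℤ (2 * e) with hp
  set Z : ℕ → ℤ := fun s => ∑ v ∈ Y, w v * Ring.choose (pr v (r s)) (2 * e) with hZ
  set W : ℤ := ∑ v ∈ Y, w v with hW
  have hdeg : p.natDegree = 2 * e := descPochhammer_natDegree ℤ (2 * e)
  have hmon : p.coeff (2 * e) = 1 := by
    have h1 := monic_descPochhammer ℤ (2 * e)
    rw [← hp] at h1
    have h2 := h1.coeff_natDegree
    rwa [hdeg] at h2
  have key : ∀ s : ℕ, ((2 * e).factorial : ℚ) * (Z s : ℚ)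
      = ∑ j ∈ Finset.range (e + 1), ((p.coeff (2 * j) : ℚ) * (6 * ((2 * j).factorial : ℚ) *
        (m : ℚ) ^ j * (W : ℚ) / ((j.factorial : ℚ) * ((j + 3).factorial : ℚ)))) * (s : ℚ) ^ j := by
    intro s
    have e1 : ((2 * e).factorial : ℤ) * Z s
        = ∑ k ∈ Finset.range (2 * e + 1), p.coeff k * ∑ v ∈ Y, w v * (pr v (r s)) ^ k := by
      rw [hZ]
      simp only [Finset.mul_sum]
      rw [Finset.sum_comm]
      refine Finset.sum_congr rfl fun v _ => ?_
      have e2 := eval_desc (2 * e) (pr v (r s))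
      rw [← hp, Polynomial.eval_eq_sum_range, hdeg] at e2
      calc ((2 * e).factorial : ℤ) * (w v * Ring.choose (pr v (r s)) (2 * e))
          = w v * (((2 * e).factorial : ℤ) * Ring.choose (pr v (r s)) (2 * e)) := by ring
        _ = _ := by
          rw [← e2, Finset.mul_sum]
          exact Finset.sum_congr rfl fun k _ => by ring
    have e3 : ((2 * e).factorial : ℚ) * (Z s : ℚ)
        = ∑ k ∈ Finset.range (2 * e + 1),
          ((p.coeff k * ∑ v ∈ Y, w v * (pr v (r s)) ^ k : ℤ) : ℚ) := by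
      exact_mod_cast e1
    rw [e3, sum_even]
    · refine Finset.sum_congr rfl fun j hj => ?_
      rw [Finset.mem_range] at hj
      have e4 := mom_even_int h hY (r s) (hr s) s (hrs s) j (by omega)
      have e5 : ((j.factorial : ℚ) * ((j + 3).factorial : ℚ)) *
          ((∑ v ∈ Y, w v * (pr v (r s)) ^ (2 * j) : ℤ) : ℚ)
          = 6 * ((2 * j).factorial : ℚ) * ((m : ℚ) * s) ^ j * (W : ℚ) := by
        exact_mod_cast e4
      have hpos : (0 : ℚ) < (j.factorial : ℚ) * ((j + 3).factorial : ℚ) := by positivity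
      rw [Int.cast_mul]
      have e6 : ((∑ v ∈ Y, w v * (pr v (r s)) ^ (2 * j) : ℤ) : ℚ)
          = 6 * ((2 * j).factorial : ℚ) * ((m : ℚ) * s) ^ j * (W : ℚ) /
            ((j.factorial : ℚ) * ((j + 3).factorial : ℚ)) := by
        rw [eq_div_iff hpos.ne', ← e5]
        ring
      rw [e6, mul_pow]
      ring
    · intro k hk hk2
      rw [mom_odd_int h hY (r s) (hr s) k hk (by omega)]
      simp
  have hdiff := diff_poly e (fun j => (p.coeff (2 * j) : ℚ) * (6 * ((2 * j).factorial : ℚ) *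
        (m : ℚ) ^ j * (W : ℚ) / ((j.factorial : ℚ) * ((j + 3).factorial : ℚ))))
  have hsum : ((2 * e).factorial : ℚ) *
      ((∑ i ∈ Finset.range (e + 1), ((-1 : ℤ) ^ (e - i) * (e.choose i : ℤ)) * Z i : ℤ) : ℚ)
      = (p.coeff (2 * e) : ℚ) * (6 * ((2 * e).factorial : ℚ) *
        (m : ℚ) ^ e * (W : ℚ) / ((e.factorial : ℚ) * ((e + 3).factorial : ℚ))) *
        (e.factorial : ℚ) := by
    rw [← hdiff]
    push_cast
    rw [Finset.mul_sum]
    refine Finset.sum_congr rfl fun i _ => ?_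
    rw [← key i]
    ring
  rw [hmon] at hsum
  set D : ℤ := ∑ i ∈ Finset.range (e + 1), ((-1 : ℤ) ^ (e - i) * (e.choose i : ℤ)) * Z i with hD
  have hfin : ((e + 3).factorial : ℚ) * (D : ℚ) = 6 * (m : ℚ) ^ e * (W : ℚ) := by
    have p1 : (0 : ℚ) < ((2 * e).factorial : ℚ) := by positivity
    have p2 : (0 : ℚ) < (e.factorial : ℚ) := by positivity
    have p3 : (0 : ℚ) < ((e + 3).factorial : ℚ) := by positivity
    apply mul_left_cancel₀ p1.ne'
    calc ((2 * e).factorial : ℚ) * (((e + 3).factorial : ℚ) * (D : ℚ))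
        = ((e + 3).factorial : ℚ) * (((2 * e).factorial : ℚ) * (D : ℚ)) := by ring
      _ = _ := by
        rw [hsum]
        field_simp
        push_cast
        ring
  refine ⟨D, ?_⟩
  have : ((6 * (m : ℤ) ^ e * W : ℤ) : ℚ) = ((((e + 3).factorial : ℤ) * D : ℤ) : ℚ) := by
    push_cast
    rw [hfin]
  exact_mod_cast this

end Pool.Agent.Run7.h330.E8S
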