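import Pool.Agent.Run7.h330.E8Grow

set_option autoImplicit false

namespace Pool.Agent.Run7.h330.E8S

open Pool.Agent.Q10.E8

/-- An explicit linear lower bound for the logarithm of the product of the primes up to `n`. -/
theorem theta_explicit (n : ℕ) : (1 / 4 : ℝ) * n - 72 ≤ Chebyshev.theta n := by
  have h := Chebyshev.theta_ge n
  have hl2 : (0.6931471803 : ℝ) < Real.log 2 := Real.log_two_gt_d9
  have hn : (0 : ℝ) ≤ n := Nat.cast_nonneg n
  set s : ℝ := Real.sqrt n with hs
  have hs2 : s * s = n := Real.mul_self_sqrt hn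
  have hs0 : 0 ≤ s := Real.sqrt_nonneg _
  rcases Nat.eq_zero_or_pos n with h0 | h0
  · subst h0
    simp
  have hs1 : 0 < s := by
    rw [hs]
    apply Real.sqrt_pos.mpr
    exact_mod_cast h0
  have hn1 : (1 : ℝ) ≤ n := by exact_mod_cast h0
  have hlog17 : Real.log 17 ≤ 2.84 := by
    have h1 : (17 : ℝ) ^ 25 ≤ 2 ^ 102 * 1.2 := by norm_num
    have h2 := Real.log_le_log (by norm_num) h1
    rw [Real.log_mul (by norm_num) (by norm_num), Real.log_pow, Real.log_pow] at h2
    have h3 : Real.log (1.2 : ℝ) ≤ 1.2 - 1 := Real.log_le_sub_one_of_pos (by norm_num)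
    have h4 := Real.log_two_lt_d9
    push_cast at h2
    linarith
  have hlogs : Real.log s ≤ s / 17 + 1.84 := by
    have h1 : Real.log (s / 17) ≤ s / 17 - 1 := Real.log_le_sub_one_of_pos (by positivity)
    rw [Real.log_div hs1.ne' (by norm_num)] at h1
    linarith
  have hlogn : Real.log n = 2 * Real.log s := by
    rw [← hs2, Real.log_mul hs1.ne' hs1.ne']
    ring
  have hlog1 : Real.log ((n : ℝ) + 1) ≤ 2 * Real.log s + 0.7 := by
    have h1 : (n : ℝ) + 1 ≤ 2 * (s * s) := by rw [hs2]; linarith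
    have h2 := Real.log_le_log (by positivity) h1
    rw [Real.log_mul (by norm_num) (by positivity), Real.log_mul hs1.ne' hs1.ne'] at h2
    have h3 := Real.log_two_lt_d9
    linarith
  rw [hlogn] at h
  have h1 : 2 * s * (2 * Real.log s) ≤ 2 * s * (2 * (s / 17 + 1.84)) := by
    apply mul_le_mul_of_nonneg_left _ (by positivity)
    linarith
  have h2 : (n : ℝ) * 0.6931471803 ≤ n * Real.log 2 :=
    mul_le_mul_of_nonneg_left hl2.le hn
  rw [← hs2] at h2 h hlog1 ⊢
  nlinarith [sq_nonneg (s - 18)]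

theorem strength_explicit (t m : ℕ) (Y : Finset (Fin 8 → ℤ)) (hm : 0 < m)
    (hY : ∀ v ∈ Y, InShell m v) (h : IsDesign t m Y) : (t : ℝ) ≤ 20 * Real.log m + 373 := by
  have h1 := design_prod hY h
  have hcard : 0 < Y.card := Finset.card_pos.mpr h.1
  have h2 : bigPrimes (t - 1) ≤ m * (4100625 * m ^ 4) :=
    (Nat.le_of_dvd (Nat.mul_pos hm hcard) h1).trans (Nat.mul_le_mul_left m (card_le hm hY))
  have h3 : primorial (t - 1) ≤ 210 * (m * (4100625 * m ^ 4)) :=
    (primorial_le _).trans (Nat.mul_le_mul_left 210 h2)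
  have h4 : Chebyshev.theta ((t - 1 : ℕ) : ℝ) ≤ 20.8 + 5 * Real.log m := by
    rw [Chebyshev.theta_eq_log_primorial, Nat.floor_natCast]
    have hm' : (0 : ℝ) < m := by exact_mod_cast hm
    have h5 : Real.log (primorial (t - 1) : ℝ) ≤ Real.log (210 * 4100625 * (m : ℝ) ^ 5) := by
      apply Real.log_le_log
      · exact_mod_cast primorial_pos _
      · have : ((primorial (t - 1) : ℕ) : ℝ) ≤ ((210 * (m * (4100625 * m ^ 4)) : ℕ) : ℝ) := by
          exact_mod_cast h3
        push_cast at this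
        linarith
    rw [Real.log_mul (by norm_num) (by positivity), Real.log_pow] at h5
    have h6 : Real.log (210 * 4100625) ≤ 20.8 := by
      have h9 : (210 * 4100625 : ℝ) ≤ 2 ^ 30 := by norm_num
      have h10 := Real.log_le_log (by norm_num) h9
      rw [Real.log_pow] at h10
      have := Real.log_two_lt_d9
      push_cast at h10
      generalize Real.log (210 * 4100625) = L at h10 ⊢
      linarith
    push_cast at h5
    generalize Real.log (210 * 4100625) = L at h5 h6
    linarith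
  have h5 := theta_explicit (t - 1)
  have h6 : (t : ℝ) - 1 ≤ ((t - 1 : ℕ) : ℝ) := by
    rcases Nat.eq_zero_or_pos t with h0 | h0
    · subst h0
      simp
    · rw [Nat.cast_sub h0]
      simp
  generalize Chebyshev.theta ((t - 1 : ℕ) : ℝ) = T at h4 h5
  linarith

theorem main :
    (∀ (t m : ℕ) (Y : Finset (Fin 8 → ℤ)) (w : (Fin 8 → ℤ) → ℤ), (∀ v ∈ Y, InShell m v) →
      Cubature t m Y (fun v => (w v : ℝ)) →
        ((t / 2 + 3).factorial : ℤ) ∣ 6 * (m : ℤ) ^ (t / 2) * ∑ v ∈ Y, w v ∧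
        (∀ l : ℕ, l.Prime → 11 ≤ l → l < t → (l : ℤ) ∣ (m : ℤ) * ∑ v ∈ Y, w v) ∧
        (∀ l : ℕ, l.Prime → 11 ≤ l → t < l ^ 2 → ¬ l ^ 2 ∣ m →
          (l : ℤ) ^ (t / (2 * l)) ∣ ∑ v ∈ Y, w v)) ∧
    (∀ (t m : ℕ) (Y : Finset (Fin 8 → ℤ)), 0 < m → (∀ v ∈ Y, InShell m v) → IsDesign t m Y →
      (t : ℝ) ≤ 20 * Real.log m + 373 ∧
      (Nat.Coprime m (t / 2 + 3).factorial → (t / 2 + 3).factorial ∣ 6 * Y.card)) ∧
    (∃ C : ℝ, ∀ (t m : ℕ) (Y : Finset (Fin 8 → ℤ)), 0 < m → (∀ v ∈ Y, InShell m v) →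
      IsDesign t m Y → (t : ℝ) ≤ 8 * Real.log m + C) ∧
    (∃ C : ℝ, ∀ (t m : ℕ) (Y : Finset (Fin 8 → ℤ)), Squarefree m → (∀ v ∈ Y, InShell m v) →
      IsDesign t m Y → (t : ℝ) * Real.log t ≤ C * (Real.log m + 1)) ∧
    (∀ t m : ℕ, 0 < m → 20 * Real.log m + 373 < t → ¬ IsDesign t m (shell m)) := by
  refine ⟨?_, ?_, strength, squarefree_strength, ?_⟩
  · intro t m Y w hY h
    have hY' : ∀ v ∈ Y, IsE8 v := fun v hv => (hY v hv).1
    refine ⟨factorial_dvd (by omega) h hY', ?_, ?_⟩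
    · intro l hl h11 hlt
      exact prime_dvd hl h11 hlt h hY'
    · intro l hl h11 hlt hlm
      have h1 : t / (2 * l) * (2 * l) ≤ t := Nat.div_mul_le_self _ _
      have h2 : t / (2 * l) * (2 * l) = 2 * (t / (2 * l) * l) := by ring
      apply pow_case hl h11 _ (by omega) _ h hY'
      · by_contra hc
        push Not at hc
        have h3 : l * l ≤ 2 * (t / (2 * l)) * l := Nat.mul_le_mul_right l hc
        have h4 : 2 * (t / (2 * l)) * l = 2 * (t / (2 * l) * l) := by ring
        have h5 : l ^ 2 = l * l := by ring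
        omega
      · intro hc
        exact hlm (by rw [sq]; exact hc)
  · intro t m Y hm hY h
    exact ⟨strength_explicit t m Y hm hY h, fun hc => design_fac_coprime hY h hc⟩
  · intro t m hm ht h
    have := strength_explicit t m (shell m) hm (fun v hv => (mem_shell m v).mp hv) h
    linarith

end Pool.Agent.Run7.h330.E8S
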