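import Pool.Agent.Run7.h330.E8Sqf

set_option autoImplicit false

namespace Pool.Agent.Run7.h330.E8S

open Pool.Agent.Q10.E8

theorem div_cast_ge (e j : ℕ) (hj : 0 < j) : (e : ℝ) * (j : ℝ)⁻¹ - 1 ≤ ((e / j : ℕ) : ℝ) := by
  have h1 : e < (e / j + 1) * j := by
    have := Nat.lt_div_mul_add (a := e) hj
    rw [add_mul]
    omega
  have h2 : (e : ℝ) < (((e / j : ℕ) : ℝ) + 1) * j := by exact_mod_cast h1
  have h3 : (0 : ℝ) < j := by exact_mod_cast hj
  rw [← div_eq_mul_inv]
  have h4 : (e : ℝ) / j ≤ ((e / j : ℕ) : ℝ) + 1 := by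
    rw [div_le_iff₀ h3]
    exact h2.le
  linarith

theorem sum_inv (J : ℕ) : Real.log ((J : ℝ) + 1) ≤ ∑ j ∈ Finset.Icc 1 J, ((j : ℝ))⁻¹ := by
  have h := log_add_one_le_harmonic J
  rw [harmonic_eq_sum_Icc] at h
  push_cast at h
  exact h

/-- Lower bound for the product over the middle primes. -/
theorem grow : ∃ C : ℝ, 0 ≤ C ∧ ∀ t : ℕ, 200 ≤ t →
    5 / 16 * ((t / 2 : ℕ) : ℝ) * Real.log ((t / 2 : ℕ) : ℝ) - C * ((t / 2 : ℕ) : ℝ)
      ≤ ∑ p ∈ midP (Nat.sqrt t + 1) (t / 2), ((t / 2 / p : ℕ) : ℝ) * Real.log p := by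
  obtain ⟨C, hC⟩ := theta_lin
  have hC0 : 0 ≤ C := by
    have := hC 0
    simp at this
    exact this
  refine ⟨C + 10, by linarith, fun t ht => ?_⟩
  set e : ℕ := t / 2 with he
  have he100 : 100 ≤ e := by omega
  set z : ℕ := Nat.sqrt t + 1 with hz
  set J : ℕ := Nat.sqrt e with hJ
  refine le_trans ?_ (log_sum_lower z e J)
  have heR : (100 : ℝ) ≤ (e : ℝ) := by exact_mod_cast he100
  set s : ℝ := Real.sqrt e with hs
  have hs2 : s * s = e := Real.mul_self_sqrt (by linarith)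
  have hs0 : 0 ≤ s := Real.sqrt_nonneg _
  have hs10 : 10 ≤ s := by nlinarith
  have hJ1 : (J : ℝ) ≤ s := by
    have h1 : J * J ≤ e := Nat.sqrt_le _
    have h2 : (J : ℝ) * J ≤ s * s := by
      rw [hs2]
      exact_mod_cast h1
    nlinarith [Nat.cast_nonneg (α := ℝ) J]
  have hJ2 : s ≤ (J : ℝ) + 1 := by
    have h1 : e < (J + 1) * (J + 1) := Nat.lt_succ_sqrt _
    have h2 : s * s ≤ ((J : ℝ) + 1) * ((J : ℝ) + 1) := by
      rw [hs2]
      exact_mod_cast h1.le
    nlinarith [Nat.cast_nonneg (α := ℝ) J]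
  have hz1 : (z : ℝ) ≤ 3 * s := by
    have h1 : Nat.sqrt t * Nat.sqrt t ≤ t := Nat.sqrt_le _
    have h2 : t ≤ 2 * e + 1 := by omega
    have h3 : (Nat.sqrt t : ℝ) * (Nat.sqrt t : ℝ) ≤ 2 * (s * s) + 1 := by
      rw [hs2]
      exact_mod_cast h1.trans h2
    have h4 : (Nat.sqrt t : ℝ) ≤ 2 * s := by
      nlinarith [Nat.cast_nonneg (α := ℝ) (Nat.sqrt t)]
    rw [hz]
    push_cast
    linarith
  have hθz : Chebyshev.theta z ≤ 3 / 2 * z := by
    have h1 := Chebyshev.theta_le_log4_mul_x (x := (z : ℝ)) (Nat.cast_nonneg z)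
    have h2 : Real.log 4 ≤ 3 / 2 := by
      rw [show (4 : ℝ) = 2 ^ 2 by norm_num, Real.log_pow]
      have := Real.log_two_lt_d9
      push_cast
      linarith
    exact h1.trans (mul_le_mul_of_nonneg_right h2 (Nat.cast_nonneg z))
  have hterm : ∀ j ∈ Finset.Icc 1 J, 5 / 8 * (e : ℝ) * (j : ℝ)⁻¹ - (5 / 8 + C + 9 / 2 * s)
      ≤ Chebyshev.theta ((e / j : ℕ) : ℝ) - Chebyshev.theta z := by
    intro j hj
    rw [Finset.mem_Icc] at hj
    have h1 := hC (e / j)
    have h2 := div_cast_ge e j (by omega)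
    linarith
  refine le_trans ?_ (Finset.sum_le_sum hterm)
  rw [Finset.sum_sub_distrib, ← Finset.mul_sum, Finset.sum_const, Nat.card_Icc,
    Nat.add_sub_cancel, nsmul_eq_mul]
  have h1 := sum_inv J
  have h2 : Real.log e / 2 ≤ Real.log ((J : ℝ) + 1) := by
    have h3 : Real.log e = 2 * Real.log s := by
      rw [← hs2, Real.log_mul (by linarith) (by linarith)]
      ring
    rw [h3]
    have := Real.log_le_log (by linarith : 0 < s) hJ2
    linarith
  have h3 : Real.log e / 2 ≤ ∑ j ∈ Finset.Icc 1 J, ((j : ℝ))⁻¹ := h2.trans h1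
  have h4 : 5 / 8 * (e : ℝ) * (Real.log e / 2)
      ≤ 5 / 8 * (e : ℝ) * ∑ j ∈ Finset.Icc 1 J, ((j : ℝ))⁻¹ :=
    mul_le_mul_of_nonneg_left h3 (by positivity)
  have h5 : (J : ℝ) * (5 / 8 + C + 9 / 2 * s) ≤ s * (5 / 8 + C + 9 / 2 * s) :=
    mul_le_mul_of_nonneg_right hJ1 (by positivity)
  have h6 : s * (5 / 8 + C) ≤ (e : ℝ) * (5 / 8 + C) := by
    apply mul_le_mul_of_nonneg_right _ (by positivity)
    nlinarith
  have h7 : s * (5 / 8 + C + 9 / 2 * s) = s * (5 / 8 + C) + 9 / 2 * e := by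
    rw [← hs2]
    ring
  nlinarith

theorem squarefree_strength : ∃ C : ℝ, ∀ (t m : ℕ) (Y : Finset (Fin 8 → ℤ)), Squarefree m →
    (∀ v ∈ Y, InShell m v) → IsDesign t m Y →
    (t : ℝ) * Real.log t ≤ C * (Real.log m + 1) := by
  obtain ⟨C1, hC1⟩ := strength
  obtain ⟨C2, hC20, hC2⟩ := grow
  set D : ℝ := 16 / 5 * (4 + 16 + C2 * (4 + |C1|)) with hD
  have hD0 : 0 ≤ D := by positivity
  refine ⟨40000 + 6 * D, fun t m Y hm hY h => ?_⟩
  have hm0 : 0 < m := Nat.pos_of_ne_zero hm.ne_zero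
  have hL : 0 ≤ Real.log m := Real.log_natCast_nonneg m
  rcases lt_or_ge t 200 with ht | ht
  · have h1 : (t : ℝ) ≤ 200 := by exact_mod_cast ht.le
    have h0 : (0 : ℝ) ≤ t := Nat.cast_nonneg t
    have h2 : Real.log t ≤ 200 := by
      rcases Nat.eq_zero_or_pos t with h0' | h0'
      · subst h0'
        simp
      · have : (0 : ℝ) < t := by exact_mod_cast h0'
        have := Real.log_le_sub_one_of_pos this
        linarith
    have h3 : (t : ℝ) * Real.log t ≤ 200 * 200 :=
      mul_le_mul h1 h2 (Real.log_natCast_nonneg t) (by norm_num)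
    nlinarith
  · set e : ℕ := t / 2 with he
    have he100 : 100 ≤ e := by omega
    have heR : (100 : ℝ) ≤ (e : ℝ) := by exact_mod_cast he100
    have h1 := hC1 t m Y hm0 hY h
    have h2 := hC2 t ht
    rw [← he] at h2
    have hz : 10 ≤ Nat.sqrt t + 1 := by
      have : 14 ≤ Nat.sqrt t := by
        rw [Nat.le_sqrt]
        omega
      omega
    have h3 := mid_dvd (z := Nat.sqrt t + 1) hz (Nat.lt_succ_sqrt t).le hm (design_card h)
      (fun v hv => (hY v hv).1)
    have h4 : ∏ p ∈ midP (Nat.sqrt t + 1) e, p ^ (e / p) ∣ Y.card := by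
      simp only [Finset.sum_const, nsmul_eq_mul, mul_one] at h3
      exact_mod_cast h3
    have hcard : 0 < Y.card := Finset.card_pos.mpr h.1
    have h5 : ∏ p ∈ midP (Nat.sqrt t + 1) e, p ^ (e / p) ≤ 4100625 * m ^ 4 :=
      (Nat.le_of_dvd hcard h4).trans (card_le hm0 hY)
    have h6 : ∑ p ∈ midP (Nat.sqrt t + 1) e, ((e / p : ℕ) : ℝ) * Real.log p
        ≤ 16 + 4 * Real.log m := by
      have e1 : ∑ p ∈ midP (Nat.sqrt t + 1) e, ((e / p : ℕ) : ℝ) * Real.log p
          = Real.log ((∏ p ∈ midP (Nat.sqrt t + 1) e, p ^ (e / p) : ℕ) : ℝ) := by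
        push_cast
        rw [Real.log_prod]
        · exact Finset.sum_congr rfl fun p _ => by rw [Real.log_pow]
        · intro p hp
          rw [mem_midP] at hp
          have : (0 : ℝ) < p := by exact_mod_cast hp.2.1.pos
          positivity
      rw [e1]
      have hpos : 0 < ∏ p ∈ midP (Nat.sqrt t + 1) e, p ^ (e / p) := by
        apply Finset.prod_pos
        intro p hp
        rw [mem_midP] at hp
        exact pow_pos hp.2.1.pos _
      have h7 : Real.log ((∏ p ∈ midP (Nat.sqrt t + 1) e, p ^ (e / p) : ℕ) : ℝ)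
          ≤ Real.log (4100625 * (m : ℝ) ^ 4) := by
        apply Real.log_le_log
        · exact_mod_cast hpos
        · exact_mod_cast h5
      have hm' : (0 : ℝ) < m := by exact_mod_cast hm0
      rw [Real.log_mul (by norm_num) (by positivity), Real.log_pow] at h7
      have h8 : Real.log 4100625 ≤ 16 := by
        have h9 : (4100625 : ℝ) ≤ 2 ^ 22 := by norm_num
        have h10 := Real.log_le_log (by norm_num) h9
        rw [Real.log_pow] at h10
        have := Real.log_two_lt_d9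
        push_cast at h10
        linarith
      push_cast at h7 ⊢
      linarith
    have h7 : (e : ℝ) ≤ 4 * Real.log m + |C1| := by
      have : 2 * e ≤ t := by omega
      have h8 : 2 * (e : ℝ) ≤ t := by exact_mod_cast this
      have := le_abs_self C1
      have := abs_nonneg C1
      linarith
    have h8 : 5 / 16 * (e : ℝ) * Real.log e ≤ 16 + 4 * Real.log m + C2 * (4 * Real.log m + |C1|) := by
      have := mul_le_mul_of_nonneg_left h7 hC20
      linarith
    have h9 : (e : ℝ) * Real.log e ≤ D * (Real.log m + 1) := by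
      have h10 : 0 ≤ C2 * |C1| := by positivity
      have h11 : 0 ≤ C2 * Real.log m := by positivity
      have h12 : 0 ≤ C2 * |C1| * Real.log m := by positivity
      rw [hD]
      nlinarith
    have h10 : (t : ℝ) ≤ 3 * e := by
      have : t ≤ 3 * e := by omega
      exact_mod_cast this
    have ht0 : (0 : ℝ) < t := by
      have : 0 < t := by omega
      exact_mod_cast this
    have h11 : Real.log t ≤ 2 * Real.log e := by
      have h12 : (t : ℝ) ≤ (e : ℝ) ^ 2 := by nlinarith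
      have := Real.log_le_log ht0 h12
      rw [Real.log_pow] at this
      push_cast at this
      exact this
    have hle : 0 ≤ Real.log e := Real.log_natCast_nonneg e
    have h13 : (t : ℝ) * Real.log t ≤ 3 * e * (2 * Real.log e) :=
      mul_le_mul h10 h11 (Real.log_natCast_nonneg t) (by positivity)
    nlinarith

end Pool.Agent.Run7.h330.E8S
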