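import Pool.Agent.Q10.E8.MainB

set_option autoImplicit false

open MeasureTheory Metric Set
open scoped RealInnerProductSpace

namespace Pool.Agent.Run7.h330.E8S

open Pool.Agent.Q10.E8

open Polynomial in
theorem M_two (k : ℕ) (i : Fin 8) (hi : i ≠ 0) :
    M i (2 * k) 2 = F (2 * (k + 1)) (e 0) / (2 * k + 1) := by
  have h := key (k + 1) i hi
  set P : ℝ[X] := (1 + X ^ 2) ^ (k + 1) * C (F (2 * (k + 1)) (e 0)) with hP
  set Q : ℝ[X] := ∑ j ∈ Finset.range (2 * (k + 1) + 1),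
    C (((2 * (k + 1)).choose j : ℝ) * M i j (2 * (k + 1) - j)) * X ^ (2 * (k + 1) - j) with hQ
  have hPQ : P = Q := by
    apply Polynomial.funext
    intro t
    rw [hP, hQ, Polynomial.eval_finsetSum]
    simp only [eval_mul, eval_pow, eval_add, eval_one, eval_X, eval_C]
    rw [h t]
    exact Finset.sum_congr rfl fun j _ => by ring
  have hc : P.coeff 2 = Q.coeff 2 := by rw [hPQ]
  have h1 : P.coeff 2 = (k + 1) * F (2 * (k + 1)) (e 0) := by
    rw [hP, coeff_mul_C]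
    have : ((1 : ℝ[X]) + X ^ 2) ^ (k + 1) = expand ℝ 2 ((1 + X) ^ (k + 1)) := by
      simp
    rw [this, show 2 = 1 * 2 from rfl, coeff_expand_mul (by norm_num), coeff_one_add_X_pow]
    simp
  have h2 : Q.coeff 2 = ((2 * (k + 1)).choose (2 * k) : ℝ) * M i (2 * k) 2 := by
    rw [hQ, finset_sum_coeff]
    rw [Finset.sum_eq_single (2 * k)]
    · rw [coeff_C_mul_X_pow]
      have : 2 * (k + 1) - 2 * k = 2 := by omega
      rw [this, if_pos rfl]
    · intro j hj hne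
      rw [coeff_C_mul_X_pow, if_neg]
      rw [Finset.mem_range] at hj
      omega
    · intro hn
      exfalso
      apply hn
      rw [Finset.mem_range]
      omega
  have h3 : ((2 * (k + 1)).choose (2 * k) : ℝ) = (k + 1) * (2 * k + 1) := by
    have e1 : (2 * (k + 1)).choose (2 * k) = (2 * k + 2).choose 2 := by
      rw [show 2 * (k + 1) = 2 * k + 2 by ring]
      exact Nat.choose_symm_of_eq_add (by ring)
    rw [e1, Nat.cast_choose_two]
    push_cast
    ring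
  rw [h1, h2, h3] at hc
  have hk : (0 : ℝ) < k + 1 := by positivity
  have hk2 : (0 : ℝ) < 2 * k + 1 := by positivity
  rw [eq_div_iff hk2.ne']
  apply mul_left_cancel₀ hk.ne'
  linarith

theorem F_step (k : ℕ) :
    F (2 * k) (e 0) * (2 * k + 1) = F (2 * (k + 1)) (e 0) * (2 * k + 8) := by
  have h := rec_M (2 * k)
  rw [Fin.sum_univ_eight] at h
  rw [M_zero, M_two k 1 (by decide), M_two k 2 (by decide), M_two k 3 (by decide),
    M_two k 4 (by decide), M_two k 5 (by decide), M_two k 6 (by decide),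
    M_two k 7 (by decide)] at h
  have e1 : 2 * k + 2 = 2 * (k + 1) := by ring
  rw [e1] at h
  have hk2 : (0 : ℝ) < 2 * k + 1 := by positivity
  rw [h]
  field_simp
  ring

theorem F_even (k : ℕ) :
    F (2 * k) (e 0) * (4 ^ k * (k.factorial : ℝ) * ((k + 3).factorial : ℝ))
      = 6 * ((2 * k).factorial : ℝ) * sg.real Set.univ := by
  induction k with
  | zero =>
    rw [mul_zero, F0]
    simp [Nat.factorial]
    ring
  | succ k ih =>
    have h := F_step k
    have e1 : (k + 1 + 3).factorial = (k + 4) * (k + 3).factorial := by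
      rw [show k + 1 + 3 = (k + 3) + 1 by ring, Nat.factorial_succ]
    have e2 : (2 * (k + 1)).factorial = (2 * k + 2) * ((2 * k + 1) * (2 * k).factorial) := by
      rw [show 2 * (k + 1) = (2 * k + 1) + 1 by ring, Nat.factorial_succ, Nat.factorial_succ]
    rw [e1, e2, Nat.factorial_succ]
    push_cast
    have : (0 : ℝ) < 2 * k + 8 := by positivity
    calc F (2 * (k + 1)) (e 0) * (4 ^ (k + 1) * ((k + 1) * (k.factorial : ℝ)) *
          ((k + 4) * ((k + 3).factorial : ℝ)))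
        = (F (2 * (k + 1)) (e 0) * (2 * k + 8)) * (2 * (k + 1)) *
          (4 ^ k * (k.factorial : ℝ) * ((k + 3).factorial : ℝ)) := by ring
      _ = (2 * k + 1) * (2 * (k + 1)) *
          (F (2 * k) (e 0) * (4 ^ k * (k.factorial : ℝ) * ((k + 3).factorial : ℝ))) := by
          rw [← h]; ring
      _ = _ := by rw [ih]; ring

/-- The even moments of a cubature formula on a shell. -/
theorem mom_even {t m : ℕ} {Y : Finset (Fin 8 → ℤ)} {w : (Fin 8 → ℤ) → ℝ} (h : Cubature t m Y w)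
    (hY : ∀ v ∈ Y, IsE8 v) (r : Fin 8 → ℤ) (hr : IsE8 r) (s : ℕ)
    (hs : ∑ i, r i ^ 2 = 8 * (s : ℤ)) (k : ℕ) (hk : 2 * k ≤ t) :
    ((k.factorial : ℝ) * ((k + 3).factorial : ℝ)) * ∑ v ∈ Y, w v * (pr v r : ℝ) ^ (2 * k)
      = 6 * ((2 * k).factorial : ℝ) * ((m : ℝ) * s) ^ k * ∑ v ∈ Y, w v := by
  set z : E := (WithLp.toLp 2 fun i => (r i : ℝ) / 2) with hz
  have hnorm : ‖z‖ ^ 2 = 2 * s := by
    rw [EuclideanSpace.norm_sq_eq]
    have : ∀ i, ‖z i‖ ^ 2 = (r i : ℝ) ^ 2 / 4 := by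
      intro i
      rw [show z i = (r i : ℝ) / 2 from rfl, Real.norm_eq_abs, sq_abs]; ring
    rw [Finset.sum_congr rfl fun i _ => this i, ← Finset.sum_div]
    have h2 : ∑ i, (r i : ℝ) ^ 2 = 8 * s := by exact_mod_cast hs
    rw [h2]; ring
  have h1 := moment h z (2 * k) hk
  have h2 : ∑ v ∈ Y, w v * (∑ i, z i * ((v i : ℝ) / 2)) ^ (2 * k)
      = ∑ v ∈ Y, w v * (pr v r : ℝ) ^ (2 * k) :=
    Finset.sum_congr rfl fun v hv => by rw [aux_z hY r hr v hv]
  rw [h2, F_eq] at h1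
  have hsq : Real.sqrt (2 * (m : ℝ)) ^ 2 = 2 * m := Real.sq_sqrt (by positivity)
  rw [pow_mul (Real.sqrt (2 * (m : ℝ))), hsq, pow_mul ‖z‖, hnorm] at h1
  have h3 := F_even k
  have hV := vol_pos
  generalize sg.real Set.univ = V at hV h1 h3
  generalize ∑ v ∈ Y, w v * (pr v r : ℝ) ^ (2 * k) = A at h1 ⊢
  generalize ∑ v ∈ Y, w v = W at h1 ⊢
  generalize F (2 * k) (e 0) = f at h1 h3
  have h4 : (0 : ℝ) < 4 ^ k := by positivity
  apply mul_right_cancel₀ hV.ne'
  apply mul_left_cancel₀ h4.ne'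
  calc 4 ^ k * (((k.factorial : ℝ) * ((k + 3).factorial : ℝ)) * A * V)
      = (4 ^ k * (k.factorial : ℝ) * ((k + 3).factorial : ℝ)) * (A * V) := by ring
    _ = W * (2 * (m : ℝ)) ^ k * (2 * (s : ℝ)) ^ k *
        (f * (4 ^ k * (k.factorial : ℝ) * ((k + 3).factorial : ℝ))) := by rw [h1]; ring
    _ = W * ((2 * (m : ℝ)) ^ k * (2 * (s : ℝ)) ^ k) * (6 * ((2 * k).factorial : ℝ) * V) := by
        rw [h3]; ring
    _ = 4 ^ k * (6 * ((2 * k).factorial : ℝ) * ((m : ℝ) * s) ^ k * W * V) := by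
        rw [← mul_pow, show 2 * (m : ℝ) * (2 * (s : ℝ)) = 4 * ((m : ℝ) * s) by ring, mul_pow 4]
        ring

/-- The even moments of a cubature formula with integral weights. -/
theorem mom_even_int {t m : ℕ} {Y : Finset (Fin 8 → ℤ)} {w : (Fin 8 → ℤ) → ℤ}
    (h : Cubature t m Y (fun v => (w v : ℝ)))
    (hY : ∀ v ∈ Y, IsE8 v) (r : Fin 8 → ℤ) (hr : IsE8 r) (s : ℕ)
    (hs : ∑ i, r i ^ 2 = 8 * (s : ℤ)) (k : ℕ) (hk : 2 * k ≤ t) :
    ((k.factorial : ℤ) * ((k + 3).factorial : ℤ)) * ∑ v ∈ Y, w v * (pr v r) ^ (2 * k)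
      = 6 * ((2 * k).factorial : ℤ) * ((m : ℤ) * s) ^ k * ∑ v ∈ Y, w v := by
  have := mom_even h hY r hr s hs k hk
  exact_mod_cast this

theorem mom_odd_int {t m : ℕ} {Y : Finset (Fin 8 → ℤ)} {w : (Fin 8 → ℤ) → ℤ}
    (h : Cubature t m Y (fun v => (w v : ℝ)))
    (hY : ∀ v ∈ Y, IsE8 v) (r : Fin 8 → ℤ) (hr : IsE8 r) (k : ℕ) (ho : Odd k) (hk : k ≤ t) :
    ∑ v ∈ Y, w v * (pr v r) ^ k = 0 := by
  have := moments_odd h hY r hr k ho hk
  exact_mod_cast this

end Pool.Agent.Run7.h330.E8S
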