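import Pool.Agent.Run7.h330.E8Str

set_option autoImplicit false

namespace Pool.Agent.Run7.h330.E8S

open Pool.Agent.Q10.E8

/-- The even moments in terms of central binomial coefficients. -/
theorem mom_binom {t m : ℕ} {Y : Finset (Fin 8 → ℤ)} {w : (Fin 8 → ℤ) → ℤ}
    (h : Cubature t m Y (fun v => (w v : ℝ)))
    (hY : ∀ v ∈ Y, IsE8 v) (r : Fin 8 → ℤ) (hr : IsE8 r)
    (hs : ∑ i, r i ^ 2 = 8 * ((1 : ℕ) : ℤ)) (k : ℕ) (hk : 2 * k ≤ t) :
    (((k : ℤ) + 1) * (k + 2) * (k + 3)) * ∑ v ∈ Y, w v * (pr v r) ^ (2 * k)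
      = 6 * ((2 * k).choose k : ℤ) * (m : ℤ) ^ k * ∑ v ∈ Y, w v := by
  have h1 := mom_even_int h hY r hr 1 hs k hk
  have e1 : (k + 3).factorial = (k + 3) * ((k + 2) * ((k + 1) * k.factorial)) := by
    rw [Nat.factorial_succ, Nat.factorial_succ, Nat.factorial_succ]
  have e2 : (2 * k).factorial = (2 * k).choose k * k.factorial * k.factorial := by
    have := Nat.choose_mul_factorial_mul_factorial (show k ≤ 2 * k by omega)
    rw [show 2 * k - k = k by omega] at this
    exact this.symm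
  rw [e1, e2] at h1
  push_cast at h1
  have hp : (0 : ℤ) < (k.factorial : ℤ) := by exact_mod_cast k.factorial_pos
  apply mul_left_cancel₀ hp.ne'
  apply mul_left_cancel₀ hp.ne'
  rw [mul_one] at h1
  linear_combination h1

theorem not_dvd_choose {l b : ℕ} (hl : l.Prime) (hb : 2 * b < l) :
    ¬ (l : ℤ) ∣ ((2 * b).choose b : ℤ) := by
  intro h
  have h2 : l ∣ (2 * b).choose b := by exact_mod_cast h
  have h3 : (2 * b).choose b ∣ (2 * b).factorial := by
    have := Nat.choose_mul_factorial_mul_factorial (show b ≤ 2 * b by omega)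
    exact ⟨b.factorial * (2 * b - b).factorial, by rw [← this]; ring⟩
  have h4 := (hl.dvd_factorial).mp (h2.trans h3)
  omega

/-- Removing three consecutive factors below `l ^ 2` costs at most one power of `l`. -/
theorem three_factors {l k N : ℕ} (hl : l.Prime) (h11 : 11 ≤ l) (hk : k + 3 < l * l) {A : ℤ}
    (h : (l : ℤ) ^ (N + 1) ∣ (((k : ℤ) + 1) * (k + 2) * (k + 3)) * A) : (l : ℤ) ^ N ∣ A := by
  have hp : Prime (l : ℤ) := Nat.prime_iff_prime_int.mp hl
  have hl0 : (l : ℤ) ≠ 0 := hp.ne_zero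
  -- one factor
  have one : ∀ (a : ℕ) (B : ℤ), 0 < a → a < l * l → l ∣ a → (l : ℤ) ^ (N + 1) ∣ (a : ℤ) * B →
      (l : ℤ) ^ N ∣ B := by
    intro a B ha hal hla hB
    obtain ⟨c, rfl⟩ := hla
    have hc : ¬ (l : ℤ) ∣ (c : ℤ) := by
      intro hc
      have hc' : l ∣ c := by exact_mod_cast hc
      obtain ⟨d, rfl⟩ := hc'
      have : 1 ≤ d := by
        rcases Nat.eq_zero_or_pos d with h0 | h0
        · subst h0
          simp at ha
        · exact h0
      have : l * l * 1 ≤ l * l * d := Nat.mul_le_mul_left _ this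
      have e : l * (l * d) = l * l * d := by ring
      omega
    push_cast at hB
    have h2 : (l : ℤ) * (l : ℤ) ^ N ∣ (l : ℤ) * ((c : ℤ) * B) := by
      rw [← pow_succ']
      convert hB using 1
      ring
    have h3 := (mul_dvd_mul_iff_left hl0).mp h2
    exact hp.pow_dvd_of_dvd_mul_left N hc h3
  have up : ∀ (a : ℕ) (B : ℤ), ¬ l ∣ a → (l : ℤ) ^ (N + 1) ∣ (a : ℤ) * B →
      (l : ℤ) ^ (N + 1) ∣ B := by
    intro a B ha hB
    apply hp.pow_dvd_of_dvd_mul_left (N + 1) _ hB
    intro hc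
    exact ha (by exact_mod_cast hc)
  have down : ∀ B : ℤ, (l : ℤ) ^ (N + 1) ∣ B → (l : ℤ) ^ N ∣ B :=
    fun B hB => (pow_dvd_pow (l : ℤ) (Nat.le_succ N)).trans hB
  have key2 : ∀ B : ℤ, (l : ℤ) ^ (N + 1) ∣ ((k + 2 : ℕ) : ℤ) * (((k + 3 : ℕ) : ℤ) * B) →
      (l : ℤ) ^ N ∣ B := by
    intro B hB
    by_cases c2 : l ∣ k + 2
    · have h3 : ¬ l ∣ k + 3 := by
        intro c3
        have := (Nat.dvd_add_right c2).mp (show l ∣ (k + 2) + 1 from c3)
        have := Nat.le_of_dvd one_pos this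
        omega
      have h4 := one (k + 2) _ (by omega) (by omega) c2 hB
      apply hp.pow_dvd_of_dvd_mul_left N _ h4
      intro hc
      exact h3 (by exact_mod_cast hc)
    · have h4 := up (k + 2) _ c2 hB
      by_cases c3 : l ∣ k + 3
      · exact one (k + 3) _ (by omega) (by omega) c3 h4
      · exact down _ (up (k + 3) _ c3 h4)
  have h' : (l : ℤ) ^ (N + 1) ∣ ((k + 1 : ℕ) : ℤ) *
      (((k + 2 : ℕ) : ℤ) * (((k + 3 : ℕ) : ℤ) * A)) := by
    convert h using 1
    push_cast
    ring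
  by_cases c1 : l ∣ k + 1
  · have h2 : ¬ l ∣ k + 2 := by
      intro c3
      have := (Nat.dvd_add_right c1).mp (show l ∣ (k + 1) + 1 from c3)
      have := Nat.le_of_dvd one_pos this
      omega
    have h3 : ¬ l ∣ k + 3 := by
      intro c3
      have := (Nat.dvd_add_right c1).mp (show l ∣ (k + 1) + 2 from c3)
      have := Nat.le_of_dvd two_pos this
      omega
    have h4 := one (k + 1) _ (by omega) (by omega) c1 h'
    have h5 : (l : ℤ) ^ N ∣ ((k + 3 : ℕ) : ℤ) * A := by
      apply hp.pow_dvd_of_dvd_mul_left N _ h4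
      intro hc
      exact h2 (by exact_mod_cast hc)
    apply hp.pow_dvd_of_dvd_mul_left N _ h5
    intro hc
    exact h3 (by exact_mod_cast hc)
  · exact key2 _ (up (k + 1) _ c1 h')

/-- Primes dividing the norm exactly once. -/
theorem exact_case {t m l b : ℕ} (hl : l.Prime) (h11 : 11 ≤ l) (h2b : 2 * b < l)
    (hbt : 2 * (b * l) ≤ t) (hm : l ∣ m) (hm2 : ¬ l * l ∣ m)
    {Y : Finset (Fin 8 → ℤ)} {w : (Fin 8 → ℤ) → ℤ}
    (h : Cubature t m Y (fun v => (w v : ℝ))) (hY : ∀ v ∈ Y, IsE8 v) :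
    (l : ℤ) ^ b ∣ ∑ v ∈ Y, w v := by
  obtain ⟨r, hr, hs⟩ := exists_root
  have hp : Prime (l : ℤ) := Nat.prime_iff_prime_int.mp hl
  have hl0 : (l : ℤ) ≠ 0 := hp.ne_zero
  have hodd : l % 2 = 1 := by
    rcases hl.eq_two_or_odd with h2 | h2
    · omega
    · exact h2
  obtain ⟨q, hq⟩ : ∃ q, l = 2 * q + 1 := ⟨l / 2, by omega⟩
  obtain ⟨m', rfl⟩ := hm
  have hm' : ¬ (l : ℤ) ∣ (m' : ℤ) := by
    intro hc
    have hc' : l ∣ m' := by exact_mod_cast hc
    exact hm2 (Nat.mul_dvd_mul_left l hc')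
  set A : ℕ → ℤ := fun k => ∑ v ∈ Y, w v * (pr v r) ^ (2 * k) with hA
  set W : ℤ := ∑ v ∈ Y, w v with hW
  have hR : ∀ k, 2 * k ≤ t → (((k : ℤ) + 1) * (k + 2) * (k + 3)) * A k
      = 6 * ((2 * k).choose k : ℤ) * ((l * m' : ℕ) : ℤ) ^ k * W :=
    fun k hk => mom_binom h hY r hr hs k hk
  -- the power sums of `u ^ l - u`
  have hsum : ∑ j ∈ Finset.range (2 * b + 1), ((-1 : ℤ) ^ (2 * b - j) *
      ((2 * b).choose j : ℤ)) * A (b + j * q) = ∑ v ∈ Y, w v * ((pr v r) ^ l - pr v r) ^ (2 * b) := by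
    rw [hA]
    simp only [Finset.mul_sum]
    rw [Finset.sum_comm]
    refine Finset.sum_congr rfl fun v _ => ?_
    rw [sub_eq_add_neg, add_pow, Finset.mul_sum]
    refine Finset.sum_congr rfl fun j hj => ?_
    rw [Finset.mem_range] at hj
    have e1 : ((pr v r) ^ l) ^ j * (-(pr v r)) ^ (2 * b - j)
        = (-1) ^ (2 * b - j) * (pr v r) ^ (2 * (b + j * q)) := by
      rw [neg_pow (pr v r), ← pow_mul]
      have : (pr v r) ^ (2 * (b + j * q)) = (pr v r) ^ (l * j) * (pr v r) ^ (2 * b - j) := by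
        rw [← pow_add]
        congr 1
        have : l * j = 2 * (j * q) + j := by rw [hq]; ring
        omega
      rw [this]
      ring
    rw [e1]
    ring
  have hdiv : (l : ℤ) ^ (2 * b) ∣ ∑ v ∈ Y, w v * ((pr v r) ^ l - pr v r) ^ (2 * b) := by
    refine Finset.dvd_sum fun v _ => Dvd.dvd.mul_left ?_ _
    apply pow_dvd_pow_of_dvd
    haveI := Fact.mk hl
    rw [← ZMod.intCast_zmod_eq_zero_iff_dvd]
    push_cast
    rw [ZMod.pow_card]
    ring
  have hbl : b * l ≤ (l * l - l) / 2 := by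
    rw [Nat.le_div_iff_mul_le two_pos]
    have h3 : (2 * b + 1) * l ≤ l * l := Nat.mul_le_mul_right l h2b
    have h4 : (2 * b + 1) * l = b * l * 2 + l := by ring
    omega
  have hll : 11 * l ≤ l * l := Nat.mul_le_mul_right l h11
  -- induction on the exponent
  have ind : ∀ c, c ≤ b → (l : ℤ) ^ c ∣ W := by
    intro c
    induction c with
    | zero => intro _; simp
    | succ c ih =>
      intro hc
      have hcW := ih (by omega)
      have hAk : ∀ j, 1 ≤ j → j ≤ 2 * b → (l : ℤ) ^ (b + c + 1) ∣ A (b + j * q) := by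
        intro j hj1 hj2
        have hjq : q ≤ j * q := Nat.le_mul_of_pos_left q hj1
        have hjq2 : j * q ≤ 2 * b * q := Nat.mul_le_mul_right q hj2
        have hbl2 : b * l = 2 * b * q + b := by rw [hq]; ring
        have h1 := hR (b + j * q) (by omega)
        have h2 : (l : ℤ) ^ (b + j * q + c) ∣
            6 * ((2 * (b + j * q)).choose (b + j * q) : ℤ) * ((l * m' : ℕ) : ℤ) ^ (b + j * q) * W := by
          rw [pow_add]
          apply mul_dvd_mul _ hcW
          apply Dvd.dvd.mul_left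
          push_cast
          rw [mul_pow]
          exact dvd_mul_right _ _
        rw [← h1] at h2
        have h3 : b + j * q + c = (b + j * q + c - 1) + 1 := by omega
        rw [h3] at h2
        have h4 := three_factors hl h11 (by omega) h2
        exact (pow_dvd_pow (l : ℤ) (by omega)).trans h4
      have hAb : (l : ℤ) ^ (b + c + 1) ∣ A b := by
        have h1 : (l : ℤ) ^ (b + c + 1) ∣ ∑ j ∈ Finset.range (2 * b + 1), ((-1 : ℤ) ^ (2 * b - j) *
            ((2 * b).choose j : ℤ)) * A (b + j * q) := by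
          rw [hsum]
          exact (pow_dvd_pow (l : ℤ) (by omega)).trans hdiv
        rw [Finset.sum_range_succ'] at h1
        have h2 : (l : ℤ) ^ (b + c + 1) ∣ ∑ j ∈ Finset.range (2 * b),
            ((-1 : ℤ) ^ (2 * b - (j + 1)) * ((2 * b).choose (j + 1) : ℤ)) * A (b + (j + 1) * q) := by
          refine Finset.dvd_sum fun j hj => Dvd.dvd.mul_left ?_ _
          rw [Finset.mem_range] at hj
          exact hAk (j + 1) (by omega) (by omega)
        have h3 := (dvd_add_right h2).mp h1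
        simpa [pow_mul] using h3
      have h1 := hR b (by
        have : b ≤ b * l := Nat.le_mul_of_pos_right b (by omega)
        omega)
      have h2 : (l : ℤ) ^ (b + c + 1) ∣
          6 * ((2 * b).choose b : ℤ) * ((l * m' : ℕ) : ℤ) ^ b * W := by
        rw [← h1]
        exact Dvd.dvd.mul_left hAb _
      have h3 : (l : ℤ) ^ b * (l : ℤ) ^ (c + 1) ∣
          (l : ℤ) ^ b * (6 * ((2 * b).choose b : ℤ) * (m' : ℤ) ^ b * W) := by
        rw [← pow_add, show b + (c + 1) = b + c + 1 by ring]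
        have e5 : (l : ℤ) ^ b * (6 * ((2 * b).choose b : ℤ) * (m' : ℤ) ^ b * W)
            = 6 * ((2 * b).choose b : ℤ) * ((l * m' : ℕ) : ℤ) ^ b * W := by
          push_cast
          rw [mul_pow]
          ring
        rw [e5]
        exact h2
      have h4 := (mul_dvd_mul_iff_left (pow_ne_zero b hl0)).mp h3
      apply hp.pow_dvd_of_dvd_mul_left (c + 1) _ h4
      intro h5
      rcases hp.dvd_or_dvd h5 with h6 | h6
      · rcases hp.dvd_or_dvd h6 with h7 | h7
        · have : l ∣ 6 := by exact_mod_cast h7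
          have := Nat.le_of_dvd (by norm_num) this
          omega
        · exact not_dvd_choose hl h2b h7
      · exact hm' (hp.dvd_of_dvd_pow h6)
  exact ind b le_rfl

theorem pow_dvd_fac {l : ℕ} (hl : 0 < l) (b : ℕ) : l ^ b ∣ (l * b).factorial := by
  induction b with
  | zero => simp
  | succ b ih =>
    obtain ⟨q, rfl⟩ : ∃ q, l = q + 1 := ⟨l - 1, by omega⟩
    have e : (q + 1) * (b + 1) = ((q + 1) * b + q) + 1 := by ring
    rw [e, Nat.factorial_succ, pow_succ']
    apply mul_dvd_mul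
    · rw [← e]
      exact dvd_mul_right _ _
    · exact ih.trans (Nat.factorial_dvd_factorial (by omega))

/-- Primes whose square does not divide the norm. -/
theorem pow_case {t m l b : ℕ} (hl : l.Prime) (h11 : 11 ≤ l) (h2b : 2 * b < l)
    (hbt : 2 * (b * l) ≤ t) (hm2 : ¬ l * l ∣ m)
    {Y : Finset (Fin 8 → ℤ)} {w : (Fin 8 → ℤ) → ℤ}
    (h : Cubature t m Y (fun v => (w v : ℝ))) (hY : ∀ v ∈ Y, IsE8 v) :
    (l : ℤ) ^ b ∣ ∑ v ∈ Y, w v := by
  by_cases hm : l ∣ m
  · exact exact_case hl h11 h2b hbt hm hm2 h hY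
  · have hp : Prime (l : ℤ) := Nat.prime_iff_prime_int.mp hl
    have h1 := factorial_dvd (e := b * l) hbt h hY
    have h2 : (l : ℤ) ^ b ∣ (((b * l) + 3).factorial : ℤ) := by
      have h3 : l ^ b ∣ ((b * l) + 3).factorial :=
        (pow_dvd_fac hl.pos b).trans (Nat.factorial_dvd_factorial (by
          have : l * b = b * l := mul_comm _ _
          omega))
      exact_mod_cast h3
    have h3 := h2.trans h1
    apply hp.pow_dvd_of_dvd_mul_left b _ h3
    intro h5
    rcases hp.dvd_or_dvd h5 with h6 | h6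
    · have : l ∣ 6 := by exact_mod_cast h6
      have := Nat.le_of_dvd (by norm_num) this
      omega
    · have := hp.dvd_of_dvd_pow h6
      exact hm (by exact_mod_cast this)

end Pool.Agent.Run7.h330.E8S
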