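import Pool.Agent.Run7.h330.E8Fac

set_option autoImplicit false

namespace Pool.Agent.Run7.h330.E8S

open Pool.Agent.Q10.E8

theorem exists_root : ∃ r : Fin 8 → ℤ, IsE8 r ∧ ∑ i, r i ^ 2 = 8 * ((1 : ℕ) : ℤ) := exists_vec 1

theorem mom_two {t m : ℕ} (ht : 2 ≤ t) {Y : Finset (Fin 8 → ℤ)} {w : (Fin 8 → ℤ) → ℤ}
    (h : Cubature t m Y (fun v => (w v : ℝ)))
    (hY : ∀ v ∈ Y, IsE8 v) (r : Fin 8 → ℤ) (hr : IsE8 r)
    (hs : ∑ i, r i ^ 2 = 8 * ((1 : ℕ) : ℤ)) :
    2 * ∑ v ∈ Y, w v * (pr v r) ^ 2 = (m : ℤ) * ∑ v ∈ Y, w v := by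
  have h1 := mom_even_int h hY r hr 1 hs 1 (by omega)
  simp [Nat.factorial] at h1
  linarith

theorem not_dvd_fac {l n : ℕ} (hl : l.Prime) (hn : n < l) : ¬ (l : ℤ) ∣ (n.factorial : ℤ) := by
  intro h
  have h2 : l ∣ n.factorial := by exact_mod_cast h
  rw [hl.dvd_factorial] at h2
  omega

theorem fermat {l : ℕ} (hl : l.Prime) (u : ℤ) : (l : ℤ) ∣ u ^ (l + 1) - u ^ 2 := by
  haveI := Fact.mk hl
  rw [← ZMod.intCast_zmod_eq_zero_iff_dvd]
  push_cast
  rw [pow_succ, ZMod.pow_card]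
  ring

/-- A prime from 11 to `t - 1` divides the norm times the total weight. -/
theorem prime_dvd {t m l : ℕ} (hl : l.Prime) (h11 : 11 ≤ l) (hlt : l + 1 ≤ t)
    {Y : Finset (Fin 8 → ℤ)} {w : (Fin 8 → ℤ) → ℤ}
    (h : Cubature t m Y (fun v => (w v : ℝ))) (hY : ∀ v ∈ Y, IsE8 v) :
    (l : ℤ) ∣ (m : ℤ) * ∑ v ∈ Y, w v := by
  obtain ⟨r, hr, hs⟩ := exists_root
  have hodd : l % 2 = 1 := by
    rcases hl.eq_two_or_odd with h2 | h2
    · omega
    · exact h2
  obtain ⟨k, hk⟩ : ∃ k, l + 1 = 2 * k := ⟨(l + 1) / 2, by omega⟩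
  have hp : Prime (l : ℤ) := Nat.prime_iff_prime_int.mp hl
  have h1 := mom_even_int h hY r hr 1 hs k (by omega)
  have h2 : (l : ℤ) ∣ ((k.factorial : ℤ) * ((k + 3).factorial : ℤ)) *
      ∑ v ∈ Y, w v * (pr v r) ^ (2 * k) := by
    rw [h1]
    have : l ∣ (2 * k).factorial := Nat.dvd_factorial hl.pos (by omega)
    have h3 : (l : ℤ) ∣ ((2 * k).factorial : ℤ) := by exact_mod_cast this
    exact Dvd.dvd.mul_right (Dvd.dvd.mul_right (Dvd.dvd.mul_left h3 6) _) _
  have h3 : (l : ℤ) ∣ ∑ v ∈ Y, w v * (pr v r) ^ (2 * k) := by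
    rcases hp.dvd_or_dvd h2 with h4 | h4
    · exfalso
      rcases hp.dvd_or_dvd h4 with h5 | h5
      · exact not_dvd_fac hl (by omega) h5
      · exact not_dvd_fac hl (by omega) h5
    · exact h4
  have h4 : (l : ℤ) ∣ ∑ v ∈ Y, w v * (pr v r) ^ (2 * k) - ∑ v ∈ Y, w v * (pr v r) ^ 2 := by
    rw [← Finset.sum_sub_distrib]
    refine Finset.dvd_sum fun v _ => ?_
    rw [← mul_sub, ← hk]
    exact Dvd.dvd.mul_left (fermat hl _) _
  have h5 : (l : ℤ) ∣ ∑ v ∈ Y, w v * (pr v r) ^ 2 := by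
    have := dvd_sub h3 h4
    simpa using this
  rw [← mom_two (by omega) h hY r hr hs]
  exact Dvd.dvd.mul_left h5 2

/-- The product of the primes from 11 to `n`. -/
def bigPrimes (n : ℕ) : ℕ := ∏ p ∈ (Finset.range (n + 1)).filter (fun p => p.Prime ∧ 11 ≤ p), p

theorem prod_dvd {t m : ℕ} {Y : Finset (Fin 8 → ℤ)} {w : (Fin 8 → ℤ) → ℤ}
    (h : Cubature t m Y (fun v => (w v : ℝ))) (hY : ∀ v ∈ Y, IsE8 v) :
    (bigPrimes (t - 1) : ℤ) ∣ (m : ℤ) * ∑ v ∈ Y, w v := by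
  unfold bigPrimes
  push_cast
  apply Finset.prod_dvd_of_coprime
  · intro a ha b hb hab
    simp only [Finset.coe_filter, Set.mem_setOf_eq] at ha hb
    have := (Nat.coprime_primes ha.2.1 hb.2.1).mpr hab
    exact Nat.isCoprime_iff_coprime.mpr this
  · intro p hp
    rw [Finset.mem_filter, Finset.mem_range] at hp
    exact prime_dvd hp.2.1 hp.2.2 (by omega) h hY

theorem primorial_le (n : ℕ) : primorial n ≤ 210 * bigPrimes n := by
  unfold bigPrimes primorial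
  have h1 : (Finset.range (n + 1)).filter Nat.Prime ⊆
      (Finset.range 11).filter Nat.Prime ∪
        (Finset.range (n + 1)).filter (fun p => p.Prime ∧ 11 ≤ p) := by
    intro p hp
    rw [Finset.mem_filter, Finset.mem_range] at hp
    rw [Finset.mem_union, Finset.mem_filter, Finset.mem_filter, Finset.mem_range,
      Finset.mem_range]
    by_cases h : p < 11
    · exact Or.inl ⟨h, hp.2⟩
    · exact Or.inr ⟨hp.1, hp.2, by omega⟩
  have h2 : ∏ p ∈ (Finset.range 11).filter Nat.Prime, p = 210 := by decide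
  have h3 : Disjoint ((Finset.range 11).filter Nat.Prime)
      ((Finset.range (n + 1)).filter (fun p => p.Prime ∧ 11 ≤ p)) := by
    rw [Finset.disjoint_left]
    intro p hp hq
    rw [Finset.mem_filter, Finset.mem_range] at hp hq
    omega
  calc ∏ p ∈ (Finset.range (n + 1)).filter Nat.Prime, p
      ≤ ∏ p ∈ (Finset.range 11).filter Nat.Prime ∪
        (Finset.range (n + 1)).filter (fun p => p.Prime ∧ 11 ≤ p), p := by
        apply Finset.prod_le_prod_of_subset_of_one_le' h1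
        intro p hp _
        rw [Finset.mem_union, Finset.mem_filter, Finset.mem_filter] at hp
        rcases hp with hp | hp
        · exact hp.2.one_lt.le
        · exact hp.2.1.one_lt.le
    _ = _ := by rw [Finset.prod_union h3, h2]

end Pool.Agent.Run7.h330.E8S
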