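import Pool.Agent.Run7.h330.E8Pow

set_option autoImplicit false

namespace Pool.Agent.Run7.h330.E8S

open Pool.Agent.Q10.E8

/-- The primes in `(z, e]`. -/
def midP (z e : ℕ) : Finset ℕ := (Finset.range (e + 1)).filter (fun p => p.Prime ∧ z < p)

theorem mem_midP {z e p : ℕ} : p ∈ midP z e ↔ p ≤ e ∧ p.Prime ∧ z < p := by
  unfold midP
  rw [Finset.mem_filter, Finset.mem_range, Nat.lt_add_one_iff]

theorem theta_nat (n : ℕ) :
    Chebyshev.theta n = ∑ p ∈ (Finset.range (n + 1)).filter Nat.Prime, Real.log p := by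
  rw [Chebyshev.theta_eq_sum_Icc, Nat.floor_natCast]
  refine Finset.sum_congr ?_ fun _ _ => rfl
  ext p
  rw [Finset.mem_filter, Finset.mem_filter, Finset.mem_Icc, Finset.mem_range]
  constructor
  · rintro ⟨h1, h2⟩
    exact ⟨by omega, h2⟩
  · rintro ⟨h1, h2⟩
    exact ⟨by omega, h2⟩

theorem theta_diff (z n : ℕ) :
    Chebyshev.theta n - Chebyshev.theta z ≤ ∑ p ∈ midP z n, Real.log p := by
  rw [theta_nat, theta_nat]
  have hpos : ∀ p : ℕ, 0 ≤ Real.log (p : ℝ) := fun p => Real.log_natCast_nonneg p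
  have h1 : (Finset.range (n + 1)).filter Nat.Prime ⊆
      (Finset.range (z + 1)).filter Nat.Prime ∪ midP z n := by
    intro p hp
    rw [Finset.mem_filter, Finset.mem_range] at hp
    rw [Finset.mem_union, Finset.mem_filter, mem_midP, Finset.mem_range]
    by_cases h : p < z + 1
    · exact Or.inl ⟨h, hp.2⟩
    · exact Or.inr ⟨by omega, hp.2, by omega⟩
  have h2 : ∑ p ∈ (Finset.range (n + 1)).filter Nat.Prime, Real.log (p : ℝ)
      ≤ ∑ p ∈ (Finset.range (z + 1)).filter Nat.Prime ∪ midP z n, Real.log (p : ℝ) :=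
    Finset.sum_le_sum_of_subset_of_nonneg h1 fun p _ _ => hpos p
  have h3 : Disjoint ((Finset.range (z + 1)).filter Nat.Prime) (midP z n) := by
    rw [Finset.disjoint_left]
    intro p hp hq
    rw [Finset.mem_filter, Finset.mem_range] at hp
    rw [mem_midP] at hq
    omega
  rw [Finset.sum_union h3] at h2
  linarith

theorem log_sum_lower (z e J : ℕ) :
    ∑ j ∈ Finset.Icc 1 J, (Chebyshev.theta ((e / j : ℕ) : ℝ) - Chebyshev.theta z)
      ≤ ∑ p ∈ midP z e, ((e / p : ℕ) : ℝ) * Real.log p := by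
  have hpos : ∀ p : ℕ, 0 ≤ Real.log (p : ℝ) := fun p => Real.log_natCast_nonneg p
  calc ∑ j ∈ Finset.Icc 1 J, (Chebyshev.theta ((e / j : ℕ) : ℝ) - Chebyshev.theta z)
      ≤ ∑ j ∈ Finset.Icc 1 J, ∑ p ∈ midP z (e / j), Real.log p :=
        Finset.sum_le_sum fun j _ => theta_diff z (e / j)
    _ = ∑ j ∈ Finset.Icc 1 J, ∑ p ∈ midP z e, if p ≤ e / j then Real.log (p : ℝ) else 0 := by
        refine Finset.sum_congr rfl fun j _ => ?_
        rw [← Finset.sum_filter]
        refine Finset.sum_congr ?_ fun _ _ => rfl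
        ext p
        rw [Finset.mem_filter, mem_midP, mem_midP]
        have := Nat.div_le_self e j
        constructor
        · rintro ⟨h1, h2, h3⟩
          exact ⟨⟨by omega, h2, h3⟩, h1⟩
        · rintro ⟨⟨h1, h2, h3⟩, h4⟩
          exact ⟨h4, h2, h3⟩
    _ = ∑ p ∈ midP z e, ∑ j ∈ Finset.Icc 1 J, if p ≤ e / j then Real.log (p : ℝ) else 0 :=
        Finset.sum_comm
    _ ≤ ∑ p ∈ midP z e, ((e / p : ℕ) : ℝ) * Real.log p := by
        refine Finset.sum_le_sum fun p hp => ?_
        rw [mem_midP] at hp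
        rw [← Finset.sum_filter, Finset.sum_const, nsmul_eq_mul]
        apply mul_le_mul_of_nonneg_right _ (hpos p)
        have hsub : (Finset.Icc 1 J).filter (fun j => p ≤ e / j) ⊆ Finset.Icc 1 (e / p) := by
          intro j hj
          rw [Finset.mem_filter, Finset.mem_Icc] at hj
          rw [Finset.mem_Icc]
          refine ⟨hj.1.1, ?_⟩
          rw [Nat.le_div_iff_mul_le hp.2.1.pos]
          have := (Nat.le_div_iff_mul_le (by omega : 0 < j)).mp hj.2
          rw [mul_comm]
          exact this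
        have := Finset.card_le_card hsub
        rw [Nat.card_Icc, Nat.add_sub_cancel] at this
        exact_mod_cast this

/-- The product over the middle primes divides the number of points when the norm is squarefree. -/
theorem mid_dvd {t m z : ℕ} (hz : 10 ≤ z) (hz2 : t ≤ z * z) (hm : Squarefree m)
    {Y : Finset (Fin 8 → ℤ)} {w : (Fin 8 → ℤ) → ℤ}
    (h : Cubature t m Y (fun v => (w v : ℝ))) (hY : ∀ v ∈ Y, IsE8 v) :
    ((∏ p ∈ midP z (t / 2), p ^ (t / 2 / p) : ℕ) : ℤ) ∣ ∑ v ∈ Y, w v := by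
  push_cast
  apply Finset.prod_dvd_of_coprime
  · intro a ha b hb hab
    rw [Finset.mem_coe, mem_midP] at ha hb
    have h1 := (Nat.coprime_primes ha.2.1 hb.2.1).mpr hab
    exact IsCoprime.pow (Nat.isCoprime_iff_coprime.mpr h1)
  · intro p hp
    rw [mem_midP] at hp
    obtain ⟨h1, h2, h3⟩ := hp
    have h4 : t / 2 / p * p ≤ t / 2 := Nat.div_mul_le_self _ _
    apply pow_case h2 (by omega) _ (by omega) _ h hY
    · by_contra hc
      push Not at hc
      have h5 : p * p ≤ 2 * (t / 2 / p) * p := Nat.mul_le_mul_right p hc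
      have h6 : (z + 1) * (z + 1) ≤ p * p := Nat.mul_le_mul h3 h3
      have h7 : 2 * (t / 2 / p) * p = 2 * (t / 2 / p * p) := by ring
      have h8 : (z + 1) * (z + 1) = z * z + 2 * z + 1 := by ring
      omega
    · intro hc
      have := hm p hc
      rw [Nat.isUnit_iff] at this
      exact h2.one_lt.ne' this

end Pool.Agent.Run7.h330.E8S
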