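import Pool.Agent.Run7.h330.E8Pri

set_option autoImplicit false

namespace Pool.Agent.Run7.h330.E8S

open Pool.Agent.Q10.E8

theorem card_le {m : ℕ} (hm : 0 < m) {Y : Finset (Fin 8 → ℤ)} (hY : ∀ v ∈ Y, InShell m v) :
    Y.card ≤ 4100625 * m ^ 4 := by
  set b : ℕ := Nat.sqrt (8 * m) with hb
  have hb1 : b * b ≤ 8 * m := Nat.sqrt_le _
  have hb2 : 8 * m < (b + 1) * (b + 1) := Nat.lt_succ_sqrt _
  have hsub : Y ⊆ Fintype.piFinset (fun _ : Fin 8 => Finset.Icc (-(b : ℤ)) (b : ℤ)) := by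
    intro v hv
    rw [Fintype.mem_piFinset]
    intro i
    have h1 := (hY v hv).2
    have h2 : v i ^ 2 ≤ 8 * (m : ℤ) := by
      rw [← h1]
      exact Finset.single_le_sum (f := fun i => v i ^ 2) (fun i _ => sq_nonneg _)
        (Finset.mem_univ i)
    have h3 : |v i| < (b : ℤ) + 1 := by
      apply abs_lt_of_sq_lt_sq
      · have : (8 * (m : ℤ)) < ((b : ℤ) + 1) * ((b : ℤ) + 1) := by exact_mod_cast hb2
        nlinarith
      · positivity
    rw [Finset.mem_Icc, ← abs_le]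
    omega
  have h1 := Finset.card_le_card hsub
  rw [Fintype.card_piFinset] at h1
  simp only [Int.card_Icc, Finset.prod_const, Finset.card_univ, Fintype.card_fin] at h1
  have h2 : ((b : ℤ) + 1 - -(b : ℤ)).toNat = 2 * b + 1 := by omega
  rw [h2] at h1
  have h3 : b ≤ 3 * m := by
    by_contra hc
    push Not at hc
    have : (3 * m + 1) * (3 * m + 1) ≤ b * b := Nat.mul_le_mul hc hc
    nlinarith
  have h4 : (2 * b + 1) ^ 2 ≤ 45 * m := by nlinarith
  calc Y.card ≤ (2 * b + 1) ^ 8 := h1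
    _ = ((2 * b + 1) ^ 2) ^ 4 := by ring
    _ ≤ (45 * m) ^ 4 := Nat.pow_le_pow_left h4 4
    _ = 4100625 * m ^ 4 := by ring

theorem design_card {t m : ℕ} {Y : Finset (Fin 8 → ℤ)} (h : IsDesign t m Y) :
    Cubature t m Y (fun v => (((fun _ => (1 : ℤ)) v : ℤ) : ℝ)) := by
  simpa using h.2

theorem design_prod {t m : ℕ} {Y : Finset (Fin 8 → ℤ)} (hY : ∀ v ∈ Y, InShell m v)
    (h : IsDesign t m Y) : bigPrimes (t - 1) ∣ m * Y.card := by
  have h1 := prod_dvd (design_card h) (fun v hv => (hY v hv).1)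
  simp at h1
  exact_mod_cast h1

theorem design_fac {t m : ℕ} {Y : Finset (Fin 8 → ℤ)} (hY : ∀ v ∈ Y, InShell m v)
    (h : IsDesign t m Y) : (t / 2 + 3).factorial ∣ 6 * m ^ (t / 2) * Y.card := by
  have h1 := factorial_dvd (e := t / 2) (by omega) (design_card h) (fun v hv => (hY v hv).1)
  simp at h1
  exact_mod_cast h1

theorem design_fac_coprime {t m : ℕ} {Y : Finset (Fin 8 → ℤ)} (hY : ∀ v ∈ Y, InShell m v)
    (h : IsDesign t m Y) (hc : Nat.Coprime m (t / 2 + 3).factorial) :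
    (t / 2 + 3).factorial ∣ 6 * Y.card := by
  have h1 := design_fac hY h
  have h2 : Nat.Coprime (t / 2 + 3).factorial (m ^ (t / 2)) :=
    Nat.Coprime.pow_right _ hc.symm
  have h3 : (t / 2 + 3).factorial ∣ m ^ (t / 2) * (6 * Y.card) := by
    convert h1 using 1
    ring
  exact h2.dvd_of_dvd_mul_left h3

/-- A linear lower bound for the logarithm of the product of the primes up to `n`. -/
theorem theta_lin : ∃ C : ℝ, ∀ n : ℕ, (5 / 8 : ℝ) * n - C ≤ Chebyshev.theta n := by
  refine ⟨40000000, fun n => ?_⟩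
  have h := Chebyshev.theta_ge n
  have hl2 : (0.6931471803 : ℝ) < Real.log 2 := Real.log_two_gt_d9
  have hn : (0 : ℝ) ≤ n := Nat.cast_nonneg n
  have h1 : Real.log ((n : ℝ) + 1) ≤ 1 / 100 * (n : ℝ) + 100 := by
    have h2 : Real.log (((n : ℝ) + 1) / 100) ≤ ((n : ℝ) + 1) / 100 - 1 :=
      Real.log_le_sub_one_of_pos (by positivity)
    rw [Real.log_div (by positivity) (by norm_num)] at h2
    have h3 : Real.log 100 ≤ 100 - 1 := Real.log_le_sub_one_of_pos (by norm_num)
    linarith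
  have h2 : 2 * Real.sqrt n * Real.log n ≤ 1 / 20 * (n : ℝ) + 32768000 := by
    rcases Nat.eq_zero_or_pos n with h0 | h0
    · subst h0
      simp
    set y : ℝ := (n : ℝ) ^ (1 / 4 : ℝ) with hy
    have hy0 : 0 ≤ y := by positivity
    have hy4 : y ^ 4 = n := by
      rw [hy, ← Real.rpow_natCast, ← Real.rpow_mul hn]
      norm_num
    have hy2 : Real.sqrt n = y ^ 2 := by
      rw [Real.sqrt_eq_rpow, hy, ← Real.rpow_natCast, ← Real.rpow_mul hn]
      norm_num
    have hl : Real.log n ≤ 4 * y := by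
      have := Real.log_le_rpow_div hn (show (0 : ℝ) < 1 / 4 by norm_num)
      rw [← hy] at this
      linarith
    have hn4 : 1 / 20 * (n : ℝ) = 1 / 20 * y ^ 4 := by rw [hy4]
    rw [hy2, hn4]
    have h3 : 2 * y ^ 2 * Real.log n ≤ 8 * y ^ 3 := by
      calc 2 * y ^ 2 * Real.log n ≤ 2 * y ^ 2 * (4 * y) := by gcongr
        _ = 8 * y ^ 3 := by ring
    rcases le_total y 160 with h160 | h160
    · have : y ^ 3 ≤ 160 ^ 3 := by gcongr
      have : 0 ≤ y ^ 4 := by positivity
      linarith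
    · have : y ^ 3 * 160 ≤ y ^ 4 := by
        have : y ^ 4 = y ^ 3 * y := by ring
        rw [this]
        gcongr
      linarith
  nlinarith

theorem strength : ∃ C : ℝ, ∀ (t m : ℕ) (Y : Finset (Fin 8 → ℤ)), 0 < m →
    (∀ v ∈ Y, InShell m v) → IsDesign t m Y → (t : ℝ) ≤ 8 * Real.log m + C := by
  obtain ⟨C, hC⟩ := theta_lin
  refine ⟨8 / 5 * (C + Real.log (210 * 4100625)) + 1, fun t m Y hm hY h => ?_⟩
  have h1 := design_prod hY h
  have hcard : 0 < Y.card := Finset.card_pos.mpr h.1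
  have h2 : bigPrimes (t - 1) ≤ m * (4100625 * m ^ 4) :=
    (Nat.le_of_dvd (Nat.mul_pos hm hcard) h1).trans (Nat.mul_le_mul_left m (card_le hm hY))
  have h3 : primorial (t - 1) ≤ 210 * (m * (4100625 * m ^ 4)) :=
    (primorial_le _).trans (Nat.mul_le_mul_left 210 h2)
  have h4 : Chebyshev.theta ((t - 1 : ℕ) : ℝ) ≤ Real.log (210 * 4100625) + 5 * Real.log m := by
    rw [Chebyshev.theta_eq_log_primorial, Nat.floor_natCast]
    have hm' : (0 : ℝ) < m := by exact_mod_cast hm
    have h5 : Real.log (primorial (t - 1) : ℝ) ≤ Real.log (210 * 4100625 * (m : ℝ) ^ 5) := by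
      apply Real.log_le_log
      · exact_mod_cast primorial_pos _
      · have : ((primorial (t - 1) : ℕ) : ℝ) ≤ ((210 * (m * (4100625 * m ^ 4)) : ℕ) : ℝ) := by
          exact_mod_cast h3
        push_cast at this
        linarith
    rw [Real.log_mul (by norm_num) (by positivity), Real.log_pow] at h5
    push_cast at h5
    exact h5
  have h5 := hC (t - 1)
  have h6 : (t : ℝ) - 1 ≤ ((t - 1 : ℕ) : ℝ) := by
    rcases Nat.eq_zero_or_pos t with h0 | h0
    · subst h0
      simp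
    · rw [Nat.cast_sub h0]
      simp
  generalize Real.log (210 * 4100625) = L at h4 ⊢
  generalize Chebyshev.theta ((t - 1 : ℕ) : ℝ) = T at h4 h5
  linarith

end Pool.Agent.Run7.h330.E8S
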