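import Pool.Agent.Run7.h330.Geo
import Pool.Agent.Run7.h330.Count

/-!
Families of ordinary planes.
-/

set_option autoImplicit false
open Classical

namespace Run7.h330

section fam

variable {V : Type*} [AddCommGroup V] [Module ℝ V]

/-- the ordinary triples -/
noncomputable def ordT (S : Finset V) : Finset (Finset V) :=
  (S.powersetCard 3).filter (fun T => ∀ p ∈ S, p ∈ affineSpan ℝ (T : Set V) → p ∈ T)

def Ord3 (S : Finset V) (a b c : V) : Prop := ∀ p ∈ S, Comb a b c p → p = a ∨ p = b ∨ p = c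

theorem mem_ordT {S : Finset V} {a b c : V} (ha : a ∈ S) (hb : b ∈ S) (hc : c ∈ S)
    (hab : a ≠ b) (hac : a ≠ c) (hbc : b ≠ c) (h : Ord3 S a b c) :
    ({a, b, c} : Finset V) ∈ ordT S := by
  simp only [ordT, Finset.mem_filter, Finset.mem_powersetCard]
  refine ⟨⟨?_, Finset.card_eq_three.mpr ⟨a, b, c, hab, hac, hbc, rfl⟩⟩, ?_⟩
  · intro x hx
    simp only [Finset.mem_insert, Finset.mem_singleton] at hx
    rcases hx with rfl | rfl | rfl <;> assumption
  · intro p hp hpm
    have : ((({a, b, c} : Finset V)) : Set V) = ({a, b, c} : Set V) := by simp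
    rw [this, mem_aff3] at hpm
    have := h p hp hpm
    simpa using this

/-- triples with two points in `A` and one in `B` -/
noncomputable def G1 (S A B : Finset V) : Finset ((V × V) × V) :=
  (A.offDiag ×ˢ B).filter (fun x => Ord3 S x.1.1 x.1.2 x.2)

/-- the underlying set -/
noncomputable def tri (x : (V × V) × V) : Finset V := {x.1.1, x.1.2, x.2}

noncomputable def im1 (S A B : Finset V) : Finset (Finset V) := (G1 S A B).image tri

theorem im1_subset {S A B : Finset V} (hA : A ⊆ S) (hB : B ⊆ S) (hd : Disjoint A B) :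
    im1 S A B ⊆ ordT S := by
  intro T hT
  simp only [im1, Finset.mem_image, G1, Finset.mem_filter, Finset.mem_product,
    Finset.mem_offDiag] at hT
  obtain ⟨x, ⟨⟨⟨h1, h2, h3⟩, h4⟩, h5⟩, rfl⟩ := hT
  refine mem_ordT (hA h1) (hA h2) (hB h4) h3 ?_ ?_ h5
  · rintro h; rw [← h] at h4; exact Finset.disjoint_left.mp hd h1 h4
  · rintro h; rw [← h] at h4; exact Finset.disjoint_left.mp hd h2 h4

theorem tri_filter_left {A B : Finset V} (hd : Disjoint A B) {x : (V × V) × V}
    (h1 : x.1.1 ∈ A) (h2 : x.1.2 ∈ A) (h4 : x.2 ∈ B) :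
    (tri x).filter (· ∈ A) = {x.1.1, x.1.2} := by
  have h5 : x.2 ∉ A := fun h => Finset.disjoint_left.mp hd h h4
  ext y
  simp only [tri, Finset.mem_filter, Finset.mem_insert, Finset.mem_singleton]
  constructor
  · rintro ⟨rfl | rfl | rfl, h⟩
    · exact Or.inl rfl
    · exact Or.inr rfl
    · exact absurd h h5
  · rintro (rfl | rfl)
    · exact ⟨Or.inl rfl, h1⟩
    · exact ⟨Or.inr (Or.inl rfl), h2⟩

theorem tri_filter_right {A B : Finset V} (hd : Disjoint A B) {x : (V × V) × V}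
    (h1 : x.1.1 ∈ A) (h2 : x.1.2 ∈ A) (h4 : x.2 ∈ B) :
    (tri x).filter (· ∈ B) = {x.2} := by
  have h5 : x.1.1 ∉ B := fun h => Finset.disjoint_left.mp hd h1 h
  have h6 : x.1.2 ∉ B := fun h => Finset.disjoint_left.mp hd h2 h
  ext y
  simp only [tri, Finset.mem_filter, Finset.mem_insert, Finset.mem_singleton]
  constructor
  · rintro ⟨rfl | rfl | rfl, h⟩
    · exact absurd h h5
    · exact absurd h h6
    · rfl
  · rintro rfl
    exact ⟨Or.inr (Or.inr rfl), h4⟩

theorem im1_cards {S A B : Finset V} (hd : Disjoint A B) {T : Finset V} (hT : T ∈ im1 S A B) :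
    (T.filter (· ∈ A)).card = 2 ∧ (T.filter (· ∈ B)).card = 1 := by
  simp only [im1, Finset.mem_image, G1, Finset.mem_filter, Finset.mem_product,
    Finset.mem_offDiag] at hT
  obtain ⟨x, ⟨⟨⟨h1, h2, h3⟩, h4⟩, h5⟩, rfl⟩ := hT
  constructor
  · rw [tri_filter_left hd h1 h2 h4, Finset.card_pair h3]
  · rw [tri_filter_right hd h1 h2 h4, Finset.card_singleton]

theorem G1_card_le {S A B : Finset V} (hd : Disjoint A B) :
    (G1 S A B).card ≤ 2 * (im1 S A B).card := by
  refine Finset.card_le_mul_card_image _ 2 ?_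
  intro T hT
  simp only [Finset.mem_image, G1, Finset.mem_filter, Finset.mem_product,
    Finset.mem_offDiag] at hT
  obtain ⟨x, ⟨⟨⟨h1, h2, h3⟩, h4⟩, h5⟩, rfl⟩ := hT
  have hsub : (G1 S A B).filter (fun y => tri y = tri x) ⊆
      {((x.1.1, x.1.2), x.2), ((x.1.2, x.1.1), x.2)} := by
    intro y hy
    simp only [G1, Finset.mem_filter, Finset.mem_product, Finset.mem_offDiag] at hy
    obtain ⟨⟨⟨⟨g1, g2, g3⟩, g4⟩, _⟩, he⟩ := hy
    have e1 : (tri y).filter (· ∈ A) = (tri x).filter (· ∈ A) := by rw [he]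
    have e2 : (tri y).filter (· ∈ B) = (tri x).filter (· ∈ B) := by rw [he]
    rw [tri_filter_left hd g1 g2 g4, tri_filter_left hd h1 h2 h4] at e1
    rw [tri_filter_right hd g1 g2 g4, tri_filter_right hd h1 h2 h4,
      Finset.singleton_inj] at e2
    have m1 : y.1.1 ∈ ({x.1.1, x.1.2} : Finset V) := by rw [← e1]; simp
    have m2 : y.1.2 ∈ ({x.1.1, x.1.2} : Finset V) := by rw [← e1]; simp
    simp only [Finset.mem_insert, Finset.mem_singleton] at m1 m2 ⊢
    obtain ⟨⟨y1, y2⟩, y3⟩ := y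
    simp only at m1 m2 e2 g3 ⊢
    subst e2
    rcases m1 with rfl | rfl <;> rcases m2 with rfl | rfl
    · exact absurd rfl g3
    · exact Or.inl rfl
    · exact Or.inr rfl
    · exact absurd rfl g3
  refine le_trans (Finset.card_le_card hsub) ?_
  exact Finset.card_le_two

/-- quadruples: two points of `A`, two of `B`, coplanar -/
noncomputable def QG (A B : Finset V) : Finset ((V × V) × (V × V)) :=
  (A.offDiag ×ˢ B.offDiag).filter (fun x => Comb x.1.1 x.1.2 x.2.1 x.2.2)

theorem fam_le {S A B : Finset V}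
    (hex : ∀ x ∈ A.offDiag, ∀ b ∈ B, ¬ Ord3 S x.1 x.2 b → ∃ b' ∈ B, b ≠ b' ∧ Comb x.1 x.2 b b') :
    A.offDiag.card * B.card ≤ (G1 S A B).card + (QG A B).card := by
  rw [← Finset.card_product]
  have h1 : (A.offDiag ×ˢ B) = G1 S A B ∪
      (A.offDiag ×ˢ B).filter (fun x => ¬ Ord3 S x.1.1 x.1.2 x.2) :=
    (Finset.filter_union_filter_not_eq _ _).symm
  have h2 : (A.offDiag ×ˢ B).filter (fun x => ¬ Ord3 S x.1.1 x.1.2 x.2) ⊆
      (QG A B).image (fun x => (x.1, x.2.1)) := by
    intro x hx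
    simp only [Finset.mem_filter, Finset.mem_product] at hx
    obtain ⟨b', hb', hne, hc⟩ := hex x.1 hx.1.1 x.2 hx.1.2 hx.2
    simp only [Finset.mem_image, QG, Finset.mem_filter, Finset.mem_product]
    refine ⟨(x.1, (x.2, b')), ⟨⟨hx.1.1, ?_⟩, hc⟩, rfl⟩
    simp only [Finset.mem_offDiag]
    exact ⟨hx.1.2, hb', hne⟩
  rw [h1]
  refine le_trans (Finset.card_union_le _ _) ?_
  exact Nat.add_le_add_left (le_trans (Finset.card_le_card h2) Finset.card_image_le) _

/-- triples with one point in each of `C`, `A`, `B` -/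
noncomputable def im3 (C A B : Finset V) : Finset (Finset V) :=
  (C ×ˢ (A ×ˢ B)).image (fun x => {x.1, x.2.1, x.2.2})

theorem im3_filters {C A B : Finset V} (h1 : Disjoint C A) (h2 : Disjoint C B)
    (h3 : Disjoint A B) {c a b : V} (hc : c ∈ C) (ha : a ∈ A) (hb : b ∈ B) :
    (({c, a, b} : Finset V).filter (· ∈ C) = {c}) ∧ (({c, a, b} : Finset V).filter (· ∈ A) = {a}) ∧
      (({c, a, b} : Finset V).filter (· ∈ B) = {b}) := by
  have e1 : c ∉ A := Finset.disjoint_left.mp h1 hc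
  have e2 : c ∉ B := Finset.disjoint_left.mp h2 hc
  have e3 : a ∉ B := Finset.disjoint_left.mp h3 ha
  have e4 : a ∉ C := Finset.disjoint_right.mp h1 ha
  have e5 : b ∉ C := Finset.disjoint_right.mp h2 hb
  have e6 : b ∉ A := Finset.disjoint_right.mp h3 hb
  refine ⟨?_, ?_, ?_⟩ <;>
  · ext y
    simp only [Finset.mem_filter, Finset.mem_insert, Finset.mem_singleton]
    constructor
    · rintro ⟨rfl | rfl | rfl, h⟩ <;> first | rfl | contradiction
    · rintro rfl
      simp [*]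

theorem im3_card {C A B : Finset V} (h1 : Disjoint C A) (h2 : Disjoint C B)
    (h3 : Disjoint A B) : (im3 C A B).card = C.card * (A.card * B.card) := by
  rw [im3, Finset.card_image_of_injOn, Finset.card_product, Finset.card_product]
  rintro ⟨c, a, b⟩ hx ⟨c', a', b'⟩ hy h
  simp only [Finset.coe_product, Set.mem_prod, Finset.mem_coe] at hx hy
  simp only at h
  obtain ⟨f1, f2, f3⟩ := im3_filters h1 h2 h3 hx.1 hx.2.1 hx.2.2
  obtain ⟨g1, g2, g3⟩ := im3_filters h1 h2 h3 hy.1 hy.2.1 hy.2.2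
  rw [h, g1, Finset.singleton_inj] at f1
  rw [h, g2, Finset.singleton_inj] at f2
  rw [h, g3, Finset.singleton_inj] at f3
  rw [f1, f2, f3]

theorem im3_cards {C A B : Finset V} (h1 : Disjoint C A) (h2 : Disjoint C B)
    (h3 : Disjoint A B) {T : Finset V} (hT : T ∈ im3 C A B) :
    (T.filter (· ∈ A)).card = 1 ∧ (T.filter (· ∈ B)).card = 1 := by
  simp only [im3, Finset.mem_image, Finset.mem_product] at hT
  obtain ⟨⟨c, a, b⟩, ⟨hc, ha, hb⟩, rfl⟩ := hT
  obtain ⟨f1, f2, f3⟩ := im3_filters h1 h2 h3 hc ha hb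
  exact ⟨by rw [f2]; simp, by rw [f3]; simp⟩

end fam

end Run7.h330
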