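import Mathlib

/-!
Numerical inequalities.
-/

set_option autoImplicit false
open Classical

namespace Run7.h330

/-- the value of `e₃(n)` for large `n` -/
noncomputable def EE (n : ℕ) : ℝ :=
  if n % 4 = 0 then (n : ℝ) ^ 2 / 4 - n
  else if n % 4 = 1 then 3 * (n : ℝ) ^ 2 / 8 - n + 5 / 8
  else if n % 4 = 2 then (n : ℝ) ^ 2 / 4 - n / 2
  else 3 * (n : ℝ) ^ 2 / 8 - 3 * n / 2 + 17 / 8

theorem EE_le (n : ℕ) (hn : 3 ≤ n) : EE n ≤ 3 * (n : ℝ) ^ 2 / 8 - n + 5 / 8 := by
  have h : (3 : ℝ) ≤ n := by exact_mod_cast hn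
  unfold EE
  split_ifs <;> nlinarith [sq_nonneg ((n : ℝ) - 2)]

theorem num_rich (k r O : ℕ) (hr : 1 ≤ r) (hk : r + 2 ≤ k)
    (h : (k * k - k) * r ≤ 2 * O + (2 * (k / 2)) * (r * r - r)) : EE (k + r) ≤ O := by
  have h1 : (k * k - k) * r ≤ 2 * O + k * (r * r - r) := by
    refine le_trans h (Nat.add_le_add_left (Nat.mul_le_mul_right _ ?_) _)
    omega
  have hkk : k ≤ k * k := Nat.le_mul_self k
  have hrr : r ≤ r * r := Nat.le_mul_self r
  have h2 : ((k : ℝ) * k - k) * r ≤ 2 * O + k * (r * r - r) := by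
    have := (Nat.cast_le (α := ℝ)).mpr h1
    push_cast [Nat.cast_sub hkk, Nat.cast_sub hrr] at this
    exact this
  have hr' : (1 : ℝ) ≤ r := by exact_mod_cast hr
  rcases Nat.eq_or_lt_of_le hk with hk2 | hk3
  · subst hk2
    push_cast at h2
    have h3 : (r : ℝ) * (r + 2) ≤ O := by nlinarith
    refine le_trans ?_ h3
    unfold EE
    push_cast
    split_ifs with c1 c2 c3
    · nlinarith
    · omega
    · nlinarith
    · omega
  · obtain ⟨e, rfl⟩ : ∃ e, k = r + 3 + e := ⟨k - (r + 3), by omega⟩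
    refine le_trans (EE_le _ (by omega)) ?_
    push_cast at h2 ⊢
    have he : (0 : ℝ) ≤ e := Nat.cast_nonneg e
    have her : 0 ≤ (e : ℝ) * (r - 1) := mul_nonneg he (by linarith)
    have heer : 0 ≤ (e : ℝ) * e * (r - 1) := mul_nonneg (mul_nonneg he he) (by linarith)
    have herr : 0 ≤ (e : ℝ) * (r * r) := mul_nonneg he (by nlinarith)
    nlinarith

theorem num_two (a b c N O : ℕ)
    (H : (a * a - a) * b + (b * b - b) * a + 2 * (c * (a * b)) +
      (if a + c = 3 then 2 else 0) ≤ 2 * O + 2 * N)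
    (h1 : N ≤ (2 * (a / 2)) * (b * b - b))
    (h2 : 3 ≤ a → Even a → N ≤ (a - 2) * (b * b - b) + a * (2 * (b / 2)))
    (hn : 4 ≤ a + b + c)
    (hc : (c = 0 ∧ (a = b ∨ a = b + 1)) ∨ (c = 1 ∧ a = b)) : EE (a + b + c) ≤ O := by
  have haa : a ≤ a * a := Nat.le_mul_self a
  have hbb : b ≤ b * b := Nat.le_mul_self b
  rcases hc with ⟨rfl, rfl | rfl⟩ | ⟨rfl, rfl⟩
  · -- a = b
    have H' : ((a : ℝ) * a - a) * a + ((a : ℝ) * a - a) * a ≤ 2 * O + 2 * N := by
      have h0 : (a * a - a) * a + (a * a - a) * a ≤ 2 * O + 2 * N := by omega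
      have := (Nat.cast_le (α := ℝ)).mpr h0
      push_cast [Nat.cast_sub haa] at this
      exact this
    rcases Nat.even_or_odd a with he | ho
    · by_cases h3 : 3 ≤ a
      · have h4 := h2 h3 he
        obtain ⟨m, rfl⟩ := he
        have h5 : 2 * ((m + m) / 2) = m + m := by omega
        rw [h5] at h4
        have h6 : (N : ℝ) ≤ (m + m - 2) * ((m + m) * (m + m) - (m + m)) + (m + m) * (m + m) := by
          have := (Nat.cast_le (α := ℝ)).mpr h4
          push_cast [Nat.cast_sub haa, Nat.cast_sub (by omega : 2 ≤ m + m)] at this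
          exact this
        have h7 : EE (m + m + (m + m) + 0) = ((m + m + (m + m) : ℕ) : ℝ) ^ 2 / 4 -
            ((m + m + (m + m) : ℕ) : ℝ) := by
          unfold EE
          rw [if_pos (by omega)]
          push_cast; ring
        rw [h7]
        push_cast at H' ⊢
        nlinarith
      · have : a = 2 := by omega
        subst this
        have h7 : EE (2 + 2 + 0) = 0 := by
          unfold EE
          norm_num
        rw [h7]
        exact Nat.cast_nonneg O
    · obtain ⟨m, rfl⟩ := ho
      have h5 : 2 * ((2 * m + 1) / 2) = 2 * m := by omega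
      rw [h5] at h1
      have h6 : (N : ℝ) ≤ (2 * m) * ((2 * m + 1) * (2 * m + 1) - (2 * m + 1)) := by
        have := (Nat.cast_le (α := ℝ)).mpr h1
        push_cast [Nat.cast_sub haa] at this
        exact this
      have h7 : EE (2 * m + 1 + (2 * m + 1) + 0) =
          ((2 * m + 1 + (2 * m + 1) : ℕ) : ℝ) ^ 2 / 4 -
          ((2 * m + 1 + (2 * m + 1) : ℕ) : ℝ) / 2 := by
        unfold EE
        rw [if_neg (by omega), if_neg (by omega), if_pos (by omega)]
        push_cast; ring
      rw [h7]
      push_cast at H' ⊢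
      nlinarith
  · -- a = b + 1
    have H' : (((b : ℝ) + 1) * (b + 1) - (b + 1)) * b + ((b : ℝ) * b - b) * (b + 1) ≤
        2 * O + 2 * N := by
      have h0 : ((b + 1) * (b + 1) - (b + 1)) * b + (b * b - b) * (b + 1) ≤ 2 * O + 2 * N := by
        omega
      have := (Nat.cast_le (α := ℝ)).mpr h0
      push_cast [Nat.cast_sub haa, Nat.cast_sub hbb] at this
      exact this
    rcases Nat.even_or_odd b with he | ho
    · obtain ⟨m, rfl⟩ := he
      have h5 : 2 * ((m + m + 1) / 2) = m + m := by omega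
      rw [h5] at h1
      have h6 : (N : ℝ) ≤ (m + m) * ((m + m) * (m + m) - (m + m)) := by
        have := (Nat.cast_le (α := ℝ)).mpr h1
        push_cast [Nat.cast_sub hbb] at this
        exact this
      have h7 : EE (m + m + 1 + (m + m) + 0) =
          3 * ((m + m + 1 + (m + m) : ℕ) : ℝ) ^ 2 / 8 - ((m + m + 1 + (m + m) : ℕ) : ℝ) + 5 / 8 := by
        unfold EE
        rw [if_neg (by omega), if_pos (by omega)]
        push_cast; ring
      rw [h7]
      push_cast at H' ⊢
      nlinarith
    · have h4 := h2 (by omega) (by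
        obtain ⟨m, rfl⟩ := ho
        exact ⟨m + 1, by ring⟩)
      obtain ⟨m, rfl⟩ := ho
      have h5 : 2 * ((2 * m + 1) / 2) = 2 * m := by omega
      have h5' : 2 * m + 1 + 1 - 2 = 2 * m := by omega
      rw [h5, h5'] at h4
      have h6 : (N : ℝ) ≤ (2 * m) * ((2 * m + 1) * (2 * m + 1) - (2 * m + 1)) +
          (2 * m + 1 + 1) * (2 * m) := by
        have := (Nat.cast_le (α := ℝ)).mpr h4
        push_cast [Nat.cast_sub hbb] at this
        exact this
      have h7 : EE (2 * m + 1 + 1 + (2 * m + 1) + 0) =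
          3 * ((2 * m + 1 + 1 + (2 * m + 1) : ℕ) : ℝ) ^ 2 / 8 -
            3 * ((2 * m + 1 + 1 + (2 * m + 1) : ℕ) : ℝ) / 2 + 17 / 8 := by
        unfold EE
        rw [if_neg (by omega), if_neg (by omega), if_neg (by omega)]
        push_cast; ring
      rw [h7]
      push_cast at H' ⊢
      nlinarith
  · -- c = 1
    by_cases ha2 : a = 2
    · subst ha2
      norm_num at H h1
      have h7 : EE (2 + 2 + 1) = 5 := by
        unfold EE
        norm_num
      rw [h7]
      have : 5 ≤ O := by omega
      exact_mod_cast this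
    · have H' : ((a : ℝ) * a - a) * a + ((a : ℝ) * a - a) * a + 2 * (a * a) ≤ 2 * O + 2 * N := by
        have h0 : (a * a - a) * a + (a * a - a) * a + 2 * (a * a) ≤ 2 * O + 2 * N := by
          have : 2 * (1 * (a * a)) = 2 * (a * a) := by ring
          rw [this] at H
          omega
        have := (Nat.cast_le (α := ℝ)).mpr h0
        push_cast [Nat.cast_sub haa] at this
        exact this
      rcases Nat.even_or_odd a with he | ho
      · have h4 := h2 (by obtain ⟨m, rfl⟩ := he; omega) he
        obtain ⟨m, rfl⟩ := he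
        have h5 : 2 * ((m + m) / 2) = m + m := by omega
        rw [h5] at h4
        have h6 : (N : ℝ) ≤ (m + m - 2) * ((m + m) * (m + m) - (m + m)) + (m + m) * (m + m) := by
          have := (Nat.cast_le (α := ℝ)).mpr h4
          push_cast [Nat.cast_sub haa, Nat.cast_sub (by omega : 2 ≤ m + m)] at this
          exact this
        have h7 : EE (m + m + (m + m) + 1) =
            3 * ((m + m + (m + m) + 1 : ℕ) : ℝ) ^ 2 / 8 - ((m + m + (m + m) + 1 : ℕ) : ℝ) + 5 / 8 := by
          unfold EE
          rw [if_neg (by omega), if_pos (by omega)]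
        rw [h7]
        have hm : (2 : ℝ) ≤ m := by
          have : 2 ≤ m := by omega
          exact_mod_cast this
        push_cast at H' ⊢
        nlinarith
      · obtain ⟨m, rfl⟩ := ho
        have h5 : 2 * ((2 * m + 1) / 2) = 2 * m := by omega
        rw [h5] at h1
        have h6 : (N : ℝ) ≤ (2 * m) * ((2 * m + 1) * (2 * m + 1) - (2 * m + 1)) := by
          have := (Nat.cast_le (α := ℝ)).mpr h1
          push_cast [Nat.cast_sub haa] at this
          exact this
        have h7 : EE (2 * m + 1 + (2 * m + 1) + 1) =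
            3 * ((2 * m + 1 + (2 * m + 1) + 1 : ℕ) : ℝ) ^ 2 / 8 -
              3 * ((2 * m + 1 + (2 * m + 1) + 1 : ℕ) : ℝ) / 2 + 17 / 8 := by
          unfold EE
          rw [if_neg (by omega), if_neg (by omega), if_neg (by omega)]
        rw [h7]
        have hm : (0 : ℝ) ≤ m := Nat.cast_nonneg m
        push_cast at H' ⊢
        nlinarith

end Run7.h330
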