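import Pool.Agent.Run7.h330.Main
import Pool.Agent.Run7.h330.Num

/-!
Assembly: sets in two planes, and sets with a rich plane.
-/

set_option autoImplicit false
open Classical

namespace Run7.h330

section fin

variable {V : Type*} [AddCommGroup V] [Module ℝ V]

theorem exists_ev (hV : Module.finrank ℝ V = 3) {s : Set V} (h : Coplanar ℝ s) :
    ∃ φ : V →ₗ[ℝ] ℝ, φ ≠ 0 ∧ ∃ c, ∀ p ∈ s, ev φ c p = 0 := by
  haveI : FiniteDimensional ℝ V := FiniteDimensional.of_finrank_pos (by omega)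
  have h2 : Module.finrank ℝ (vectorSpan ℝ s) ≤ 2 := coplanar_iff_finrank_le_two.mp h
  have hlt : vectorSpan ℝ s < ⊤ := by
    refine lt_top_iff_ne_top.mpr ?_
    intro ht
    rw [ht, finrank_top, hV] at h2
    omega
  obtain ⟨φ, hφ, hker⟩ := Submodule.exists_le_ker_of_lt_top _ hlt
  refine ⟨φ, hφ, ?_⟩
  rcases s.eq_empty_or_nonempty with rfl | ⟨p0, hp0⟩
  · exact ⟨0, by simp⟩
  · refine ⟨φ p0, fun p hp => ?_⟩
    have : p -ᵥ p0 ∈ vectorSpan ℝ s := vsub_mem_vectorSpan ℝ hp hp0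
    have := hker this
    rw [LinearMap.mem_ker, vsub_eq_sub, map_sub] at this
    exact this

theorem coplanar_of_ev (hV : Module.finrank ℝ V = 3) {s : Set V} {φ : V →ₗ[ℝ] ℝ} (hφ : φ ≠ 0)
    {c : ℝ} (h : ∀ p ∈ s, ev φ c p = 0) : Coplanar ℝ s := by
  haveI : FiniteDimensional ℝ V := FiniteDimensional.of_finrank_pos (by omega)
  rw [coplanar_iff_finrank_le_two]
  have hle : vectorSpan ℝ s ≤ LinearMap.ker φ := by
    rw [vectorSpan, Submodule.span_le]
    rintro x ⟨p, hp, q, hq, rfl⟩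
    have h1 := h p hp
    have h2 := h q hq
    simp only [ev] at h1 h2
    simp only [SetLike.mem_coe, LinearMap.mem_ker, vsub_eq_sub, map_sub]
    linarith
  have h1 := Submodule.finrank_mono hle
  have h2 := LinearMap.finrank_range_add_finrank_ker φ
  have h3 : 1 ≤ Module.finrank ℝ (LinearMap.range φ) := by
    rw [Nat.one_le_iff_ne_zero]
    intro h0
    rw [Submodule.finrank_eq_zero, LinearMap.range_eq_bot] at h0
    exact hφ h0
  omega

theorem exists_Psi (hV : Module.finrank ℝ V = 3) {φ γ : V →ₗ[ℝ] ℝ} {c e : ℝ} {a b : V}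
    (hFa : ev φ c a = 0) (hGa : ev γ e a ≠ 0) (hGb : ev γ e b = 0) (hFb : ev φ c b ≠ 0) :
    ∃ Ψ : (V × ℝ) →ₗ[ℝ] (ℝ × ℝ), ∀ w, hom φ c w = 0 → hom γ e w = 0 → Ψ w = 0 → w = 0 := by
  haveI : FiniteDimensional ℝ V := FiniteDimensional.of_finrank_pos (by omega)
  set L : (V × ℝ) →ₗ[ℝ] (ℝ × ℝ) := (hom φ c).prod (hom γ e) with hL
  have hr : LinearMap.range L = ⊤ := by
    rw [LinearMap.range_eq_top]
    rintro ⟨x, y⟩
    refine ⟨(x / ev φ c b) • (b, (1:ℝ)) + (y / ev γ e a) • (a, (1:ℝ)), ?_⟩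
    refine Prod.ext ?_ ?_
    · change hom φ c ((x / ev φ c b) • (b, (1:ℝ)) + (y / ev γ e a) • (a, (1:ℝ))) = x
      rw [map_add, map_smul, map_smul, hom_one, hom_one, hFa]
      simp only [smul_eq_mul, mul_zero, add_zero]
      field_simp
    · change hom γ e ((x / ev φ c b) • (b, (1:ℝ)) + (y / ev γ e a) • (a, (1:ℝ))) = y
      rw [map_add, map_smul, map_smul, hom_one, hom_one, hGb]
      simp only [smul_eq_mul, mul_zero, zero_add]
      field_simp
  have h1 := LinearMap.finrank_range_add_finrank_ker L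
  rw [hr, finrank_top] at h1
  have h2 : Module.finrank ℝ (ℝ × ℝ) = 2 := by simp
  have h3 : Module.finrank ℝ (V × ℝ) = 4 := by
    rw [Module.finrank_prod, hV]; simp
  have h4 : Module.finrank ℝ (LinearMap.ker L) = Module.finrank ℝ (ℝ × ℝ) := by omega
  let ee : LinearMap.ker L ≃ₗ[ℝ] (ℝ × ℝ) := LinearEquiv.ofFinrankEq _ _ h4
  obtain ⟨Ψ, hΨ⟩ := LinearMap.exists_extend (ee : LinearMap.ker L →ₗ[ℝ] (ℝ × ℝ))
  refine ⟨Ψ, ?_⟩
  intro w hw1 hw2 hw3
  have hw : w ∈ LinearMap.ker L := by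
    rw [LinearMap.mem_ker, hL]
    exact Prod.ext hw1 hw2
  have h5 : ee ⟨w, hw⟩ = 0 := by
    have := LinearMap.congr_fun hΨ ⟨w, hw⟩
    simp only [LinearMap.comp_apply, Submodule.subtype_apply] at this
    rw [hw3] at this
    exact this.symm
  have h6 : (⟨w, hw⟩ : LinearMap.ker L) = 0 := by
    rwa [LinearEquiv.map_eq_zero_iff] at h5
  exact congrArg Subtype.val h6

theorem card_ge_four (hV : Module.finrank ℝ V = 3) {S : Finset V}
    (hS : ¬ Coplanar ℝ (S : Set V)) : 4 ≤ S.card := by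
  haveI : FiniteDimensional ℝ V := FiniteDimensional.of_finrank_pos (by omega)
  by_contra hlt
  apply hS
  rw [coplanar_iff_finrank_le_two]
  rcases S.eq_empty_or_nonempty with rfl | hne
  · rw [Finset.coe_empty, vectorSpan_empty]
    simp
  · have h0 : 0 < S.card := Finset.card_pos.mpr hne
    have h1 := finrank_vectorSpan_image_finset_le ℝ (id : V → V) S (n := S.card - 1) (by omega)
    rw [Finset.image_id] at h1
    omega

theorem rich_final (hV : Module.finrank ℝ V = 3) {S : Finset V}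
    (hS : ¬ Coplanar ℝ (S : Set V)) (hNC : NC S) {φ : V →ₗ[ℝ] ℝ} (hφ : φ ≠ 0) {c : ℝ}
    (hk : (S.filter (fun p => ev φ c p ≠ 0)).card + 2 ≤ (S.filter (fun p => ev φ c p = 0)).card) :
    EE S.card ≤ (ordT S).card := by
  have h1 := rich hNC φ c
  rw [Finset.offDiag_card, Finset.offDiag_card] at h1
  have h2 : (S.filter (fun p => ev φ c p = 0)).card + (S.filter (fun p => ev φ c p ≠ 0)).card =
      S.card := Finset.card_filter_add_card_filter_not _
  rw [← h2]
  refine num_rich _ _ _ ?_ hk h1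
  rw [Nat.one_le_iff_ne_zero]
  intro h0
  apply hS
  refine coplanar_of_ev hV hφ (c := c) ?_
  intro p hp
  by_contra hne
  rw [Finset.card_eq_zero, Finset.filter_eq_empty_iff] at h0
  exact h0 hp hne

theorem two_final_aux (hV : Module.finrank ℝ V = 3) {S : Finset V}
    (hS : ¬ Coplanar ℝ (S : Set V)) (hNC : NC S) {φ γ : V →ₗ[ℝ] ℝ} (hφ : φ ≠ 0)
    {c e : ℝ} (hcov : ∀ p ∈ S, ev φ c p = 0 ∨ ev γ e p = 0)
    (hle : (S.filter (fun p => ev γ e p = 0)).card ≤ (S.filter (fun p => ev φ c p = 0)).card) :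
    EE S.card ≤ (ordT S).card := by
  by_cases hk : (S.filter (fun p => ev φ c p ≠ 0)).card + 2 ≤
      (S.filter (fun p => ev φ c p = 0)).card
  · exact rich_final hV hS hNC hφ hk
  set A := S.filter (fun p => ev φ c p = 0 ∧ ev γ e p ≠ 0) with hA
  set B := S.filter (fun p => ev γ e p = 0 ∧ ev φ c p ≠ 0) with hB
  set C := S.filter (fun p => ev φ c p = 0 ∧ ev γ e p = 0) with hC
  have hFA : ∀ a ∈ A, ev φ c a = 0 ∧ ev γ e a ≠ 0 := fun a ha => (Finset.mem_filter.mp ha).2
  have hFB : ∀ b ∈ B, ev γ e b = 0 ∧ ev φ c b ≠ 0 := fun a ha => (Finset.mem_filter.mp ha).2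
  have hFC : ∀ b ∈ C, ev φ c b = 0 ∧ ev γ e b = 0 := fun a ha => (Finset.mem_filter.mp ha).2
  have dAC : Disjoint A C := by
    rw [Finset.disjoint_left]; intro x h1 h2
    exact (hFA x h1).2 (hFC x h2).2
  have dBC : Disjoint B C := by
    rw [Finset.disjoint_left]; intro x h1 h2
    exact (hFB x h1).2 (hFC x h2).1
  have eF : S.filter (fun p => ev φ c p = 0) = A ∪ C := by
    ext x
    simp only [hA, hC, Finset.mem_union, Finset.mem_filter]
    tauto
  have eG : S.filter (fun p => ev γ e p = 0) = B ∪ C := by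
    ext x
    simp only [hB, hC, Finset.mem_union, Finset.mem_filter]
    tauto
  have eFn : S.filter (fun p => ev φ c p ≠ 0) = B := by
    ext x
    simp only [hB, Finset.mem_filter]
    constructor
    · rintro ⟨h1, h2⟩
      exact ⟨h1, (hcov x h1).resolve_left h2, h2⟩
    · rintro ⟨h1, _, h2⟩
      exact ⟨h1, h2⟩
  have cF : (S.filter (fun p => ev φ c p = 0)).card = A.card + C.card := by
    rw [eF, Finset.card_union_of_disjoint dAC]
  have cG : (S.filter (fun p => ev γ e p = 0)).card = B.card + C.card := by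
    rw [eG, Finset.card_union_of_disjoint dBC]
  have cS : S.card = A.card + B.card + C.card := by
    have h2 : (S.filter (fun p => ev φ c p = 0)).card +
        (S.filter (fun p => ev φ c p ≠ 0)).card = S.card := Finset.card_filter_add_card_filter_not _
    rw [cF, eFn] at h2
    omega
  rw [eFn, cF] at hk
  rw [cF, cG] at hle
  have h4 := card_ge_four hV hS
  rw [cS] at h4
  have hAne : A.Nonempty := by
    rw [← Finset.card_pos]; omega
  have hBne : B.Nonempty := by
    rw [Finset.nonempty_iff_ne_empty]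
    intro h0
    apply hS
    refine coplanar_of_ev hV hφ (c := c) ?_
    intro p hp
    by_contra hne
    have : p ∈ B := by
      rw [← eFn]
      exact Finset.mem_filter.mpr ⟨hp, hne⟩
    rw [h0] at this
    simp at this
  obtain ⟨a0, ha0⟩ := hAne
  obtain ⟨b0, hb0⟩ := hBne
  obtain ⟨Ψ, hΨ⟩ := exists_Psi hV (hFA a0 ha0).1 (hFA a0 ha0).2 (hFB b0 hb0).1 (hFB b0 hb0).2
  have hcore := two_core hNC hΨ hcov hA hB hC
  have gA : GP A (pc Ψ γ e) := pc_gp hΨ hNC (Finset.filter_subset _ _)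
    (fun a ha => (hFA a ha).1) (fun a ha => (hFA a ha).2)
  have gB : GP B (pc Ψ φ c) := pc_gp (φ := γ) (γ := φ) (c := e) (e := c)
    (fun w h1 h2 h3 => hΨ w h2 h1 h3) hNC (Finset.filter_subset _ _)
    (fun a ha => (hFB a ha).1) (fun a ha => (hFB a ha).2)
  have q1 := card_Qd_le gA gB
  have q2 := card_Qd_le_refined (A := A) (B := B) gA gB
  rw [Finset.offDiag_card] at q1
  rw [Finset.offDiag_card, Finset.offDiag_card, Finset.card_union_of_disjoint dAC] at hcore
  rw [cS]
  refine num_two A.card B.card C.card (Qd A B (pc Ψ γ e) (pc Ψ φ c)).card _ hcore q1 ?_ h4 ?_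
  · intro h3 hev
    have := q2 h3 hev
    rwa [Finset.offDiag_card] at this
  · omega

theorem final_two (hV : Module.finrank ℝ V = 3) (S : Finset V)
    (hS : ¬ Coplanar ℝ (S : Set V))
    (h3 : ∀ T ⊆ S, T.card = 3 → ¬ Collinear ℝ (T : Set V))
    (A B : Set V) (hA : Coplanar ℝ A) (hB : Coplanar ℝ B) (hAB : (S : Set V) ⊆ A ∪ B) :
    EE S.card ≤ (ordT S).card := by
  have hNC := NC_of h3
  obtain ⟨φ, hφ, c, hc⟩ := exists_ev hV hA
  obtain ⟨γ, hγ, e, he⟩ := exists_ev hV hB
  have hcov : ∀ p ∈ S, ev φ c p = 0 ∨ ev γ e p = 0 := by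
    intro p hp
    rcases hAB (Finset.mem_coe.mpr hp) with h | h
    · exact Or.inl (hc p h)
    · exact Or.inr (he p h)
  rcases le_total (S.filter (fun p => ev γ e p = 0)).card
    (S.filter (fun p => ev φ c p = 0)).card with hle | hle
  · exact two_final_aux hV hS hNC hφ hcov hle
  · exact two_final_aux hV hS hNC hγ (fun p hp => (hcov p hp).symm) hle

theorem final_rich (hV : Module.finrank ℝ V = 3) (S : Finset V)
    (hS : ¬ Coplanar ℝ (S : Set V))
    (h3 : ∀ T ⊆ S, T.card = 3 → ¬ Collinear ℝ (T : Set V))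
    (A : Finset V) (hAS : A ⊆ S) (hA : Coplanar ℝ (A : Set V)) (hc : S.card + 2 ≤ 2 * A.card) :
    EE S.card ≤ (ordT S).card := by
  have hNC := NC_of h3
  obtain ⟨φ, hφ, c, hev⟩ := exists_ev hV hA
  refine rich_final hV hS hNC hφ (c := c) ?_
  have h1 : A ⊆ S.filter (fun p => ev φ c p = 0) := by
    intro p hp
    exact Finset.mem_filter.mpr ⟨hAS hp, hev p (Finset.mem_coe.mpr hp)⟩
  have h2 := Finset.card_le_card h1
  have h4 : (S.filter (fun p => ev φ c p = 0)).card +
      (S.filter (fun p => ev φ c p ≠ 0)).card = S.card := Finset.card_filter_add_card_filter_not _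
  omega

end fin

end Run7.h330
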