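import Pool.Agent.Run7.h330.Planar

/-!
Elementary affine geometry used in the count of ordinary planes.
-/

set_option autoImplicit false
open Classical

namespace Run7.h330

section aff

variable {V : Type*} [AddCommGroup V] [Module ℝ V]

/-- `p` is an affine combination of `a, b, c` -/
def Comb (a b c p : V) : Prop := ∃ x y z : ℝ, x + y + z = 1 ∧ p = x • a + y • b + z • c

theorem mem_aff3 (a b c p : V) : p ∈ affineSpan ℝ ({a, b, c} : Set V) ↔ Comb a b c p := by
  have hb : b ∈ affineSpan ℝ ({b, c} : Set V) := mem_affineSpan ℝ (by simp)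
  rw [← affineSpan_insert_affineSpan, AffineSubspace.mem_affineSpan_insert_iff hb]
  constructor
  · rintro ⟨r, p0, hp0, rfl⟩
    rw [mem_affineSpan_pair_iff_exists_lineMap_eq] at hp0
    obtain ⟨t, rfl⟩ := hp0
    refine ⟨r, 1 - t - r, t, by ring, ?_⟩
    simp only [AffineMap.lineMap_apply, vsub_eq_sub, vadd_eq_add]
    module
  · rintro ⟨x, y, z, h, rfl⟩
    refine ⟨x, AffineMap.lineMap b c z, AffineMap.lineMap_mem_affineSpan_pair z b c, ?_⟩
    simp only [AffineMap.lineMap_apply, vsub_eq_sub, vadd_eq_add]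
    have : y = 1 - x - z := by linarith
    subst this
    module

theorem Comb.swap12 {a b c p : V} (h : Comb a b c p) : Comb b a c p := by
  obtain ⟨x, y, z, h1, rfl⟩ := h
  exact ⟨y, x, z, by linarith, by module⟩

theorem Comb.rot {a b c p : V} (h : Comb a b c p) : Comb b c a p := by
  obtain ⟨x, y, z, h1, rfl⟩ := h
  exact ⟨y, z, x, by linarith, by module⟩

/-- no three points of `S` on a line -/
def NC (S : Finset V) : Prop := ∀ a ∈ S, ∀ b ∈ S, ∀ c ∈ S, a ≠ b → a ≠ c → b ≠ c →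
  ∀ t : ℝ, c - a ≠ t • (b - a)

theorem NC_of {S : Finset V} (h : ∀ T ⊆ S, T.card = 3 → ¬ Collinear ℝ (T : Set V)) : NC S := by
  intro a ha b hb c hc hab hac hbc t ht
  refine h {a, b, c} ?_ (Finset.card_eq_three.mpr ⟨a, b, c, hab, hac, hbc, rfl⟩) ?_
  · intro x hx
    simp only [Finset.mem_insert, Finset.mem_singleton] at hx
    rcases hx with rfl | rfl | rfl <;> assumption
  · rw [collinear_iff_of_mem (p₀ := a) (by simp)]
    refine ⟨b - a, ?_⟩
    intro p hp
    simp only [Finset.coe_insert, Finset.coe_singleton, Set.mem_insert_iff,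
      Set.mem_singleton_iff] at hp
    rcases hp with rfl | rfl | rfl
    · exact ⟨0, by simp⟩
    · exact ⟨1, by simp⟩
    · refine ⟨t, ?_⟩
      rw [← ht]
      simp

/-- affine functional -/
def ev (φ : V →ₗ[ℝ] ℝ) (c : ℝ) (p : V) : ℝ := φ p - c

theorem ev_comb (φ : V →ₗ[ℝ] ℝ) (c : ℝ) {a b d : V} {x y z : ℝ} (h : x + y + z = 1) :
    ev φ c (x • a + y • b + z • d) = x * ev φ c a + y * ev φ c b + z * ev φ c d := by
  have hz : z = 1 - x - y := by linarith
  subst hz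
  simp only [ev, map_add, map_smul, smul_eq_mul]
  ring

theorem onLine {a b p : V} {x y : ℝ} (h : x + y = 1) (hp : p = x • a + y • b) :
    p - a = y • (b - a) := by
  have : x = 1 - y := by linarith
  subst this
  subst hp
  module

variable {S : Finset V} (hS : NC S) {φ : V →ₗ[ℝ] ℝ} {c : ℝ}

include hS in
/-- a plane through two points of `π` and one point off `π` has no third point on `π` -/
theorem in_plane {a a' b p : V} (ha : a ∈ S) (ha' : a' ∈ S) (haa : a ≠ a')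
    (hFa : ev φ c a = 0) (hFa' : ev φ c a' = 0) (hFb : ev φ c b ≠ 0) (hp : p ∈ S)
    (hFp : ev φ c p = 0) (h : Comb a a' b p) : p = a ∨ p = a' := by
  by_contra hne
  push Not at hne
  obtain ⟨x, y, z, h1, h2⟩ := h
  have h3 := ev_comb φ c (a := a) (b := a') (d := b) h1
  rw [← h2, hFa, hFa', hFp] at h3
  have hz : z = 0 := by
    have : z * ev φ c b = 0 := by linarith
    rcases mul_eq_zero.mp this with h | h
    · exact h
    · exact absurd h hFb
  subst hz
  rw [zero_smul, add_zero] at h2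
  exact hS a ha a' ha' p hp haa (Ne.symm hne.1) (Ne.symm hne.2) y
    (onLine (by linarith) h2)

include hS in
/-- for two points off `π` the coplanar pairs in `π` are disjoint -/
theorem pair_unique {a u v b b' : V} (ha : a ∈ S) (hu : u ∈ S) (hv : v ∈ S)
    (hb : b ∈ S) (hb' : b' ∈ S) (hbb : b ≠ b') (hFa : ev φ c a = 0) (hFu : ev φ c u = 0)
    (hFv : ev φ c v = 0) (hFb : ev φ c b ≠ 0) (hFb' : ev φ c b' ≠ 0) (hau : a ≠ u)
    (hav : a ≠ v) (h1 : Comb a u b b') (h2 : Comb a v b b') : u = v := by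
  by_contra huv
  obtain ⟨x, y, z, h3, h4⟩ := h1
  obtain ⟨x', y', z', h5, h6⟩ := h2
  have e1 := ev_comb φ c (a := a) (b := u) (d := b) h3
  have e2 := ev_comb φ c (a := a) (b := v) (d := b) h5
  rw [← h4, hFa, hFu] at e1
  rw [← h6, hFa, hFv] at e2
  have hz : z = z' := by
    have : (z - z') * ev φ c b = 0 := by linarith
    rcases mul_eq_zero.mp this with h | h
    · linarith
    · exact absurd h hFb
  subst hz
  have hab : a ≠ b := by
    rintro rfl; exact hFb hFa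
  have hab' : a ≠ b' := by
    rintro rfl; exact hFb' hFa
  have hy : y ≠ 0 := by
    rintro rfl
    rw [zero_smul, add_zero] at h4
    exact hS a ha b hb b' hb' hab hab' hbb z (onLine (by linarith) h4)
  have h7 : y • (u - a) = y' • (v - a) := by
    have hx : x = 1 - y - z := by linarith
    have hx' : x' = 1 - y' - z := by linarith
    subst hx hx'
    have h8 := h4.symm.trans h6
    have h9 : y • (u - a) - y' • (v - a) = 0 := by
      have h10 := sub_eq_zero.mpr h8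
      rw [← h10]
      module
    exact sub_eq_zero.mp h9
  have h8 : u - a = (y⁻¹ * y') • (v - a) := by
    rw [mul_smul, ← h7, smul_smul, inv_mul_cancel₀ hy, one_smul]
  exact hS a ha v hv u hu hav hau (Ne.symm huv) _ h8

end aff

section two

variable {V : Type*} [AddCommGroup V] [Module ℝ V]

/-- homogenised functional -/
def hom (φ : V →ₗ[ℝ] ℝ) (c : ℝ) : (V × ℝ) →ₗ[ℝ] ℝ :=
  φ.comp (LinearMap.fst ℝ V ℝ) - c • (LinearMap.snd ℝ V ℝ)

theorem hom_apply (φ : V →ₗ[ℝ] ℝ) (c : ℝ) (p : V) (t : ℝ) : hom φ c (p, t) = φ p - c * t := by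
  simp [hom]

theorem hom_one (φ : V →ₗ[ℝ] ℝ) (c : ℝ) (p : V) : hom φ c (p, 1) = ev φ c p := by
  simp [hom, ev]

/-- planar coordinates -/
noncomputable def pc (Ψ : (V × ℝ) →ₗ[ℝ] (ℝ × ℝ)) (γ : V →ₗ[ℝ] ℝ) (e : ℝ) (p : V) : ℝ × ℝ :=
  (ev γ e p)⁻¹ • Ψ (p, 1)

variable {φ γ : V →ₗ[ℝ] ℝ} {c e : ℝ} {Ψ : (V × ℝ) →ₗ[ℝ] (ℝ × ℝ)}
  (hΨ : ∀ w, hom φ c w = 0 → hom γ e w = 0 → Ψ w = 0 → w = 0)

include hΨ in
theorem pc_inj {a a' : V} (hFa : ev φ c a = 0) (hFa' : ev φ c a' = 0) (hGa : ev γ e a ≠ 0)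
    (hGa' : ev γ e a' ≠ 0) (h : pc Ψ γ e a = pc Ψ γ e a') : a = a' := by
  have h1 := hΨ ((ev γ e a)⁻¹ • (a, (1:ℝ)) - (ev γ e a')⁻¹ • (a', (1:ℝ))) ?_ ?_ ?_
  · have h2 := congrArg Prod.snd h1
    have h3 := congrArg Prod.fst h1
    simp only [Prod.snd_sub, Prod.smul_snd, smul_eq_mul, mul_one, Prod.snd_zero] at h2
    simp only [Prod.fst_sub, Prod.smul_fst, Prod.fst_zero] at h3
    have h4 : (ev γ e a)⁻¹ = (ev γ e a')⁻¹ := by linarith
    rw [h4, ← smul_sub] at h3
    rcases smul_eq_zero.mp h3 with h5 | h5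
    · exact absurd (inv_eq_zero.mp h5) hGa'
    · exact sub_eq_zero.mp h5
  · rw [map_sub, map_smul, map_smul, hom_one, hom_one, hFa, hFa']; simp
  · rw [map_sub, map_smul, map_smul, hom_one, hom_one]
    simp only [smul_eq_mul]
    rw [inv_mul_cancel₀ hGa, inv_mul_cancel₀ hGa', sub_self]
  · rw [map_sub, map_smul, map_smul]
    exact sub_eq_zero.mpr h

include hΨ in
theorem pc_gp {A : Finset V} {S : Finset V} (hS : NC S) (hAS : A ⊆ S)
    (hF : ∀ a ∈ A, ev φ c a = 0) (hG : ∀ a ∈ A, ev γ e a ≠ 0) : GP A (pc Ψ γ e) := by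
  refine ⟨?_, ?_⟩
  · intro u hu v hv huv h
    exact huv (pc_inj hΨ (hF u hu) (hF v hv) (hG u hu) (hG v hv) h)
  · intro u hu v hv w hw huv huw hvw h
    have hne : pc Ψ γ e v - pc Ψ γ e u ≠ 0 := by
      intro h0
      exact huv (pc_inj hΨ (hF v hv) (hF u hu) (hG v hv) (hG u hu) (sub_eq_zero.mp h0)).symm
    obtain ⟨t, ht⟩ := exists_smul_of_cr_eq_zero hne h
    have hGu := hG u hu
    have hGv := hG v hv
    have hGw := hG w hw
    have h1 := hΨ ((ev γ e w)⁻¹ • (w, (1:ℝ)) - (ev γ e u)⁻¹ • (u, (1:ℝ)) -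
      t • ((ev γ e v)⁻¹ • (v, (1:ℝ)) - (ev γ e u)⁻¹ • (u, (1:ℝ)))) ?_ ?_ ?_
    · have h2 := congrArg Prod.snd h1
      have h3 := congrArg Prod.fst h1
      simp only [Prod.snd_sub, Prod.smul_snd, smul_eq_mul, mul_one, Prod.snd_zero] at h2
      simp only [Prod.fst_sub, Prod.smul_fst, Prod.fst_zero] at h3
      have h4 : w = (ev γ e w * ((1 - t) * (ev γ e u)⁻¹)) • u +
          (ev γ e w * (t * (ev γ e v)⁻¹)) • v := by
        have h5 : (ev γ e w)⁻¹ • w = ((1 - t) * (ev γ e u)⁻¹) • u + (t * (ev γ e v)⁻¹) • v := by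
          rw [← sub_eq_zero, ← h3]
          module
        have h6 : w = ev γ e w • ((ev γ e w)⁻¹ • w) := by
          rw [smul_smul, mul_inv_cancel₀ hGw, one_smul]
        calc w = ev γ e w • ((ev γ e w)⁻¹ • w) := h6
          _ = _ := by rw [h5, smul_add, smul_smul, smul_smul]
      have h7 : (ev γ e w * ((1 - t) * (ev γ e u)⁻¹)) + (ev γ e w * (t * (ev γ e v)⁻¹)) = 1 := by
        have h8 : (1 - t) * (ev γ e u)⁻¹ + t * (ev γ e v)⁻¹ = (ev γ e w)⁻¹ := by linarith
        rw [← mul_add, h8, mul_inv_cancel₀ hGw]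
      exact hS u (hAS hu) v (hAS hv) w (hAS hw) huv huw hvw _ (onLine h7 h4)
    · simp only [map_sub, map_smul, hom_one, hF u hu, hF v hv, hF w hw]; simp
    · simp only [map_sub, map_smul, hom_one, smul_eq_mul]
      rw [inv_mul_cancel₀ hGu, inv_mul_cancel₀ hGv, inv_mul_cancel₀ hGw]; ring
    · simp only [map_sub, map_smul]
      exact sub_eq_zero.mpr ht

include hΨ in
theorem comb_iff {a a' b b' : V} (haa : a ≠ a') (hFa : ev φ c a = 0) (hFa' : ev φ c a' = 0)
    (hGa : ev γ e a ≠ 0) (hGa' : ev γ e a' ≠ 0) (hGb : ev γ e b = 0) (hGb' : ev γ e b' = 0)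
    (hFb : ev φ c b ≠ 0) (hFb' : ev φ c b' ≠ 0) :
    Comb a a' b b' ↔ cr (pc Ψ γ e a - pc Ψ γ e a') (pc Ψ φ c b - pc Ψ φ c b') = 0 := by
  constructor
  · rintro ⟨x, y, z, h1, h2⟩
    have e1 := ev_comb φ c (a := a) (b := a') (d := b) h1
    have e2 := ev_comb γ e (a := a) (b := a') (d := b) h1
    rw [← h2, hFa, hFa'] at e1
    rw [← h2, hGb', hGb] at e2
    have e3 : (b', (1:ℝ)) = x • (a, (1:ℝ)) + y • (a', (1:ℝ)) + z • (b, (1:ℝ)) := by
      refine Prod.ext ?_ ?_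
      · simpa using h2
      · simp [h1]
    have hz : z = ev φ c b' / ev φ c b := by
      field_simp; linarith
    have hy : y * ev γ e a' = - (x * ev γ e a) := by linarith
    have e4 : pc Ψ φ c b' - pc Ψ φ c b =
        ((ev φ c b')⁻¹ * (x * ev γ e a)) • (pc Ψ γ e a - pc Ψ γ e a') := by
      unfold pc
      rw [e3, map_add, map_add, map_smul, map_smul, map_smul, hz]
      have h5 : y • Ψ (a', (1:ℝ)) = (-(x * ev γ e a)) • ((ev γ e a')⁻¹ • Ψ (a', (1:ℝ))) := by
        rw [← hy, smul_smul, mul_assoc, mul_inv_cancel₀ hGa', mul_one]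
      have h6 : x • Ψ (a, (1:ℝ)) = (x * ev γ e a) • ((ev γ e a)⁻¹ • Ψ (a, (1:ℝ))) := by
        rw [smul_smul, mul_assoc, mul_inv_cancel₀ hGa, mul_one]
      rw [h5, h6]
      have h7 : (ev φ c b')⁻¹ • ((ev φ c b' / ev φ c b) • Ψ (b, (1:ℝ))) =
          (ev φ c b)⁻¹ • Ψ (b, (1:ℝ)) := by
        rw [smul_smul]
        congr 1
        field_simp
      rw [smul_add, smul_add, h7]
      module
    have e5 : pc Ψ φ c b - pc Ψ φ c b' =
        (-((ev φ c b')⁻¹ * (x * ev γ e a))) • (pc Ψ γ e a - pc Ψ γ e a') := by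
      rw [neg_smul, ← e4, neg_sub]
    rw [e5, cr_comm, cr_smul_left, cr_self]
    simp
  · intro h
    have hne : pc Ψ γ e a - pc Ψ γ e a' ≠ 0 := by
      intro h0
      exact haa (pc_inj hΨ hFa hFa' hGa hGa' (sub_eq_zero.mp h0))
    obtain ⟨t, ht⟩ := exists_smul_of_cr_eq_zero hne h
    have h1 := hΨ ((ev φ c b)⁻¹ • (b, (1:ℝ)) - (ev φ c b')⁻¹ • (b', (1:ℝ)) -
      t • ((ev γ e a)⁻¹ • (a, (1:ℝ)) - (ev γ e a')⁻¹ • (a', (1:ℝ)))) ?_ ?_ ?_
    · have h2 := congrArg Prod.snd h1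
      have h3 := congrArg Prod.fst h1
      simp only [Prod.snd_sub, Prod.smul_snd, smul_eq_mul, mul_one, Prod.snd_zero] at h2
      simp only [Prod.fst_sub, Prod.smul_fst, Prod.fst_zero] at h3
      refine ⟨ev φ c b' * (-(t * (ev γ e a)⁻¹)), ev φ c b' * (t * (ev γ e a')⁻¹),
        ev φ c b' * (ev φ c b)⁻¹, ?_, ?_⟩
      · rw [← mul_add, ← mul_add]
        have h8 : -(t * (ev γ e a)⁻¹) + t * (ev γ e a')⁻¹ + (ev φ c b)⁻¹ = (ev φ c b')⁻¹ := by
          linarith
        rw [h8, mul_inv_cancel₀ hFb']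
      · have h5 : (ev φ c b')⁻¹ • b' = (-(t * (ev γ e a)⁻¹)) • a + (t * (ev γ e a')⁻¹) • a' +
            (ev φ c b)⁻¹ • b := by
          rw [← sub_eq_zero, ← neg_eq_zero, ← h3]
          module
        have h6 : b' = ev φ c b' • ((ev φ c b')⁻¹ • b') := by
          rw [smul_smul, mul_inv_cancel₀ hFb', one_smul]
        calc b' = ev φ c b' • ((ev φ c b')⁻¹ • b') := h6
          _ = _ := by rw [h5, smul_add, smul_add, smul_smul, smul_smul, smul_smul]
    · simp only [map_sub, map_smul, hom_one, hFa, hFa', smul_eq_mul]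
      rw [inv_mul_cancel₀ hFb, inv_mul_cancel₀ hFb']; ring
    · simp only [map_sub, map_smul, hom_one, hGb, hGb', smul_eq_mul]
      rw [inv_mul_cancel₀ hGa, inv_mul_cancel₀ hGa']; ring
    · simp only [map_sub, map_smul]
      exact sub_eq_zero.mpr ht

end two

end Run7.h330
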