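import Pool.Agent.Run7.h330.Fam

/-!
Lower bounds for the number of ordinary planes: one rich plane, and two planes.
-/

set_option autoImplicit false
open Classical

namespace Run7.h330

section main

variable {V : Type*} [AddCommGroup V] [Module ℝ V]

theorem QG_card (A B : Finset V) :
    (QG A B).card = ∑ y ∈ B.offDiag,
      ((A ×ˢ A).filter (fun p => p.1 ≠ p.2 ∧ Comb p.1 p.2 y.1 y.2)).card := by
  rw [Finset.card_eq_sum_card_fiberwise (f := Prod.snd) (t := B.offDiag)]
  · refine Finset.sum_congr rfl ?_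
    intro y hy
    refine Finset.card_bij' (fun x _ => x.1) (fun x _ => (x, y)) ?_ ?_ ?_ ?_
    · intro x hx
      simp only [QG, Finset.mem_filter, Finset.mem_product, Finset.mem_offDiag] at hx ⊢
      obtain ⟨⟨⟨h1, _⟩, h3⟩, rfl⟩ := hx
      exact ⟨⟨h1.1, h1.2.1⟩, h1.2.2, h3⟩
    · intro x hx
      simp only [QG, Finset.mem_filter, Finset.mem_product, Finset.mem_offDiag] at hx hy ⊢
      exact ⟨⟨⟨⟨hx.1.1, hx.1.2, hx.2.1⟩, hy⟩, hx.2.2⟩, trivial⟩
    · intro x hx
      simp only [Finset.mem_filter] at hx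
      exact Prod.ext rfl hx.2.symm
    · intro x _
      rfl
  · intro x hx
    simp only [QG, Finset.coe_filter, Finset.mem_product, Set.mem_ofPred_eq] at hx
    exact hx.1.2

theorem rich {S : Finset V} (hS : NC S) (φ : V →ₗ[ℝ] ℝ) (c : ℝ) :
    (S.filter (fun p => ev φ c p = 0)).offDiag.card * (S.filter (fun p => ev φ c p ≠ 0)).card ≤
      2 * (ordT S).card + (2 * ((S.filter (fun p => ev φ c p = 0)).card / 2)) *
        (S.filter (fun p => ev φ c p ≠ 0)).offDiag.card := by
  set A := S.filter (fun p => ev φ c p = 0) with hA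
  set B := S.filter (fun p => ev φ c p ≠ 0) with hB
  have hAS : A ⊆ S := Finset.filter_subset _ _
  have hBS : B ⊆ S := Finset.filter_subset _ _
  have hd : Disjoint A B := Finset.disjoint_filter.mpr (fun x _ h1 h2 => h2 h1)
  have hFA : ∀ a ∈ A, ev φ c a = 0 := fun a ha => (Finset.mem_filter.mp ha).2
  have hFB : ∀ b ∈ B, ev φ c b ≠ 0 := fun a ha => (Finset.mem_filter.mp ha).2
  have h1 := fam_le (S := S) (A := A) (B := B) (by
    intro x hx b hb hno
    simp only [Finset.mem_offDiag] at hx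
    simp only [Ord3, not_forall, not_or] at hno
    obtain ⟨p, hp, hc, hpa, hpa', hpb⟩ := hno
    by_cases hFp : ev φ c p = 0
    · exfalso
      rcases in_plane hS (hAS hx.1) (hAS hx.2.1) hx.2.2 (hFA _ hx.1) (hFA _ hx.2.1) (hFB _ hb)
        hp hFp hc with h | h
      · exact hpa h
      · exact hpa' h
    · exact ⟨p, Finset.mem_filter.mpr ⟨hp, hFp⟩, Ne.symm hpb, hc⟩)
  have h2 := G1_card_le (S := S) hd
  have h3 := Finset.card_le_card (im1_subset hAS hBS hd)
  have h4 : (QG A B).card ≤ (2 * (A.card / 2)) * B.offDiag.card := by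
    rw [QG_card, mul_comm]
    refine le_trans (Finset.sum_le_card_nsmul _ _ (2 * (A.card / 2)) ?_) (by simp)
    intro y hy
    simp only [Finset.mem_offDiag] at hy
    have hp := pairs_le_even A (fun a u => a ≠ u ∧ Comb a u y.1 y.2)
      (fun a u h => ⟨h.1.symm, h.2.swap12⟩) (fun a h => h.1 rfl)
      (fun a ha u hu v hv hau hav =>
        pair_unique hS (hAS ha) (hAS hu) (hAS hv) (hBS hy.1) (hBS hy.2.1) hy.2.2
        (hFA _ ha) (hFA _ hu) (hFA _ hv) (hFB _ hy.1) (hFB _ hy.2.1) hau.1 hav.1 hau.2 hav.2)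
    refine le_trans (le_of_eq ?_) hp
    congr
  omega

theorem Qd_swap (A B : Finset V) (α β : V → ℝ × ℝ) :
    (Qd B A β α).card = (Qd A B α β).card := by
  refine Finset.card_bij' (fun x _ => (x.2, x.1)) (fun x _ => (x.2, x.1)) ?_ ?_ ?_ ?_
  · intro x hx
    simp only [Qd, Finset.mem_filter, Finset.mem_product] at hx ⊢
    refine ⟨⟨hx.1.2, hx.1.1⟩, ?_⟩
    rw [cr_comm, hx.2, neg_zero]
  · intro x hx
    simp only [Qd, Finset.mem_filter, Finset.mem_product] at hx ⊢
    refine ⟨⟨hx.1.2, hx.1.1⟩, ?_⟩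
    rw [cr_comm, hx.2, neg_zero]
  · intro x _
    rfl
  · intro x _
    rfl

variable {φ γ : V →ₗ[ℝ] ℝ} {c e : ℝ} {Ψ : (V × ℝ) →ₗ[ℝ] (ℝ × ℝ)}

/-- one half of the two plane count -/
theorem half {S A B : Finset V} (hS : NC S)
    (hΨ : ∀ w, hom φ c w = 0 → hom γ e w = 0 → Ψ w = 0 → w = 0)
    (hcov : ∀ p ∈ S, ev φ c p = 0 ∨ ev γ e p = 0)
    (hA : A = S.filter (fun p => ev φ c p = 0 ∧ ev γ e p ≠ 0))
    (hB : B = S.filter (fun p => ev γ e p = 0 ∧ ev φ c p ≠ 0)) :
    A.offDiag.card * B.card ≤ (G1 S A B).card + (Qd A B (pc Ψ γ e) (pc Ψ φ c)).card := by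
  have hAS : A ⊆ S := by rw [hA]; exact Finset.filter_subset _ _
  have hBS : B ⊆ S := by rw [hB]; exact Finset.filter_subset _ _
  have hFA : ∀ a ∈ A, ev φ c a = 0 ∧ ev γ e a ≠ 0 := by
    rw [hA]; exact fun a ha => (Finset.mem_filter.mp ha).2
  have hFB : ∀ b ∈ B, ev γ e b = 0 ∧ ev φ c b ≠ 0 := by
    rw [hB]; exact fun a ha => (Finset.mem_filter.mp ha).2
  have h1 := fam_le (S := S) (A := A) (B := B) (by
    intro x hx b hb hno
    simp only [Finset.mem_offDiag] at hx
    simp only [Ord3, not_forall, not_or] at hno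
    obtain ⟨p, hp, hc, hpa, hpa', hpb⟩ := hno
    by_cases hFp : ev φ c p = 0
    · exfalso
      rcases in_plane hS (hAS hx.1) (hAS hx.2.1) hx.2.2 (hFA _ hx.1).1 (hFA _ hx.2.1).1
        (hFB _ hb).2 hp hFp hc with h | h
      · exact hpa h
      · exact hpa' h
    · refine ⟨p, ?_, Ne.symm hpb, hc⟩
      rw [hB]
      refine Finset.mem_filter.mpr ⟨hp, ?_, hFp⟩
      rcases hcov p hp with h | h
      · exact absurd h hFp
      · exact h)
  have h2 : QG A B = Qd A B (pc Ψ γ e) (pc Ψ φ c) := by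
    refine Finset.filter_congr ?_
    intro x hx
    simp only [Finset.mem_product, Finset.mem_offDiag] at hx
    exact comb_iff hΨ hx.1.2.2 (hFA _ hx.1.1).1 (hFA _ hx.1.2.1).1 (hFA _ hx.1.1).2
      (hFA _ hx.1.2.1).2 (hFB _ hx.2.1).1 (hFB _ hx.2.2.1).1 (hFB _ hx.2.1).2 (hFB _ hx.2.2.1).2
  rw [h2] at h1
  exact h1

theorem two_core {S A B C : Finset V} (hS : NC S)
    (hΨ : ∀ w, hom φ c w = 0 → hom γ e w = 0 → Ψ w = 0 → w = 0)
    (hcov : ∀ p ∈ S, ev φ c p = 0 ∨ ev γ e p = 0)
    (hA : A = S.filter (fun p => ev φ c p = 0 ∧ ev γ e p ≠ 0))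
    (hB : B = S.filter (fun p => ev γ e p = 0 ∧ ev φ c p ≠ 0))
    (hC : C = S.filter (fun p => ev φ c p = 0 ∧ ev γ e p = 0)) :
    A.offDiag.card * B.card + B.offDiag.card * A.card + 2 * (C.card * (A.card * B.card)) +
      (if (A ∪ C).card = 3 then 2 else 0) ≤
      2 * (ordT S).card + 2 * (Qd A B (pc Ψ γ e) (pc Ψ φ c)).card := by
  have hAS : A ⊆ S := by rw [hA]; exact Finset.filter_subset _ _
  have hBS : B ⊆ S := by rw [hB]; exact Finset.filter_subset _ _
  have hCS : C ⊆ S := by rw [hC]; exact Finset.filter_subset _ _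
  have hFA : ∀ a ∈ A, ev φ c a = 0 ∧ ev γ e a ≠ 0 := by
    rw [hA]; exact fun a ha => (Finset.mem_filter.mp ha).2
  have hFB : ∀ b ∈ B, ev γ e b = 0 ∧ ev φ c b ≠ 0 := by
    rw [hB]; exact fun a ha => (Finset.mem_filter.mp ha).2
  have hFC : ∀ b ∈ C, ev φ c b = 0 ∧ ev γ e b = 0 := by
    rw [hC]; exact fun a ha => (Finset.mem_filter.mp ha).2
  have dAB : Disjoint A B := by
    rw [Finset.disjoint_left]; intro x h1 h2
    exact (hFA x h1).2 (hFB x h2).1
  have dCA : Disjoint C A := by
    rw [Finset.disjoint_left]; intro x h1 h2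
    exact (hFA x h2).2 (hFC x h1).2
  have dCB : Disjoint C B := by
    rw [Finset.disjoint_left]; intro x h1 h2
    exact (hFB x h2).2 (hFC x h1).1
  have h1 := half hS hΨ hcov hA hB
  have h2 := half (φ := γ) (γ := φ) (c := e) (e := c) (Ψ := Ψ) hS
    (fun w h1 h2 h3 => hΨ w h2 h1 h3) (fun p hp => (hcov p hp).symm) hB hA
  rw [Qd_swap] at h2
  have g1 := G1_card_le (S := S) dAB
  have g2 := G1_card_le (S := S) dAB.symm
  have i3 := im3_card dCA dCB dAB
  -- the third family is ordinary
  have s3 : im3 C A B ⊆ ordT S := by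
    intro T hT
    simp only [im3, Finset.mem_image, Finset.mem_product] at hT
    obtain ⟨⟨x, a, b⟩, ⟨hx, ha, hb⟩, rfl⟩ := hT
    simp only at hx ha hb ⊢
    have hxa : x ≠ a := fun h => Finset.disjoint_left.mp dCA hx (h ▸ ha)
    have hxb : x ≠ b := fun h => Finset.disjoint_left.mp dCB hx (h ▸ hb)
    have hab : a ≠ b := fun h => Finset.disjoint_left.mp dAB ha (h ▸ hb)
    refine mem_ordT (hCS hx) (hAS ha) (hBS hb) hxa hxb hab ?_
    intro p hp hc
    rcases hcov p hp with h | h
    · rcases in_plane hS (hCS hx) (hAS ha) hxa (hFC x hx).1 (hFA a ha).1 (hFB b hb).2 hp h hc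
        with h | h
      · exact Or.inl h
      · exact Or.inr (Or.inl h)
    · have hc' : Comb x b a p := by
        obtain ⟨u, v, w, e1, e2⟩ := hc
        exact ⟨u, w, v, by linarith, by rw [e2]; module⟩
      rcases in_plane hS (hCS hx) (hBS hb) hxb (hFC x hx).2 (hFB b hb).1 (hFA a ha).2 hp h hc'
        with h | h
      · exact Or.inl h
      · exact Or.inr (Or.inr h)
  have s1 := im1_subset hAS hBS dAB
  have s2 := im1_subset hBS hAS dAB.symm
  -- the fourth family
  let I4 : Finset (Finset V) := if (A ∪ C).card = 3 then {A ∪ C} else ∅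
  have s4 : I4 ⊆ ordT S := by
    simp only [I4]
    split_ifs with h
    · intro T hT
      rw [Finset.mem_singleton] at hT
      subst hT
      simp only [ordT, Finset.mem_filter, Finset.mem_powersetCard]
      refine ⟨⟨Finset.union_subset hAS hCS, h⟩, ?_⟩
      intro p hp hpm
      have hev : ev φ c p = 0 := by
        obtain ⟨x, y, z, hxy, hxz, hyz, hT⟩ := Finset.card_eq_three.mp h
        have hx : x ∈ A ∪ C := by rw [hT]; simp
        have hy : y ∈ A ∪ C := by rw [hT]; simp
        have hz : z ∈ A ∪ C := by rw [hT]; simp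
        have hF : ∀ q ∈ A ∪ C, ev φ c q = 0 := by
          intro q hq
          rcases Finset.mem_union.mp hq with h | h
          · exact (hFA q h).1
          · exact (hFC q h).1
        rw [hT] at hpm
        have : ((({x, y, z} : Finset V)) : Set V) = ({x, y, z} : Set V) := by simp
        rw [this, mem_aff3] at hpm
        obtain ⟨u, v, w, e1, e2⟩ := hpm
        rw [e2, ev_comb φ c e1, hF x hx, hF y hy, hF z hz]
        ring
      by_cases hG : ev γ e p = 0
      · refine Finset.mem_union_right _ ?_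
        rw [hC]
        exact Finset.mem_filter.mpr ⟨hp, hev, hG⟩
      · refine Finset.mem_union_left _ ?_
        rw [hA]
        exact Finset.mem_filter.mpr ⟨hp, hev, hG⟩
    · exact Finset.empty_subset _
  have f4 : ∀ T ∈ I4, (T.filter (· ∈ B)).card = 0 := by
    intro T hT
    simp only [I4] at hT
    split_ifs at hT with h
    · rw [Finset.mem_singleton] at hT
      subst hT
      rw [Finset.card_eq_zero, Finset.filter_eq_empty_iff]
      intro q hq hqB
      rcases Finset.mem_union.mp hq with h | h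
      · exact Finset.disjoint_left.mp dAB h hqB
      · exact Finset.disjoint_left.mp dCB h hqB
    · simp at hT
  have c4 : I4.card = if (A ∪ C).card = 3 then 1 else 0 := by
    simp only [I4]
    split_ifs <;> simp
  have d12 : Disjoint (im1 S A B) (im1 S B A) := by
    rw [Finset.disjoint_left]; intro T t1 t2
    have := (im1_cards dAB t1).1
    have := (im1_cards dAB.symm t2).2
    omega
  have d13 : Disjoint (im1 S A B) (im3 C A B) := by
    rw [Finset.disjoint_left]; intro T t1 t2
    have := (im1_cards dAB t1).1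
    have := (im3_cards dCA dCB dAB t2).1
    omega
  have d23 : Disjoint (im1 S B A) (im3 C A B) := by
    rw [Finset.disjoint_left]; intro T t1 t2
    have := (im1_cards dAB.symm t1).1
    have := (im3_cards dCA dCB dAB t2).2
    omega
  have d14 : Disjoint (im1 S A B) I4 := by
    rw [Finset.disjoint_left]; intro T t1 t2
    have := (im1_cards dAB t1).2
    have := f4 T t2
    omega
  have d24 : Disjoint (im1 S B A) I4 := by
    rw [Finset.disjoint_left]; intro T t1 t2
    have := (im1_cards dAB.symm t1).1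
    have := f4 T t2
    omega
  have d34 : Disjoint (im3 C A B) I4 := by
    rw [Finset.disjoint_left]; intro T t1 t2
    have := (im3_cards dCA dCB dAB t1).2
    have := f4 T t2
    omega
  have hu : ((im1 S A B ∪ im1 S B A) ∪ (im3 C A B ∪ I4)) ⊆ ordT S :=
    Finset.union_subset (Finset.union_subset s1 s2) (Finset.union_subset s3 s4)
  have hcard := Finset.card_le_card hu
  rw [Finset.card_union_of_disjoint, Finset.card_union_of_disjoint d12,
    Finset.card_union_of_disjoint d34] at hcard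
  · rw [c4] at hcard
    rw [i3] at hcard
    split_ifs at hcard ⊢ <;> omega
  · rw [Finset.disjoint_union_left, Finset.disjoint_union_right, Finset.disjoint_union_right]
    exact ⟨⟨d13, d14⟩, ⟨d23, d24⟩⟩

end main

end Run7.h330
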