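import Pool.Agent.Run7.h330.CBun
import Pool.Agent.TH167.T3.Nine

set_option autoImplicit false

/-!
# The orbit of a negative curve: roots and exceptional curves
-/

namespace Pool.Agent.Run7.h330.Orb

open MvPolynomial Pool.Agent.W609 Pool.Agent.W609.CR Pool.Agent.TH167 Pool.Agent.TH167.SH
open Pool.Agent.TH442.NF (cls refl Step refl_cls line_of ip_line)
open Pool.Agent.R355.NegOrb

/-- The multiplicities of a negative curve. -/
structure Facts {s : ℕ} (k : ℤ) (e : ℕ) (w : Fin s → ℕ) : Prop where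
  mult : ∀ i, w i = 0 ∨ (w i = 1 ∧ k = 1) ∨ (4 ≤ w i ∧ k + 1 ≤ (w i : ℤ))
  ten : 10 ≤ (Finset.univ.filter fun i => 4 ≤ w i).card
  pair : ∀ i j, i ≠ j → w i + w j ≤ e
  swap : ∀ i j, w i = w j ∨ k ≤ ((w i : ℤ) - w j) ^ 2
  quad : ∀ i j l, i ≠ j → i ≠ l → j ≠ l → (e : ℤ) - w i - w j - w l = 0 ∨
    k ≤ ((e : ℤ) - w i - w j - w l) ^ 2

theorem facts {r : ℕ} {P : Fin (r + 4) → Fin 2 → ℂ}
    (hP : AlgebraicIndependent ℚ (fun ij : Fin (r + 4) × Fin 2 => P ij.1 ij.2)) {e : ℕ}
    {w : Fin (r + 4) → ℕ} (h : Irr P e w) {k : ℤ} (hk : 0 < k) (hipk : ip e w e w = -k) :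
    Facts k e w := by
  classical
  obtain ⟨G, hG, hGe, hGo⟩ := h.ex
  have hneg : ip e w e w < 0 := by linarith
  have hsum : (∑ j, (w j : ℤ) ^ 2) = (e : ℤ) ^ 2 + k := by
    have h1 := hipk
    unfold ip at h1
    have h2 : ∑ j, (w j : ℤ) ^ 2 = ∑ j, (w j : ℤ) * w j :=
      Finset.sum_congr rfl fun j _ => sq _
    rw [h2]
    linarith [sq (e : ℤ)]
  refine ⟨fun i => ?_, ?_, fun i j hij => ?_, fun i j => ?_, fun i j l hij hil hjl => ?_⟩
  · have hx : 2 ≤ w i → k + 1 ≤ (w i : ℤ) := fun hge => by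
      have h1 := SXu.sxu hP hG hGe hGo hge
      have h2 : (∑ j, (w j : ℤ) ^ 2) + 1 ≤ (e : ℤ) ^ 2 + w i := by exact_mod_cast h1
      linarith
    rcases Pool.Agent.TH167.CL.neg_cl hP hG hGe hGo hneg h.ne with h1 | ⟨h0, j0, h1, h2⟩
    · by_cases hi : w i = 0
      · exact Or.inl hi
      · have := h1 i hi
        exact Or.inr (Or.inr ⟨this, hx (by omega)⟩)
    · by_cases hi : w i = 0
      · exact Or.inl hi
      · by_cases hij : i = j0
        · refine Or.inr (Or.inl ⟨by rw [hij]; exact h1, by linarith⟩)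
        · have := h2 i hij hi
          exact Or.inr (Or.inr ⟨this, hx (by omega)⟩)
  · by_contra hcon
    exact h.ne (T3.neg9 (by
      have : (Finset.univ.filter fun i => 4 ≤ w i).card ≤ 9 := by omega
      exact this) hP hG hGe hGo hneg)
  · exact pair_le hP hG hGe hGo h.ne hij
  · by_cases h1 : w i = w j
    · exact Or.inl h1
    · right
      have := CBun.gap_swap hP h h1
      linarith
  · by_cases h1 : (e : ℤ) - w i - w j - w l = 0
    · exact Or.inl h1
    · right
      have hinj : Function.Injective ![i, j, l] := inj_cons hij hil hjl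
      have h0 : dl ![i, j, l] e w = (e : ℤ) - w i - w j - w l := rfl
      have := CBun.gap_refl hP h hinj (by rw [h0]; exact h1)
      rw [h0] at this
      linarith

/-- The class `E j - E i` of self-intersection `-2`. -/
def root {s : ℕ} (i j : Fin s) : ℤ × (Fin s → ℤ) := (0, fun l => (if l = i then 1 else 0) -
  if l = j then 1 else 0)

theorem bil_root {s : ℕ} (i j : Fin s) (e : ℕ) (w : Fin s → ℕ) :
    bil (root i j) (cls e w) = (w j : ℤ) - w i := by
  classical
  unfold bil root cls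
  simp only [zero_mul, zero_sub]
  have h1 : ∀ l, ((if l = i then (1 : ℤ) else 0) - if l = j then 1 else 0) * (w l : ℤ) =
      (if l = i then (w l : ℤ) else 0) - if l = j then (w l : ℤ) else 0 := fun l => by
    split_ifs <;> ring
  rw [Finset.sum_congr rfl fun l _ => h1 l, Finset.sum_sub_distrib, Finset.sum_ite_eq',
    Finset.sum_ite_eq', if_pos (Finset.mem_univ _), if_pos (Finset.mem_univ _)]
  ring

theorem bil_comm {s : ℕ} (a b : ℤ × (Fin s → ℤ)) : bil a b = bil b a := by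
  unfold bil
  rw [mul_comm, Finset.sum_congr rfl fun l _ => mul_comm (a.2 l) (b.2 l)]

/-- The classes in the orbit of a negative curve. -/
theorem orbit_facts {r : ℕ} {P : Fin (r + 4) → Fin 2 → ℂ}
    (hP : AlgebraicIndependent ℚ (fun ij : Fin (r + 4) × Fin 2 => P ij.1 ij.2)) {e : ℕ}
    {w : Fin (r + 4) → ℕ} (h : Irr P e w) {k : ℤ} (hk : 0 < k) (hipk : ip e w e w = -k)
    {b : ℤ × (Fin (r + 4) → ℤ)} (hb : Ch (cls e w) b) :
    ∃ (e' : ℕ) (w' : Fin (r + 4) → ℕ), b = cls e' w' ∧ Irr P e' w' ∧ ip e' w' e' w' = -k ∧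
      Facts k e' w' := by
  obtain ⟨e', w', h1, h2, h3⟩ := h.orbit hP hb
  have h4 : ip e' w' e' w' = -k := by rw [h3, hipk]
  exact ⟨e', w', h1, h2, h4, facts hP h2 hk h4⟩

/-- The intersection numbers with the real roots. -/
theorem root_facts {r : ℕ} {P : Fin (r + 4) → Fin 2 → ℂ}
    (hP : AlgebraicIndependent ℚ (fun ij : Fin (r + 4) × Fin 2 => P ij.1 ij.2)) {e : ℕ}
    {w : Fin (r + 4) → ℕ} (h : Irr P e w) {k : ℤ} (hk : 0 < k) (hipk : ip e w e w = -k)
    {i j : Fin (r + 4)} {a : ℤ × (Fin (r + 4) → ℤ)} (ha : Ch (root i j) a) :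
    bil a (cls e w) = 0 ∨ k ≤ bil a (cls e w) ^ 2 := by
  obtain ⟨c, h1, h2⟩ := (ha.symm).par (cls e w)
  obtain ⟨e', w', rfl, -, -, h3⟩ := orbit_facts hP h hk hipk h1
  rw [← h2, bil_root]
  rcases h3.swap j i with h4 | h4
  · left
    rw [h4, sub_self]
  · exact Or.inr h4

/-- The intersection numbers with the `(-1)`-curves. -/
theorem exc_facts {r : ℕ} {P : Fin (r + 4) → Fin 2 → ℂ}
    (hP : AlgebraicIndependent ℚ (fun ij : Fin (r + 4) × Fin 2 => P ij.1 ij.2)) {e : ℕ}
    {w : Fin (r + 4) → ℕ} (h : Irr P e w) {k : ℤ} (hk : 0 < k) (hipk : ip e w e w = -k)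
    {G : MvPolynomial (Fin 3) ℂ} {d : ℕ} {v : Fin (r + 4) → ℕ} (hE : Exc P G d v) :
    ip e w d v = 0 ∨ (ip e w d v = 1 ∧ k = 1) ∨ (4 ≤ ip e w d v ∧ k + 1 ≤ ip e w d v) := by
  classical
  obtain ⟨i, j, hij, h1⟩ := exc_chain d P hP G v hE
  obtain ⟨c, h2, h3⟩ := h1.par (cls e w)
  obtain ⟨e', w', rfl, h4, h5, -⟩ := orbit_facts hP h hk hipk h2
  obtain ⟨l, hl⟩ : ∃ l : Fin (r + 4), l ∉ ({i, j} : Finset (Fin (r + 4))) := by
    by_contra hcon
    push Not at hcon
    have h6 : (Finset.univ : Finset (Fin (r + 4))) ⊆ {i, j} := fun l _ => hcon l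
    have h7 := Finset.card_le_card h6
    have h8 := (Finset.card_insert_le i {j})
    rw [Finset.card_univ, Fintype.card_fin] at h7
    rw [Finset.card_singleton] at h8
    omega
  rw [Finset.mem_insert, Finset.mem_singleton, not_or] at hl
  have hinj : Function.Injective ![i, j, l] := inj_cons hij (Ne.symm hl.1) (Ne.symm hl.2)
  have p := h4.ps hP hinj
  have h6 := h4.step hP hinj
  have h7 := facts hP h6 hk (by rw [ip_cr hinj p p, h5])
  have h8 : bil (cls d v) (cls e w) = ip e w d v := by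
    rw [bil_comm]
    rfl
  have h9 : ip e w d v = (wcr e' ![i, j, l] w' l : ℤ) := by
    rw [← h8, ← h3]
    have q := h4.ps hP hinj
    have q1 : w' i + w' j ≤ e' := q.p01
    have e1 : wcr e' ![i, j, l] w' l = e' - (w' i + w' j) := by
      unfold wcr
      rw [if_neg (show ¬ l = (![i, j, l] : Fin 3 → Fin (r + 4)) 0 from hl.1),
        if_neg (show ¬ l = (![i, j, l] : Fin 3 → Fin (r + 4)) 1 from hl.2),
        if_pos (show l = (![i, j, l] : Fin 3 → Fin (r + 4)) 2 from rfl)]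
      rfl
    rw [e1, Nat.cast_sub q1]
    unfold bil cls
    simp only
    have h10 : ∀ t, (((if t = i ∨ t = j then 1 else 0 : ℕ) : ℤ)) * (w' t : ℤ) =
        (if t = i then (w' t : ℤ) else 0) + if t = j then (w' t : ℤ) else 0 := fun t => by
      by_cases c1 : t = i
      · have c2 : ¬ t = j := fun h0 => hij (c1.symm.trans h0)
        simp [c1, hij]
      · by_cases c2 : t = j
        · simp [c2, hij.symm]
        · simp [c1, c2]
    rw [Finset.sum_congr rfl fun t _ => h10 t, Finset.sum_add_distrib, Finset.sum_ite_eq',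
      Finset.sum_ite_eq', if_pos (Finset.mem_univ _), if_pos (Finset.mem_univ _)]
    push_cast
    ring
  rw [h9]
  rcases h7.mult l with h0 | ⟨h0, h0'⟩ | ⟨h0, h0'⟩
  · left
    rw [h0]
    rfl
  · right
    left
    exact ⟨by rw [h0]; rfl, h0'⟩
  · right
    right
    exact ⟨by exact_mod_cast h0, h0'⟩

end Pool.Agent.Run7.h330.Orb
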