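import Mathlib

/-!
Planar part: two finite sets in the plane in general position and the number of pairs of
parallel chords (one chord of each set).
-/

set_option autoImplicit false
open Classical

namespace Run7.h330

/-- cross product -/
def cr (u v : ℝ × ℝ) : ℝ := u.1 * v.2 - u.2 * v.1

theorem cr_smul_left (t : ℝ) (u v : ℝ × ℝ) : cr (t • u) v = t * cr u v := by
  simp [cr]; ring

theorem cr_self (u : ℝ × ℝ) : cr u u = 0 := by simp [cr]; ring

theorem cr_comm (u v : ℝ × ℝ) : cr u v = - cr v u := by simp [cr]; ring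

theorem exists_smul_of_cr_eq_zero {u v : ℝ × ℝ} (hu : u ≠ 0) (h : cr u v = 0) :
    ∃ t : ℝ, v = t • u := by
  unfold cr at h
  by_cases h1 : u.1 = 0
  · have h2 : u.2 ≠ 0 := by
      intro h2
      exact hu (Prod.ext h1 h2)
    refine ⟨v.2 / u.2, Prod.ext ?_ ?_⟩
    · simp only [Prod.smul_fst, smul_eq_mul, h1, mul_zero]
      rw [h1] at h
      have : u.2 * v.1 = 0 := by linarith
      rcases mul_eq_zero.mp this with h3 | h3
      · exact absurd h3 h2
      · exact h3
    · simp only [Prod.smul_snd, smul_eq_mul]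
      field_simp
  · refine ⟨v.1 / u.1, Prod.ext ?_ ?_⟩
    · simp only [Prod.smul_fst, smul_eq_mul]
      field_simp
    · simp only [Prod.smul_snd, smul_eq_mul]
      field_simp
      linarith

section matching

variable {ι : Type*}

theorem even_pairs (B : Finset ι) (R : ι → ι → Prop) (hs : ∀ x y, R x y → R y x)
    (hi : ∀ x, ¬ R x x) : Even ((B ×ˢ B).filter (fun p => R p.1 p.2)).card := by
  have h : (((B ×ˢ B).filter (fun p => R p.1 p.2)).card : ZMod 2) = 0 := by
    rw [Finset.card_eq_sum_ones, Nat.cast_sum]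
    refine Finset.sum_involution (fun p _ => (p.2, p.1)) ?_ ?_ ?_ ?_
    · intro p _
      simp only [Nat.cast_one]
      decide
    · intro p hp _ h
      simp only [Finset.mem_filter] at hp
      have h1 : p.2 = p.1 := congrArg Prod.fst h
      rw [h1] at hp
      exact hi _ hp.2
    · intro p hp
      simp only [Finset.mem_filter, Finset.mem_product] at hp ⊢
      exact ⟨⟨hp.1.2, hp.1.1⟩, hs _ _ hp.2⟩
    · intro p _
      rfl
  exact (ZMod.natCast_eq_zero_iff_even).mp h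

theorem pairs_le (B : Finset ι) (R : ι → ι → Prop)
    (hu : ∀ x ∈ B, ∀ y ∈ B, ∀ z ∈ B, R x y → R x z → y = z) :
    ((B ×ˢ B).filter (fun p => R p.1 p.2)).card ≤ B.card := by
  refine Finset.card_le_card_of_injOn Prod.fst ?_ ?_
  · intro p hp
    simp only [Finset.coe_filter, Finset.mem_product, Set.mem_ofPred_eq] at hp
    exact hp.1.1
  · intro p hp q hq h
    simp only [Finset.coe_filter, Finset.mem_product, Set.mem_ofPred_eq] at hp hq
    refine Prod.ext h ?_
    have := hu p.1 hp.1.1 p.2 hp.1.2 q.2 hq.1.2 hp.2 (by rw [h]; exact hq.2)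
    exact this

theorem pairs_le_even (B : Finset ι) (R : ι → ι → Prop) (hs : ∀ x y, R x y → R y x)
    (hi : ∀ x, ¬ R x x) (hu : ∀ x ∈ B, ∀ y ∈ B, ∀ z ∈ B, R x y → R x z → y = z) :
    ((B ×ˢ B).filter (fun p => R p.1 p.2)).card ≤ 2 * (B.card / 2) := by
  have h1 := even_pairs B R hs hi
  have h2 := pairs_le B R hu
  obtain ⟨m, hm⟩ := h1
  omega

/-- if the number of related pairs is the full size, everybody has a partner -/
theorem partner_of_card (B : Finset ι) (R : ι → ι → Prop)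
    (hu : ∀ x ∈ B, ∀ y ∈ B, ∀ z ∈ B, R x y → R x z → y = z)
    (hc : B.card ≤ ((B ×ˢ B).filter (fun p => R p.1 p.2)).card) :
    ∀ x ∈ B, ∃ y ∈ B, R x y := by
  have hinj : Set.InjOn Prod.fst
      (((B ×ˢ B).filter (fun p => R p.1 p.2) : Finset (ι × ι)) : Set (ι × ι)) := by
    intro p hp q hq h
    simp only [Finset.coe_filter, Finset.mem_product, Set.mem_ofPred_eq] at hp hq
    refine Prod.ext h ?_
    have := hu p.1 hp.1.1 p.2 hp.1.2 q.2 hq.1.2 hp.2 (by rw [h]; exact hq.2)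
    exact this
  have himg : ((B ×ˢ B).filter (fun p => R p.1 p.2)).image Prod.fst = B := by
    refine Finset.eq_of_subset_of_card_le ?_ ?_
    · intro x hx
      simp only [Finset.mem_image, Finset.mem_filter, Finset.mem_product] at hx
      obtain ⟨p, hp, rfl⟩ := hx
      exact hp.1.1
    · rw [Finset.card_image_of_injOn hinj]
      exact hc
  intro x hx
  rw [← himg] at hx
  simp only [Finset.mem_image, Finset.mem_filter, Finset.mem_product] at hx
  obtain ⟨p, hp, rfl⟩ := hx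
  exact ⟨p.2, hp.1.2, hp.2⟩

end matching

section hull

variable {ι : Type*}

/-- general position -/
def GP (A : Finset ι) (α : ι → ℝ × ℝ) : Prop :=
  (∀ u ∈ A, ∀ v ∈ A, u ≠ v → α u ≠ α v) ∧
  (∀ u ∈ A, ∀ v ∈ A, ∀ w ∈ A, u ≠ v → u ≠ w → v ≠ w → cr (α v - α u) (α w - α u) ≠ 0)

/-- `u → v` is a counterclockwise hull edge -/
def HE (A : Finset ι) (α : ι → ℝ × ℝ) (u v : ι) : Prop :=
  u ≠ v ∧ v ∈ A ∧ ∀ w ∈ A, w ≠ u → w ≠ v → 0 < cr (α v - α u) (α w - α u)

theorem HE_unique {A : Finset ι} {α : ι → ℝ × ℝ} {u v v' : ι} 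
    (h : HE A α u v) (h' : HE A α u v') : v = v' := by
  by_contra hne
  have h1 := h.2.2 v' h'.2.1 (Ne.symm h'.1) (Ne.symm hne)
  have h2 := h'.2.2 v h.2.1 (Ne.symm h.1) hne
  rw [cr_comm] at h2
  linarith

/-- parallel relation inside `A` with respect to a direction `d` -/
def Par (α : ι → ℝ × ℝ) (d : ℝ × ℝ) (u v : ι) : Prop := u ≠ v ∧ cr (α u - α v) d = 0

theorem Par_symm {α : ι → ℝ × ℝ} {d : ℝ × ℝ} {u v : ι} (h : Par α d u v) : Par α d v u := by
  refine ⟨h.1.symm, ?_⟩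
  have := h.2
  simp only [cr, Prod.fst_sub, Prod.snd_sub] at this ⊢
  linarith

theorem Par_unique {A : Finset ι} {α : ι → ℝ × ℝ} (hA : GP A α) {d : ℝ × ℝ} (hd : d ≠ 0)
    {u v w : ι} (hu : u ∈ A) (hv : v ∈ A) (hw : w ∈ A) (h1 : Par α d u v) (h2 : Par α d u w) :
    v = w := by
  by_contra hne
  have h := hA.2 u hu v hv w hw h1.1 h2.1 hne
  apply h
  have h3 : cr d (α v - α u) = 0 := by
    have := h1.2
    simp only [cr, Prod.fst_sub, Prod.snd_sub] at this ⊢
    linarith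
  have h4 : cr d (α w - α u) = 0 := by
    have := h2.2
    simp only [cr, Prod.fst_sub, Prod.snd_sub] at this ⊢
    linarith
  obtain ⟨s, hs⟩ := exists_smul_of_cr_eq_zero hd h3
  obtain ⟨t, ht⟩ := exists_smul_of_cr_eq_zero hd h4
  rw [hs, ht]
  simp only [cr, Prod.smul_fst, Prod.smul_snd, smul_eq_mul]
  ring

/-- a perfect direction gives two hull edges -/
theorem two_edges {A : Finset ι} {α : ι → ℝ × ℝ} (hA : GP A α) {d : ℝ × ℝ} (hd : d ≠ 0)
    (hc : 3 ≤ A.card) (hp : ∀ u ∈ A, ∃ v ∈ A, Par α d u v) :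
    ∃ u₁ ∈ A, ∃ u₂ ∈ A, u₁ ≠ u₂ ∧ (∃ v, HE A α u₁ v ∧ Par α d u₁ v) ∧
      (∃ v, HE A α u₂ v ∧ Par α d u₂ v) := by
  have hne : A.Nonempty := by
    rw [← Finset.card_pos]; omega
  -- extreme fibres
  have key : ∀ d' : ℝ × ℝ, d' ≠ 0 → (∀ u ∈ A, ∃ v ∈ A, Par α d' u v) →
      ∃ u ∈ A, (∃ v, HE A α u v ∧ Par α d' u v) ∧ ∀ w ∈ A, cr d' (α w) ≤ cr d' (α u) := by
    intro d' hd' hp'
    obtain ⟨x, hx, hmax⟩ := Finset.exists_max_image A (fun w => cr d' (α w)) hne
    obtain ⟨y, hy, hxy⟩ := hp' x hx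
    have hd1 : cr d' (α y - α x) = 0 := by
      have := hxy.2
      simp only [cr, Prod.fst_sub, Prod.snd_sub] at this ⊢
      linarith
    obtain ⟨t, ht⟩ := exists_smul_of_cr_eq_zero hd' hd1
    have ht0 : t ≠ 0 := by
      intro h0
      rw [h0, zero_smul] at ht
      exact hA.1 x hx y hy hxy.1 (sub_eq_zero.mp ht).symm
    have heq : cr d' (α x) = cr d' (α y) := by
      simp only [cr, Prod.fst_sub, Prod.snd_sub] at hd1 ⊢
      linarith
    have hlt : ∀ w ∈ A, w ≠ x → w ≠ y → cr d' (α w) < cr d' (α x) := by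
      intro w hw hwx hwy
      refine lt_of_le_of_ne (hmax w hw) ?_
      intro he
      apply hwy
      refine (Par_unique hA hd' hx hy hw hxy ⟨Ne.symm hwx, ?_⟩).symm
      simp only [cr, Prod.fst_sub, Prod.snd_sub] at he ⊢
      linarith
    have hyx : α x - α y = (-t) • d' := by
      rw [neg_smul, ← ht, neg_sub]
    rcases lt_or_gt_of_ne ht0 with h | h
    · refine ⟨x, hx, ⟨y, ⟨hxy.1, hy, ?_⟩, hxy⟩, hmax⟩
      intro w hw hwx hwy
      have := hlt w hw hwx hwy
      rw [ht, cr_smul_left]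
      have h2 : cr d' (α w - α x) < 0 := by
        simp only [cr, Prod.fst_sub, Prod.snd_sub] at this ⊢
        linarith
      exact mul_pos_of_neg_of_neg h h2
    · refine ⟨y, hy, ⟨x, ⟨hxy.1.symm, hx, ?_⟩, Par_symm hxy⟩, ?_⟩
      · intro w hw hwy hwx
        have := hlt w hw hwx hwy
        rw [hyx, cr_smul_left]
        have h2 : cr d' (α w - α y) < 0 := by
          simp only [cr, Prod.fst_sub, Prod.snd_sub] at this heq ⊢
          linarith
        nlinarith
      · intro w hw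
        rw [← heq]
        exact hmax w hw
  obtain ⟨u₁, hu₁, he₁, hm₁⟩ := key d hd hp
  have hpneg : ∀ u ∈ A, ∃ v ∈ A, Par α (-d) u v := by
    intro u hu
    obtain ⟨v, hv, h⟩ := hp u hu
    refine ⟨v, hv, h.1, ?_⟩
    have := h.2
    simp only [cr, Prod.fst_sub, Prod.snd_sub, Prod.fst_neg, Prod.snd_neg] at this ⊢
    linarith
  obtain ⟨u₂, hu₂, ⟨v₂, he₂, hpar₂⟩, hm₂⟩ := key (-d) (neg_ne_zero.mpr hd) hpneg
  refine ⟨u₁, hu₁, u₂, hu₂, ?_, he₁, ⟨v₂, he₂, hpar₂.1, ?_⟩⟩
  · -- otherwise everything is on one line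
    intro h
    subst h
    have hconst : ∀ w ∈ A, cr d (α w) = cr d (α u₁) := by
      intro w hw
      have h1 := hm₁ w hw
      have h2 := hm₂ w hw
      simp only [cr, Prod.fst_neg, Prod.snd_neg] at h1 h2 ⊢
      linarith
    obtain ⟨x, hx, y, hy, z, hz, hxy, hxz, hyz⟩ := Finset.two_lt_card.mp hc
    apply hyz
    refine Par_unique hA hd hx hy hz ⟨hxy, ?_⟩ ⟨hxz, ?_⟩
    · have h1 := hconst x hx
      have h2 := hconst y hy
      simp only [cr, Prod.fst_sub, Prod.snd_sub] at h1 h2 ⊢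
      linarith
    · have h1 := hconst x hx
      have h2 := hconst z hz
      simp only [cr, Prod.fst_sub, Prod.snd_sub] at h1 h2 ⊢
      linarith
  · have := hpar₂.2
    simp only [cr, Prod.fst_sub, Prod.snd_sub, Prod.fst_neg, Prod.snd_neg] at this ⊢
    linarith

end hull

end Run7.h330
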