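import Pool.Agent.R355.NegOrb
import Pool.Agent.H977R3.CM.Aut

set_option autoImplicit false

/-!
# A strict form of the inequality of Xu and Ein-Lazarsfeld

An irreducible curve of degree `e` with multiplicities exactly `u j` at generic points satisfies
`∑ u j ^ 2 + 1 ≤ e ^ 2 + u k` for every `k` with `u k ≥ 2`.
-/

namespace Pool.Agent.Run7.h330.SXu

open MvPolynomial Pool.Agent.W609 Pool.Agent.W609.CR Pool.Agent.TH167 Pool.Agent.TH167.SH
open Pool.Agent.H248R5 (forms mem_forms tau)
open Pool.Agent.H248R6 (dG move back dG_homog exists_der coeff_dG)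

/-- The field of constants of a derivation. -/
def consts (D : Derivation ℚ ℂ ℂ) : Subfield ℂ where
  carrier := {x | D x = 0}
  mul_mem' := by
    intro a b ha hb
    rw [Set.mem_ofPred_eq] at ha hb ⊢
    rw [D.leibniz, ha, hb, smul_zero, smul_zero, add_zero]
  one_mem' := D.map_one_eq_zero
  add_mem' := by
    intro a b ha hb
    rw [Set.mem_ofPred_eq] at ha hb ⊢
    rw [map_add, ha, hb, add_zero]
  zero_mem' := map_zero D
  neg_mem' := by
    intro a ha
    rw [Set.mem_ofPred_eq] at ha ⊢
    rw [map_neg, ha, neg_zero]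
  inv_mem' := by
    intro a ha
    rw [Set.mem_ofPred_eq] at ha ⊢
    rw [Derivation.leibniz_inv, ha, smul_zero]

theorem mem_consts {D : Derivation ℚ ℂ ℂ} {x : ℂ} : x ∈ consts D ↔ D x = 0 := Iff.rfl

/-- Derivations vanish on the numbers that are algebraic over the constants. -/
theorem alg_const (D : Derivation ℚ ℂ ℂ) {p : ℂ} (hp : IsAlgebraic (consts D) p) : D p = 0 := by
  obtain ⟨L, hL⟩ : ∃ L : ℂ →ₗ[consts D] ℂ, ∀ x, L x = D x := by
    refine ⟨{ toFun := D, map_add' := map_add D, map_smul' := fun a x => ?_ }, fun x => rfl⟩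
    have h : D ((a : ℂ) * x) = (a : ℂ) * D x := by
      rw [D.leibniz, mem_consts.1 a.2, smul_zero, add_zero, smul_eq_mul]
    exact h
  have hLl : ∀ a b : ℂ, L (a * b) = a • L b + b • L a := fun a b => by
    rw [hL, hL, hL]
    exact D.leibniz a b
  have h1 := (Derivation.mk' L hLl).map_aeval (minpoly (consts D) p) p
  rw [minpoly.aeval, map_zero] at h1
  have h2 : (Polynomial.aeval p) (Polynomial.derivative (minpoly (consts D) p)) ≠ 0 :=
    (minpoly.irreducible hp.isIntegral).separable.aeval_derivative_ne_zero (minpoly.aeval _ _)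
  have h3 : (Derivation.mk' L hLl) p = D p := hL p
  rw [h3] at h1
  rcases smul_eq_zero.1 h1.symm with h | h
  · exact absurd h h2
  · exact h

/-- A number that is not a constant can be moved by automorphisms which fix the constants. -/
theorem exists_shift (D : Derivation ℚ ℂ ℂ) {p : ℂ} (hp : D p ≠ 0) (N : ℕ) :
    ∃ τ : ℂ ≃+* ℂ, (∀ a, D a = 0 → τ a = a) ∧ τ p = p + N := by
  have htr : Transcendental (consts D) p := fun h => hp (alg_const D h)
  have hinj : Function.Injective (Polynomial.aeval p : Polynomial (consts D) →ₐ[consts D] ℂ) :=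
    transcendental_iff_injective.1 htr
  obtain ⟨j, hj⟩ : ∃ j : FractionRing (Polynomial (consts D)) →+* ℂ,
      j = IsFractionRing.lift (A := Polynomial (consts D))
        (g := (Polynomial.aeval p : Polynomial (consts D) →ₐ[consts D] ℂ).toRingHom)
        hinj := ⟨_, rfl⟩
  obtain ⟨g, hg⟩ : ∃ g : FractionRing (Polynomial (consts D)) ≃+*
      FractionRing (Polynomial (consts D)),
      g = IsFractionRing.ringEquivOfRingEquiv
        (Polynomial.algEquivAevalXAddC ((N : consts D))).toRingEquiv := ⟨_, rfl⟩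
  obtain ⟨τ, hτ⟩ := Pool.Agent.H977R3.CM.exists_aut j g
  have h1 : ∀ f : Polynomial (consts D), j (algebraMap _ _ f) = Polynomial.aeval p f := fun f => by
    rw [hj, IsFractionRing.lift_algebraMap]
    rfl
  have h2 : ∀ f : Polynomial (consts D), τ (Polynomial.aeval p f) =
      Polynomial.aeval p ((Polynomial.algEquivAevalXAddC ((N : consts D))) f) := fun f => by
    rw [← h1, hτ, hg, IsFractionRing.ringEquivOfRingEquiv_algebraMap, h1]
    rfl
  refine ⟨τ, fun a ha => ?_, ?_⟩
  · have h3 := h2 (Polynomial.C ⟨a, ha⟩)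
    rw [Polynomial.aeval_C] at h3
    have h4 : (Polynomial.algEquivAevalXAddC ((N : consts D)))
        (Polynomial.C (⟨a, ha⟩ : consts D)) = Polynomial.C ⟨a, ha⟩ :=
      (Polynomial.algEquivAevalXAddC ((N : consts D))).commutes _
    rw [h4, Polynomial.aeval_C] at h3
    exact h3
  · have h3 := h2 Polynomial.X
    rw [Polynomial.aeval_X] at h3
    rw [h3]
    simp

/-- Partial derivatives lower the order of vanishing by at most one. -/
theorem pderiv_pow {K : Type} [Field K] (I : Ideal (MvPolynomial (Fin 3) K)) (a : Fin 3) :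
    ∀ (m : ℕ) (f : MvPolynomial (Fin 3) K), f ∈ I ^ (m + 1) → pderiv a f ∈ I ^ m := by
  intro m
  induction m with
  | zero => intro f _; simp
  | succ m ih =>
    intro f hf
    rw [pow_succ] at hf
    refine Submodule.mul_induction_on (C := fun f => pderiv a f ∈ I ^ (m + 1)) hf
      (fun x hx y hy => ?_) fun x y hx hy => ?_
    · rw [(pderiv a).leibniz, smul_eq_mul, smul_eq_mul]
      refine Ideal.add_mem _ (Ideal.mul_mem_right _ _ hx) ?_
      rw [mul_comm, pow_succ]
      exact Ideal.mul_mem_mul (ih x hx) hy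
    · rw [map_add]
      exact Ideal.add_mem _ hx hy

/-- An irreducible form whose coefficients are constants has no double point with a coordinate that is
not a constant. -/
theorem no_double (D : Derivation ℚ ℂ ℂ) {G : MvPolynomial (Fin 3) ℂ} {e : ℕ} (hG : Irreducible G)
    (hGe : G.IsHomogeneous e) (hGc : ∀ s, D (coeff s G) = 0) {Q : Fin 2 → ℂ}
    (hQ : Van (aff Q) 2 G) {b : Fin 2} (hb : D (Q b) ≠ 0) : False := by
  classical
  choose τ hτ1 hτ2 using fun N : ℕ => exists_shift D hb N
  have hmap : ∀ N, mapEquiv (Fin 3) (τ N) G = G := fun N => by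
    have e1 : (mapEquiv (Fin 3) (τ N)) G = map (τ N : ℂ →+* ℂ) G := rfl
    rw [e1]
    ext s
    rw [coeff_map]
    exact hτ1 N _ (hGc s)
  have haff : ∀ N, (fun i => τ N (aff Q i)) = aff fun c => τ N (Q c) := fun N => by
    funext i
    fin_cases i
    · rfl
    · rfl
    · show τ N 1 = 1
      exact map_one _
  have hvan : ∀ N, Van (aff fun c => τ N (Q c)) 2 G := fun N => by
    have h1 := (Pool.Agent.R355.NegOrb.van_map (τ N) (aff Q) 2 G).2 hQ
    rw [hmap, haff] at h1
    exact h1
  have he : 1 ≤ e := by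
    by_contra hcon
    have h0 : e = 0 := by omega
    subst h0
    have h1 : G.totalDegree = 0 := hGe.totalDegree hG.ne_zero
    rw [MvPolynomial.totalDegree_eq_zero_iff_eq_C] at h1
    have h2 : coeff 0 G ≠ 0 := fun h => hG.ne_zero (by rw [h1, h, map_zero])
    refine hG.not_isUnit ?_
    rw [h1]
    exact (IsUnit.mk0 _ h2).map C
  obtain ⟨a, ha⟩ : ∃ a, pderiv a G ≠ 0 := by
    by_contra hcon
    push Not at hcon
    have h1 := hGe.sum_X_mul_pderiv
    have h2 : ∑ i, X i * pderiv i G = 0 := Finset.sum_eq_zero fun i _ => by rw [hcon i, mul_zero]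
    rw [h2] at h1
    have h3 : (e : ℂ) • G = 0 := by
      rw [Nat.cast_smul_eq_nsmul]
      exact h1.symm
    rcases smul_eq_zero.1 h3 with h | h
    · have : e = 0 := by exact_mod_cast h
      omega
    · exact hG.ne_zero h
  have hFh : (pderiv a G).IsHomogeneous (e - 1) := hGe.pderiv
  have hnd : ¬ G ∣ pderiv a G := by
    rintro ⟨R, hR⟩
    have hR0 : R ≠ 0 := by
      rintro rfl
      exact ha (by rw [hR, mul_zero])
    have t1 : (pderiv a G).totalDegree = e - 1 := hFh.totalDegree ha
    have t2 : G.totalDegree = e := hGe.totalDegree hG.ne_zero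
    rw [hR, MvPolynomial.totalDegree_mul_of_isDomain hG.ne_zero hR0, t2] at t1
    omega
  have hinj : Function.Injective (fun N : Fin (e * e) => fun c => τ N (Q c)) := by
    intro N N' h
    have h1 := congrFun h b
    simp only at h1
    rw [hτ2, hτ2] at h1
    have h2 : ((N : ℕ) : ℂ) = ((N' : ℕ) : ℂ) := add_left_cancel h1
    exact Fin.ext (by exact_mod_cast h2)
  have hbz := bez (P := fun N : Fin (e * e) => fun c => τ N (Q c)) hinj (u := fun _ => 2)
    (w := fun _ => 1) hG hGe (fun N => hvan N) ha hFh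
    (fun N => pderiv_pow _ a 1 G (hvan N)) hnd
  rw [Finset.sum_const, Finset.card_univ, Fintype.card_fin, smul_eq_mul] at hbz
  have h1 : e * (e - 1) < e * e := Nat.mul_lt_mul_of_pos_left (by omega) (by omega)
  omega

end Pool.Agent.Run7.h330.SXu
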