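import Pool.Agent.Run7.h330.SXu

set_option autoImplicit false

/-!
# The strict inequality of Xu and Ein-Lazarsfeld
-/

namespace Pool.Agent.Run7.h330.SXu

open MvPolynomial Pool.Agent.W609 Pool.Agent.W609.CR Pool.Agent.TH167 Pool.Agent.TH167.SH
open Pool.Agent.H248R5 (forms mem_forms tau)
open Pool.Agent.H248R6 (dG move back dG_homog exists_der coeff_dG)

/-- Evaluation of a form at a multiple of a vector. -/
theorem eval_smul {G : MvPolynomial (Fin 3) ℂ} {e : ℕ} (hG : G.IsHomogeneous e) (c : ℂ)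
    (v : Fin 3 → ℂ) : eval (fun i => c * v i) G = c ^ e * eval v G := by
  rw [eval_eq', eval_eq', Finset.mul_sum]
  refine Finset.sum_congr rfl fun d hd => ?_
  have h1 : ∑ i, d i = e := by
    have h2 := hG (mem_support_iff.1 hd)
    rw [Finsupp.weight_apply] at h2
    rw [← h2, Finsupp.sum_fintype _ _ (fun i => by simp)]
    simp
  have h3 : ∏ i, (c * v i) ^ d i = c ^ e * ∏ i, v i ^ d i := by
    rw [← h1, ← Finset.prod_pow_eq_pow_sum, ← Finset.prod_mul_distrib]
    exact Finset.prod_congr rfl fun i _ => mul_pow _ _ _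
  rw [h3]
  ring

/-- A curve of degree at least two has a point outside of the lines `x = P j 0`. -/
theorem exists_pt {s : ℕ} (P : Fin s → Fin 2 → ℂ) {G : MvPolynomial (Fin 3) ℂ} {e : ℕ}
    (hG : Irreducible G) (hGe : G.IsHomogeneous e) (he : 2 ≤ e) :
    ∃ Q : Fin 2 → ℂ, (∀ j, Q 0 ≠ P j 0) ∧ eval (aff Q) G = 0 := by
  classical
  by_contra hcon
  push Not at hcon
  obtain ⟨R, hR⟩ : ∃ R : MvPolynomial (Fin 3) ℂ, R = X 2 * ∏ j, (X 0 - C (P j 0) * X 2) := ⟨_, rfl⟩
  have h1 : ∀ v : Fin 3 → ℂ, eval v G = 0 → eval v R = 0 := by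
    intro v hv
    rw [hR, map_mul, eval_X, map_prod]
    by_cases h2 : v 2 = 0
    · rw [h2, zero_mul]
    · have h3 : eval (aff ![v 0 / v 2, v 1 / v 2]) G = 0 := by
        have h4 : aff ![v 0 / v 2, v 1 / v 2] = fun i => (v 2)⁻¹ * v i := by
          funext i
          fin_cases i
          · show v 0 / v 2 = (v 2)⁻¹ * v 0
            field_simp
          · show v 1 / v 2 = (v 2)⁻¹ * v 1
            field_simp
          · show (1 : ℂ) = (v 2)⁻¹ * v 2
            field_simp
        rw [h4, eval_smul hGe, hv, mul_zero]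
      have h5 : ∃ j, v 0 / v 2 = P j 0 := by
        by_contra h6
        push Not at h6
        exact hcon ![v 0 / v 2, v 1 / v 2] h6 h3
      obtain ⟨j, hj⟩ := h5
      rw [Finset.prod_eq_zero (Finset.mem_univ j), mul_zero]
      rw [map_sub, eval_X, map_mul, eval_C, eval_X, ← hj]
      field_simp
      ring
  have h2 : R ∈ (Ideal.span {G}).radical := by
    rw [← MvPolynomial.vanishingIdeal_zeroLocus_eq_radical (K := ℂ)]
    rw [MvPolynomial.mem_vanishingIdeal_iff]
    intro v hv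
    rw [MvPolynomial.mem_zeroLocus_iff] at hv
    have h6 := hv G (Ideal.mem_span_singleton_self G)
    rw [MvPolynomial.aeval_eq_eval] at h6
    rw [MvPolynomial.aeval_eq_eval]
    exact h1 v h6
  have hp : Prime G := hG.prime
  have h3 : G ∣ R := by
    rw [((Ideal.span_singleton_prime hG.ne_zero).2 hp).isRadical.radical] at h2
    exact Ideal.mem_span_singleton.1 h2
  have hlin : ∀ L : MvPolynomial (Fin 3) ℂ, L ≠ 0 → L.totalDegree ≤ 1 → ¬ G ∣ L := by
    rintro L hL0 hL1 ⟨T, hT⟩
    have hT0 : T ≠ 0 := by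
      rintro rfl
      exact hL0 (by rw [hT, mul_zero])
    have t2 : G.totalDegree = e := hGe.totalDegree hG.ne_zero
    rw [hT, MvPolynomial.totalDegree_mul_of_isDomain hG.ne_zero hT0, t2] at hL1
    omega
  rw [hR] at h3
  rcases hp.dvd_or_dvd h3 with h4 | h4
  · exact hlin _ (X_ne_zero 2) (by rw [totalDegree_X]) h4
  · obtain ⟨j, -, hj⟩ := (Prime.dvd_finsetProd_iff hp _).1 h4
    refine hlin _ ?_ ?_ hj
    · intro h5
      have h6 := congrArg (eval ![1, 0, 0]) h5
      simp at h6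
    · refine (totalDegree_sub _ _).trans (max_le (by rw [totalDegree_X]) ?_)
      refine (totalDegree_mul _ _).trans ?_
      rw [totalDegree_C, totalDegree_X]

/-- **The strict inequality of Xu and Ein-Lazarsfeld.** -/
theorem sxu {s : ℕ} {P : Fin s → Fin 2 → ℂ}
    (hP : AlgebraicIndependent ℚ (fun ij : Fin s × Fin 2 => P ij.1 ij.2))
    {G : MvPolynomial (Fin 3) ℂ} {e : ℕ} {u : Fin s → ℕ} (hG : Irreducible G)
    (hGe : G.IsHomogeneous e) (hGo : ∀ j, Ord (aff (P j)) (u j) G) {k : Fin s} (hk : 2 ≤ u k) :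
    ∑ j, u j ^ 2 + 1 ≤ e ^ 2 + u k := by
  classical
  by_contra hgoal
  obtain ⟨m, hm⟩ : ∃ m, u k = m + 1 := ⟨u k - 1, by omega⟩
  have hGf : G ∈ forms u P e := by
    rw [← vs_eq_forms]
    exact (mem_VS _ _ _ _).2 ⟨hGe, fun j => (hGo j).1⟩
  have he : 2 ≤ e := hk.trans (van_le hG.ne_zero hGe (hGo k).1)
  have hder : ∀ a : Fin 2, ∃ D : Derivation ℚ ℂ ℂ, ∀ i b, D (P i b) = if i = k ∧ b = a then 1 else 0 := by
    intro a
    obtain ⟨D, hD⟩ := exists_der _ hP (k, a)
    refine ⟨D, fun i b => ?_⟩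
    by_cases h : i = k ∧ b = a
    · rw [if_pos h]
      exact (hD (i, b)).1 (by rw [h.1, h.2])
    · rw [if_neg h]
      refine (hD (i, b)).2 fun h1 => h ?_
      have h2 := congrArg Prod.fst h1
      have h3 := congrArg Prod.snd h1
      exact ⟨h2.symm, h3.symm⟩
  choose D hD using hder
  obtain ⟨Q, hQ1, hQ2⟩ := exists_pt P hG hGe he
  obtain ⟨c, hc0, hc1⟩ : ∃ c : Fin 2 → ℂ, (∃ b, c b ≠ 0) ∧
      c 0 * eval (aff Q) (dG (D 0) G) + c 1 * eval (aff Q) (dG (D 1) G) = 0 := by
    by_cases h0 : eval (aff Q) (dG (D 0) G) = 0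
    · exact ⟨![1, 0], ⟨0, by simp⟩, by simp [h0]⟩
    · exact ⟨![- eval (aff Q) (dG (D 1) G), eval (aff Q) (dG (D 0) G)], ⟨1, by simpa using h0⟩, by
        simp only [Matrix.cons_val_zero, Matrix.cons_val_one]
        ring⟩
  obtain ⟨H, hH⟩ : ∃ H, H = c 0 • dG (D 0) G + c 1 • dG (D 1) G := ⟨_, rfl⟩
  have hHf : H ∈ forms (Function.update u k m) P e := by
    rw [hH]
    exact Submodule.add_mem _ (Submodule.smul_mem _ _ (move hm (D 0) (hD 0) hGf).1)
      (Submodule.smul_mem _ _ (move hm (D 1) (hD 1) hGf).1)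
  have hHVS : H ∈ VS (fun j => aff (P j)) (Function.update u k m) e := by
    rw [vs_eq_forms]
    exact hHf
  obtain ⟨hHh, hvan⟩ := (mem_VS _ _ _ _).1 hHVS
  have hHQ : eval (aff Q) H = 0 := by
    rw [hH, map_add, MvPolynomial.smul_eval, MvPolynomial.smul_eval]
    exact hc1
  have hdvd : G ∣ H := by
    by_contra hnd
    have hH0 : H ≠ 0 := fun h => hnd (by rw [h]; exact dvd_zero _)
    have hinj : Function.Injective (Fin.cons Q P : Fin (s + 1) → Fin 2 → ℂ) := by
      rw [Fin.cons_injective_iff]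
      refine ⟨?_, inj_of_alg hP⟩
      rintro ⟨j, hj⟩
      exact hQ1 j (by rw [hj])
    have hb := bez hinj (u := (Fin.cons 1 u : Fin (s + 1) → ℕ))
      (w := (Fin.cons 1 (Function.update u k m) : Fin (s + 1) → ℕ)) hG hGe ?_ hH0 hHh ?_ hnd
    · rw [Fin.sum_univ_succ] at hb
      simp only [Fin.cons_zero, Fin.cons_succ] at hb
      have hs : ∑ j, u j ^ 2 = ∑ j, u j * Function.update u k m j + u k := by
        have h3 : ∑ j, u j ^ 2 = ∑ j, (u j * Function.update u k m j + if j = k then u k else 0) := by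
          refine Finset.sum_congr rfl fun j _ => ?_
          by_cases hj : j = k
          · subst hj
            rw [Function.update_self, if_pos rfl]
            rw [hm]
            ring
          · rw [Function.update_of_ne hj, if_neg hj]
            ring
        rw [h3, Finset.sum_add_distrib, Finset.sum_ite_eq' Finset.univ k,
          if_pos (Finset.mem_univ k)]
      have e2 : e ^ 2 = e * e := sq e
      omega
    · refine Fin.cases ?_ fun j => ?_
      · simp only [Fin.cons_zero]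
        exact (van_one _ _).2 hQ2
      · simp only [Fin.cons_succ]
        exact (hGo j).1
    · refine Fin.cases ?_ fun j => ?_
      · simp only [Fin.cons_zero]
        exact (van_one _ _).2 hHQ
      · simp only [Fin.cons_succ]
        exact hvan j
  obtain ⟨a, ha⟩ : ∃ a : ℂ, H = a • G := by
    obtain ⟨T, hT⟩ := hdvd
    by_cases hT0 : T = 0
    · exact ⟨0, by rw [hT, hT0, mul_zero, zero_smul]⟩
    · have hH0 : H ≠ 0 := by
        rw [hT]
        exact mul_ne_zero hG.ne_zero hT0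
      have hTd : T.totalDegree = 0 := by
        have t1 : H.totalDegree = e := hHh.totalDegree hH0
        have t2 : G.totalDegree = e := hGe.totalDegree hG.ne_zero
        rw [hT, MvPolynomial.totalDegree_mul_of_isDomain hG.ne_zero hT0, t2] at t1
        omega
      refine ⟨coeff 0 T, ?_⟩
      rw [hT, (MvPolynomial.totalDegree_eq_zero_iff_eq_C).1 hTd, coeff_C, if_pos rfl, mul_comm,
        MvPolynomial.smul_eq_C_mul]
  -- the derivation in the direction `c`
  obtain ⟨E, hE⟩ : ∃ E : Derivation ℚ ℂ ℂ, E = c 0 • D 0 + c 1 • D 1 := ⟨_, rfl⟩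
  have hE1 : ∀ x, E x = c 0 * D 0 x + c 1 * D 1 x := fun x => by
    rw [hE]
    rfl
  have hE2 : ∀ t, E (coeff t G) = a * coeff t G := fun t => by
    have h1 : coeff t H = a * coeff t G := by
      rw [ha, coeff_smul, smul_eq_mul]
    rw [hE1, ← h1, hH, coeff_add, coeff_smul, coeff_smul, coeff_dG, coeff_dG, smul_eq_mul,
      smul_eq_mul]
  obtain ⟨b, hb⟩ := hc0
  have hEb : E (P k b) ≠ 0 := by
    rw [hE1, hD, hD]
    fin_cases b
    · simpa using hb
    · simpa using hb
  obtain ⟨t0, ht0⟩ : ∃ t0, coeff t0 G ≠ 0 := by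
    by_contra hcon
    push Not at hcon
    exact hG.ne_zero (MvPolynomial.ext _ _ fun t => by rw [hcon t, coeff_zero])
  obtain ⟨G', hG'⟩ : ∃ G', G' = C (coeff t0 G)⁻¹ * G := ⟨_, rfl⟩
  have hunit : IsUnit (C (coeff t0 G)⁻¹ : MvPolynomial (Fin 3) ℂ) :=
    (IsUnit.mk0 _ (inv_ne_zero ht0)).map C
  have hG'i : Irreducible G' := by
    rw [hG', irreducible_isUnit_mul hunit]
    exact hG
  have hG'h : G'.IsHomogeneous e := by
    rw [hG']
    have := (isHomogeneous_C (Fin 3) ((coeff t0 G)⁻¹)).mul hGe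
    rwa [zero_add] at this
  have hG'v : Van (aff (P k)) 2 G' := by
    rw [hG']
    unfold Van
    refine Ideal.mul_mem_left _ _ ?_
    exact Ideal.pow_le_pow_right hk (hGo k).1
  refine no_double E hG'i hG'h (fun t => ?_) hG'v hEb
  rw [hG', coeff_C_mul, E.leibniz, hE2, Derivation.leibniz_inv, hE2]
  simp only [smul_eq_mul]
  field_simp
  ring

end Pool.Agent.Run7.h330.SXu
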